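import Pool.Agent.Work.MP_ffcd14_ag.Cyc.Rk

-- merged part: Pool.Agent.Work.MP_10f4af_ag.UN.B1
section
/-!
# Counting conditions on generic coefficients

Plan.  Let `F` be the prime field `(⊥ : Subfield k)`, and make `L` an `F`-algebra through `k`.
`rk_ge`: choose a basis `I ⊆ s` of `s` for the matroid `AlgebraicIndependent.matroid k L`
(`Matroid.exists_isBasis'`, `Matroid.IsBasis'.encard_eq_eRk`).  It is algebraically independent
over `k`, so also over `Algebra.adjoin F (range c)` (`AlgebraicIndependent.restrictScalars` or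
`AlgebraicIndependent.of_tower`-like lemmas), and `AlgebraicIndependent.sumElim_iff` shows that
the union of the image of `c` and `I` is independent over `F`; `Matroid.Indep.encard_le_eRk`.
`rk_lin`: the rows of `M` are independent, so some columns `col : N → α` form an invertible matrix
(`exists_linearIndependent`, `Matrix.rank` or `MP_ffcd14_ag.exists_col`; it is also possible to
argue by induction on `N`).  By Cramer's rule (`Matrix.mulVec_cramer`, `Matrix.mul_adjugate`) the
elements `y (col n)` are in the field generated by `s` and the other `y a`; `rk_le_of_mem`,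
`rk_union_le`, `rk_le_encard`.
`gen_count`: `rk_ge`, `rk_lin` for `s = range g`, `rk_le_encard`; the subfield generated by `s` is
contained in `IntermediateField.adjoin F s` (`Subfield.closure_le`); cancel in `ℕ∞`.
`genf`: the type of the exponents of degree `e` is finite (`Finsupp.finite_of_degree_le`); a form
`u` of degree `e` is `∑ m, coeff m u • monomial m 1`; put `M n m = φ n (monomial m 1)`.
-/

open MvPolynomial Set

namespace Pool.Agent.Work.MP_10f4af_ag

open MP_ffcd14_ag (rk rk_mono rk_le_of_alg rk_le_of_mem rk_union_le rk_le_encard)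

universe u

section

variable {F k L : Type u} [Field F] [Field k] [Field L] [Algebra F k] [Algebra k L] [Algebra F L]
  [IsScalarTower F k L] {α N : Type} [Fintype α] [Fintype N]

theorem rk_ge {c : α → k} (hc : AlgebraicIndependent F c) (s : Set L) :
    (Fintype.card α : ℕ∞) + rk k s ≤ rk F (range (fun a => algebraMap k L (c a)) ∪ s) := by
  obtain ⟨I, hI⟩ := (AlgebraicIndependent.matroid k L).exists_isBasis' s
  have h1 : AlgebraicIndependent k (fun x : I => (x : L)) := hI.indep
  have h2 := hc.sumElim_comp h1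
  have h4 : (AlgebraicIndependent.matroid F L).Indep
      (range (Sum.elim (fun x : I => (x : L)) (algebraMap k L ∘ c))) := h2.to_subtype_range
  have h5 := h4.encard_le_eRk_of_subset
    (X := range (fun a => algebraMap k L (c a)) ∪ s) (by
      rintro _ ⟨x | a, rfl⟩
      · exact Or.inr (hI.subset x.2)
      · exact Or.inl ⟨a, rfl⟩)
  have h6 := h2.injective.encard_range.trans h5
  rw [ENat.card_sum, ENat.card_coe_set_eq, hI.encard_eq_eRk,
    ENat.card_eq_coe_fintype_card, add_comm] at h6
  exact h6

omit [Algebra F k] [IsScalarTower F k L] [Field k] [Algebra k L] in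
theorem rk_lin (s : Set L) (y : α → L) (M : N → α → L)
    (hM : ∀ n a, M n a ∈ IntermediateField.adjoin F s) (hi : LinearIndependent L M)
    (h0 : ∀ n, ∑ a, M n a * y a = 0) :
    (Fintype.card N : ℕ∞) + rk F (range y ∪ s) ≤ Fintype.card α + rk F s := by
  classical
  obtain ⟨col, hinj, -, hdet⟩ := MP_ffcd14_ag.exists_col M (fun _ => True) fun l hl => by
    refine funext (Fintype.linearIndependent_iff.mp hi l (funext fun a => ?_))
    simpa using hl a trivial
  let T : Finset α := (Finset.univ.image col)ᶜ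
  let K := IntermediateField.adjoin F (s ∪ y '' T)
  have hMK : ∀ n a, M n a ∈ K := fun n a =>
    IntermediateField.adjoin.mono F _ _ subset_union_left (hM n a)
  have hT : ∀ a ∈ T, y a ∈ K := fun a ha =>
    IntermediateField.subset_adjoin F _ (Or.inr ⟨a, ha, rfl⟩)
  let A : Matrix N N K := Matrix.of fun j j' => ⟨M j (col j'), hMK _ _⟩
  let b : N → K := fun n => ⟨-∑ a ∈ T, M n a * y a,
    neg_mem (sum_mem fun a ha => mul_mem (hMK _ _) (hT a ha))⟩
  have hA : A.map (algebraMap K L) = Matrix.of fun j j' => M j (col j') := rfl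
  have hdA : A.det ≠ 0 := fun h => hdet (by
    rw [← hA, ← RingHom.mapMatrix_apply, ← RingHom.map_det, h, map_zero])
  obtain ⟨x, hx⟩ := Matrix.mulVec_surjective_iff_isUnit.2
    ((Matrix.isUnit_iff_isUnit_det A).2 hdA.isUnit) b
  have hxy : (fun j => (x j : L)) = fun j => y (col j) := by
    refine Matrix.mulVec_injective_iff_isUnit.2
      ((Matrix.isUnit_iff_isUnit_det _).2 hdet.isUnit) (funext fun n => ?_)
    have h1 := congrArg (algebraMap K L) (congrFun hx n)
    have h2 := h0 n
    rw [← Finset.sum_add_sum_compl (Finset.univ.image col),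
      Finset.sum_image (fun _ _ _ _ h => hinj h)] at h2
    simp only [Matrix.mulVec, dotProduct, map_sum, map_mul] at h1 ⊢
    exact h1.trans (eq_neg_of_add_eq_zero_left h2).symm
  have h1 : rk F (range y ∪ s) ≤ rk F (s ∪ y '' T) := by
    refine rk_le_of_mem ?_
    rintro _ (⟨a, rfl⟩ | hz)
    · by_cases ha : a ∈ T
      · exact hT a ha
      · obtain ⟨j, -, rfl⟩ := Finset.mem_image.1 (not_not.1 (mt Finset.mem_compl.2 ha))
        rw [← congrFun hxy j]
        exact (x j).2
    · exact IntermediateField.subset_adjoin F _ (Or.inl hz)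
  have h2 : rk F (y '' T) ≤ T.card :=
    (rk_le_encard _).trans ((encard_image_le _ _).trans (encard_coe_eq_coe_finsetCard T).le)
  have h3 : Fintype.card N + T.card = Fintype.card α := by
    rw [← Finset.card_add_card_compl (Finset.univ.image col),
      Finset.card_image_of_injective _ hinj, Finset.card_univ]
  calc (Fintype.card N : ℕ∞) + rk F (range y ∪ s)
      ≤ Fintype.card N + (rk F s + T.card) := by
        gcongr
        exact h1.trans ((rk_union_le _ _).trans (by gcongr))
    _ = Fintype.card α + rk F s := by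
        rw [← h3]
        push_cast
        ring

end

variable {k L : Type u} [Field k] [Field L] [Algebra k L] {N γ : Type} [Fintype N] [Finite γ]

theorem gen_count {α : Type} [Fintype α] {c : α → k}
    (hc : AlgebraicIndependent (⊥ : Subfield k) c) (g : γ → L) (M : N → α → L)
    (hM : ∀ n a, M n a ∈ Subfield.closure (range g)) (hi : LinearIndependent L M)
    (h0 : ∀ n, ∑ a, M n a * algebraMap k L (c a) = 0) :
    (Fintype.card N : ℕ∞) + rk k (range g) ≤ Nat.card γ := by
  have h1 := rk_ge hc (range g)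
  have h2 := rk_lin (F := (⊥ : Subfield k)) (range g) (fun a => algebraMap k L (c a)) M
    (fun n a => (Subfield.closure_le (t := (IntermediateField.adjoin _ (range g)).toSubfield)).2
      (IntermediateField.subset_adjoin _ _) (hM n a)) hi h0
  have h3 : rk (⊥ : Subfield k) (range g) ≤ Nat.card γ := by
    refine (rk_le_encard _).trans ?_
    rw [← image_univ]
    refine (encard_image_le _ _).trans ?_
    rw [encard_univ, ENat.card_eq_coe_natCard]
  have h4 : (Fintype.card α : ℕ∞) + (Fintype.card N + rk k (range g)) ≤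
      Fintype.card α + Nat.card γ := by
    rw [add_left_comm]
    exact (add_le_add le_rfl h1).trans (h2.trans (add_le_add le_rfl h3))
  exact (ENat.add_le_add_iff_left (ENat.coe_ne_top _)).1 h4

/-- `f` is a form of degree `e` with algebraically independent coefficients. -/
structure GF {σ : Type} (f : MvPolynomial σ k) (e : ℕ) : Prop where
  hom : f.IsHomogeneous e
  ind : AlgebraicIndependent (⊥ : Subfield k) fun m : {m : σ →₀ ℕ // m.degree = e} => coeff m.1 f

theorem GF.ne {σ : Type} {f : MvPolynomial σ k} {e : ℕ} (h : GF f e) (s : σ) :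
    coeff (Finsupp.single s e) f ≠ 0 := by
  exact h.ind.ne_zero ⟨Finsupp.single s e, by simp⟩

theorem genf {σ : Type} [Finite σ] {f : MvPolynomial σ k} {e : ℕ} (h : GF f e) (g : γ → L)
    (φ : N → MvPolynomial σ L →ₗ[L] L)
    (h1 : ∀ n m, φ n (monomial m 1) ∈ Subfield.closure (range g))
    (h2 : ∀ l : N → L, (∀ u : MvPolynomial σ L, u.IsHomogeneous e → ∑ n, l n * φ n u = 0) → l = 0)
    (h3 : ∀ n, φ n (map (algebraMap k L) f) = 0) :
    (Fintype.card N : ℕ∞) + rk k (range g) ≤ Nat.card γ := by
  classical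
  have : Finite {m : σ →₀ ℕ // m.degree = e} :=
    ((Finsupp.finite_of_degree_le e).subset fun m (hm : m.degree = e) => hm.le).to_subtype
  let _ := Fintype.ofFinite {m : σ →₀ ℕ // m.degree = e}
  have key : ∀ u : MvPolynomial σ L, u.IsHomogeneous e → ∀ n,
      φ n u = ∑ m : {m : σ →₀ ℕ // m.degree = e}, φ n (monomial m.1 1) * coeff m.1 u := by
    intro u hu n
    have hu' : u = ∑ m : {m : σ →₀ ℕ // m.degree = e}, coeff m.1 u • monomial m.1 (1 : L) := by
      ext d
      simp only [coeff_sum, coeff_smul, coeff_monomial, smul_eq_mul, mul_ite, mul_one, mul_zero]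
      by_cases hd : d.degree = e
      · rw [Finset.sum_eq_single ⟨d, hd⟩ (fun m _ hm => if_neg fun h => hm (Subtype.ext h))
          (by simp), if_pos rfl]
      · rw [hu.coeff_eq_zero hd]
        exact (Finset.sum_eq_zero fun m _ => if_neg fun h : m.1 = d => hd (h ▸ m.2)).symm
    conv_lhs => rw [hu', map_sum]
    exact Finset.sum_congr rfl fun m _ => by rw [map_smul, smul_eq_mul, mul_comm]
  refine gen_count h.ind g (fun n m => φ n (monomial m.1 1)) (fun n m => h1 n m.1) ?_ fun n => ?_
  · refine Fintype.linearIndependent_iff.2 fun l hl => congrFun (h2 l fun u hu => ?_)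
    simp only [key u hu, Finset.mul_sum, ← mul_assoc]
    rw [Finset.sum_comm]
    refine Finset.sum_eq_zero fun m _ => ?_
    have := congrFun hl m
    simp only [Finset.sum_apply, Pi.smul_apply, smul_eq_mul, Pi.zero_apply] at this
    rw [← Finset.sum_mul, this, zero_mul]
  · have := key _ (h.hom.map (algebraMap k L)) n
    simp only [coeff_map] at this
    rw [← this, h3]

end Pool.Agent.Work.MP_10f4af_ag
end

-- merged part: Pool.Agent.Work.MP_10f4af_ag.UN.B2
section
/-!
# First and second order conditions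

Plan.  Put `u s = X s - C (x s) * X s₀`; it is a linear form which vanishes at `x`, and
`pderiv t (u s) = if t = s then 1 else 0` for `s, t ≠ s₀`.
`taylor`: `F - aeval (fun s => C (x s) * X s₀) F` is in the ideal spanned by the `u s` (induction
on `F`, or `MvPolynomial.aeval` modulo the ideal), and the second term is
`C (eval x F) * X s₀ ^ m` because `F` is homogeneous; `Ideal.mem_span_range_iff_exists_fun`
(`Submodule.mem_span_range_iff_exists_fun`).  Put the coefficient of `u s₀ = 0` to anything.  For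
the last part apply `pderiv t` and evaluate at `x`.
`low`: `genf` with `N = Option S`, the functionals `eval x` and `eval x ∘ pderiv s`
(`aeval_map_algebraMap`, `pderiv_map`), the parameters `x s`, `s ∉ U`, `s ≠ s₀`; all the `x s`
are in the subfield they generate.  Test forms: `u s * X s₀ ^ (e - 1)` and `X s₀ ^ e`.
`low'`: if `x s₀ ≠ 0` for some `s₀ ∉ S`, apply `low` to `(x s₀)⁻¹ • x` (homogeneity of `f` and of
its derivatives, `IsHomogeneous.pderiv`, `eval_smul_hom` of `GL/N2` or a direct proof), and the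
ratios are in the field generated by its coordinates.  Otherwise take `s₀ ∈ S` with `x s₀ ≠ 0` and
apply `low` with `S.erase s₀` and `U = Sᶜ`: this gives a contradiction.
`hess`: there is `s₁ ≠ s₀` with `univ = S ∪ {s₀, s₁}`.  If `v s₁ ≠ 0` then `pderiv s₁ f` vanishes
at `x`, against `low` for `insert s₁ S`.  Otherwise, if `v ≠ 0`, scale `v` so that `v t₀ = 1` with
`t₀ ∈ S`.  Use `genf` with `L = k`, `N = Option (S ⊕ S)`: the functionals of `low` and
`u ↦ ∑ t, eval x (pderiv t (pderiv r u)) * v t`, `r ∈ S`; the parameters are the `x s`, `s ≠ s₀`,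
and `v t`, `t ∈ S.erase t₀`, so `2 d` parameters and `2 d + 1` conditions, `d = S.card`.  On the
test form `u s * u t * X s₀ ^ (e - 2)`, `s t ∈ S`, the relation is `l t * v s + l s * v t = 0`;
take `s = t = t₀`, then `s = t₀`; finish as in `low`.
-/

open MvPolynomial Set

namespace Pool.Agent.Work.MP_10f4af_ag

open MP_ffcd14_ag (rk rk_mono rk_le_of_alg rk_le_of_mem rk_union_le rk_le_encard)

universe u

variable {k L : Type u} [Field k] [Field L] [Algebra k L] {σ : Type} [Fintype σ]
  {f : MvPolynomial σ k} {e : ℕ}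

omit [Fintype σ] in
theorem UNB2_scale {A : Type*} [CommRing A] [Algebra k A] {g : MvPolynomial σ k} {n : ℕ}
    (hg : g.IsHomogeneous n) (a : A) (x : σ → A) :
    aeval (fun s => a * x s) g = a ^ n * aeval x g := by
  induction hg using IsWeightedHomogeneous.induction_on with
  | zero => simp
  | add p q _ _ hp hq => rw [map_add, map_add, hp, hq, mul_add]
  | monomial d r hr =>
    rw [aeval_monomial, aeval_monomial, ← hr]
    simp only [mul_pow, Finsupp.weight_apply, Pi.one_apply, smul_eq_mul, mul_one,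
      Finsupp.sum, Finsupp.prod, Finset.prod_pow_eq_pow_sum, Finset.prod_mul_distrib]
    ring

omit [Fintype σ] in
theorem UNB2_mem (K : Subfield L) {x : σ → L} (hx : ∀ s, x s ∈ K) (m : σ →₀ ℕ) {c : L}
    (hc : c ∈ K) : eval x (monomial m c) ∈ K := by
  rw [eval_monomial]
  exact mul_mem hc (prod_mem fun s _ => pow_mem (hx s) _)

omit [Fintype σ] in
theorem UNB2_u0 {x : σ → L} {s₀ : σ} (hx : x s₀ = 1) (s : σ) :
    eval x (X s - C (x s) * X s₀) = 0 := by
  simp [hx]

omit [Fintype σ] in
theorem UNB2_u1 [DecidableEq σ] (x : σ → L) {s₀ t : σ} (ht : t ≠ s₀) (s : σ) :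
    pderiv t (X s - C (x s) * X s₀ : MvPolynomial σ L) = if s = t then 1 else 0 := by
  rw [map_sub, pderiv_C_mul, pderiv_X_of_ne ht.symm, mul_zero, sub_zero, pderiv_X, Pi.single_apply]

omit [Fintype σ] in
theorem UNB2_p (s₀ : σ) {t : σ} (ht : t ≠ s₀) (n : ℕ) :
    pderiv t (X s₀ ^ n : MvPolynomial σ L) = 0 := by
  rw [pderiv_pow, pderiv_X_of_ne ht.symm, mul_zero]

omit [Fintype σ] in
theorem UNB2_hom (x : σ → L) (s₀ s : σ) :
    (X s - C (x s) * X s₀ : MvPolynomial σ L).IsHomogeneous 1 :=
  (isHomogeneous_X L s).sub ((isHomogeneous_X L s₀).C_mul _)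

omit [Fintype σ] in
theorem UNB2_second [DecidableEq σ] {x : σ → L} {s₀ : σ} (hx : x s₀ = 1) {r a : σ} (hr : r ≠ s₀)
    (ha : a ≠ s₀) (s t : σ) (n : ℕ) : eval x (pderiv a (pderiv r
      ((X s - C (x s) * X s₀) * (X t - C (x t) * X s₀) * X s₀ ^ n))) =
      (if t = a then (if s = r then 1 else 0) else 0) +
        if s = a then (if t = r then 1 else 0) else 0 := by
  simp only [pderiv_mul, UNB2_u1 x hr, UNB2_u1 x ha, UNB2_p s₀ hr, UNB2_p s₀ ha,
    map_mul, map_add, UNB2_u0 hx, zero_mul, mul_zero, zero_add, add_zero, map_pow,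
    eval_X, hx, one_pow, mul_one]
  split_ifs <;> simp

theorem taylor {F : MvPolynomial σ k} {m : ℕ} (hF : F.IsHomogeneous m) {x : σ → k} {s₀ : σ}
    (hx : x s₀ = 1) : ∃ A : σ → MvPolynomial σ k,
      F = C (eval x F) * X s₀ ^ m + ∑ s, A s * (X s - C (x s) * X s₀) ∧
        ∀ s ≠ s₀, eval x (A s) = eval x (pderiv s F) := by
  classical
  have h1 : ∀ G : MvPolynomial σ k, G - aeval (fun s => X s₀ * C (x s)) G ∈
      Ideal.span (range fun s => (X s - C (x s) * X s₀ : MvPolynomial σ k)) := by
    intro G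
    induction G using MvPolynomial.induction_on with
    | C a => simp
    | add p q hp hq =>
      rw [map_add, add_sub_add_comm]
      exact add_mem hp hq
    | mul_X p s hp =>
      have : p * X s - aeval (fun s => X s₀ * C (x s)) (p * X s) =
          (p - aeval (fun s => X s₀ * C (x s)) p) * (X s₀ * C (x s)) +
            p * (X s - C (x s) * X s₀) := by
        rw [map_mul, aeval_X]
        ring
      rw [this]
      exact add_mem (Ideal.mul_mem_right _ _ hp)
        (Ideal.mul_mem_left _ _ (Ideal.subset_span (mem_range_self s)))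
  have h2 : aeval (fun s => (C (x s) : MvPolynomial σ k)) F = C (eval x F) := by
    have : (aeval fun s => (C (x s) : MvPolynomial σ k)) =
        (Algebra.ofId k (MvPolynomial σ k)).comp (aeval x) := by
      ext s : 1
      simp [Algebra.ofId_apply]
    rw [this]
    simp [Algebra.ofId_apply, aeval_eq_eval]
  obtain ⟨A, hA⟩ := Ideal.mem_span_range_iff_exists_fun.1 (h1 F)
  rw [UNB2_scale hF, h2] at hA
  have h3 : F = C (eval x F) * X s₀ ^ m + ∑ s, A s * (X s - C (x s) * X s₀) := by
    rw [hA]
    ring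
  refine ⟨A, h3, fun s hs => ?_⟩
  conv_rhs => rw [h3]
  simp only [map_add, UNB2_p s₀ hs, mul_zero, map_zero, zero_add, map_sum,
    pderiv_mul, UNB2_u1 x hs, map_mul, UNB2_u0 hx]
  simp [apply_ite]

omit [Fintype σ] in
theorem UNB2_ind (he : 0 < e) {x : σ → L} {s₀ : σ} (hx : x s₀ = 1) {S : Finset σ} (h0 : s₀ ∉ S)
    (a : L) (l : S → L) (h : ∀ u : MvPolynomial σ L, u.IsHomogeneous e →
      a * eval x u + ∑ s : S, l s * eval x (pderiv (s : σ) u) = 0) : a = 0 ∧ l = 0 := by
  classical
  have hs : ∀ s : S, (s : σ) ≠ s₀ := fun s h => h0 (h ▸ s.2)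
  constructor
  · simpa [UNB2_p s₀ (hs _), hx] using h (X s₀ ^ e) (isHomogeneous_X_pow s₀ e)
  · funext r
    have := h ((X (r : σ) - C (x r) * X s₀) * X s₀ ^ (e - 1)) (by
      have := (UNB2_hom x s₀ r).mul (isHomogeneous_X_pow (R := L) s₀ (e - 1))
      rwa [Nat.add_sub_cancel' he] at this)
    simp only [pderiv_mul, UNB2_u1 x (hs _), map_mul, map_add, UNB2_u0 hx, zero_mul, mul_zero,
      zero_add, add_zero, map_pow, eval_X, hx, one_pow, mul_one] at this
    simpa [apply_ite, Subtype.val_inj] using this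

theorem low (h : GF f e) (he : 0 < e) {x : σ → L} {s₀ : σ} (hx : x s₀ = 1) (S U : Finset σ)
    (h0 : s₀ ∉ S) (hU : ∀ s ∈ U, x s = 0) (hf : aeval x f = 0)
    (hS : ∀ s ∈ S, aeval x (pderiv s f) = 0) :
    rk k (range x) + (S.card + U.card + 2 : ℕ) ≤ Fintype.card σ := by
  classical
  have hU0 : s₀ ∉ U := fun h => one_ne_zero (hx.symm.trans (hU _ h))
  let g : ((insert s₀ U)ᶜ : Finset σ) → L := fun s => x s
  have hK : ∀ s, x s = 0 ∨ x s = 1 ∨ x s ∈ range g := fun s => by
    by_cases h1 : s ∈ U
    · exact Or.inl (hU s h1)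
    by_cases h2 : s = s₀
    · exact Or.inr (Or.inl (h2 ▸ hx))
    · exact Or.inr (Or.inr ⟨⟨s, by simp [h1, h2]⟩, rfl⟩)
  have hx' : ∀ s, x s ∈ Subfield.closure (range g) := fun s => by
    rcases hK s with h | h | h
    · exact h ▸ zero_mem _
    · exact h ▸ one_mem _
    · exact Subfield.subset_closure h
  have key := genf (N := Option S) h g
    (fun n => n.elim (aeval x).toLinearMap
      fun s => (aeval x).toLinearMap ∘ₗ (pderiv (s : σ)).toLinearMap) ?_ ?_ ?_
  · have h1 : rk k (range x) ≤ rk k (range g) := rk_le_of_mem (by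
      rintro _ ⟨s, rfl⟩
      rcases hK s with h | h | h
      · exact h ▸ zero_mem _
      · exact h ▸ one_mem _
      · exact IntermediateField.subset_adjoin _ _ h)
    have h2 : Nat.card ((insert s₀ U)ᶜ : Finset σ) + (U.card + 1) = Fintype.card σ := by
      rw [Nat.card_eq_fintype_card, Fintype.card_coe, ← Finset.card_insert_of_notMem hU0,
        Finset.card_compl_add_card]
    rw [Fintype.card_option, Fintype.card_coe] at key
    rw [← h2]
    push_cast at key ⊢
    calc rk k (range x) + (S.card + U.card + 2) ≤ rk k (range g) + (S.card + U.card + 2) := by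
          gcongr
      _ = (S.card + 1 + rk k (range g)) + (U.card + 1) := by
          rw [← one_add_one_eq_two]
          abel
      _ ≤ _ := by gcongr
  · rintro (_ | s) m
    · exact UNB2_mem _ hx' m (one_mem _)
    · change eval x (pderiv (s : σ) (monomial m 1)) ∈ _
      rw [pderiv_monomial]
      exact UNB2_mem _ hx' _ (mul_mem (one_mem _) (natCast_mem _ _))
  · intro l hl
    obtain ⟨a, b⟩ := UNB2_ind he hx h0 (l none) (fun s => l (some s)) fun u hu => by
      have := hl u hu
      rw [Fintype.sum_option] at this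
      exact this
    funext n
    cases n with
    | none => exact a
    | some s => exact congrFun b s
  · rintro (_ | s)
    · exact (aeval_map_algebraMap L x f).trans hf
    · change aeval x (pderiv (s : σ) (map (algebraMap k L) f)) = 0
      rw [pderiv_map, aeval_map_algebraMap]
      exact hS s s.2

theorem low' (h : GF f e) (he : 0 < e) {x : σ → L} (hx : x ≠ 0) (S U : Finset σ)
    (hU : ∀ s ∈ U, x s = 0) (hf : aeval x f = 0) (hS : ∀ s ∈ S, aeval x (pderiv s f) = 0) :
    rk k {y | ∃ s t, y = x s / x t} + (S.card + U.card + 2 : ℕ) ≤ Fintype.card σ := by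
  classical
  have key : ∀ (s₀ : σ) (S' U' : Finset σ), x s₀ ≠ 0 → s₀ ∉ S' → S' ⊆ S → (∀ s ∈ U', x s = 0) →
      rk k (range fun s => (x s₀)⁻¹ * x s) + (S'.card + U'.card + 2 : ℕ) ≤ Fintype.card σ :=
    fun s₀ S' U' h1 h2 h3 h4 => low h he (inv_mul_cancel₀ h1) S' U' h2
      (fun s hs => by rw [h4 s hs, mul_zero]) (by rw [UNB2_scale h.hom, hf, mul_zero])
      fun s hs => by rw [UNB2_scale h.hom.pderiv, hS s (h3 hs), mul_zero]
  by_cases hc : ∃ s₀ ∉ S, x s₀ ≠ 0
  · obtain ⟨s₀, h1, h2⟩ := hc
    refine le_trans ?_ (key s₀ S U h2 h1 le_rfl hU)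
    gcongr
    refine rk_le_of_mem ?_
    rintro _ ⟨s, t, rfl⟩
    rw [← mul_div_mul_left (x s) (x t) (inv_ne_zero h2)]
    exact div_mem (IntermediateField.subset_adjoin _ _ (mem_range_self s))
      (IntermediateField.subset_adjoin _ _ (mem_range_self t))
  · exfalso
    push Not at hc
    obtain ⟨s₀, h1⟩ := Function.ne_iff.1 hx
    have h2 : s₀ ∈ S := by
      by_contra h2
      exact h1 (hc s₀ h2)
    have h3 := le_trans le_add_self (key s₀ (S.erase s₀) Sᶜ h1 (Finset.notMem_erase _ _)
      (Finset.erase_subset _ _) fun s hs => hc s (Finset.mem_compl.1 hs))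
    have h4 := Finset.card_erase_add_one h2
    have h5 := Finset.card_compl_add_card S
    have h6 := Nat.cast_le.1 h3
    omega

theorem hess (h : GF f e) (he : 2 ≤ e) (h2 : (2 : k) ≠ 0) {x v : σ → k} {s₀ : σ} (hx : x s₀ = 1)
    {S : Finset σ} (h0 : s₀ ∉ S) (hc : S.card + 2 = Fintype.card σ) (hf : eval x f = 0)
    (hS : ∀ s ∈ S, eval x (pderiv s f) = 0) (hv : v s₀ = 0)
    (h1 : ∑ t, eval x (pderiv t f) * v t = 0)
    (h3 : ∀ s ∈ S, ∑ t, eval x (pderiv t (pderiv s f)) * v t = 0) : v = 0 := by
  classical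
  obtain ⟨s₁, hs₁⟩ : ∃ s₁, (insert s₀ S)ᶜ = {s₁} := Finset.card_eq_one.1 (by
    have := Finset.card_compl_add_card (insert s₀ S)
    rw [Finset.card_insert_of_notMem h0] at this
    omega)
  have hall : ∀ s, s = s₀ ∨ s ∈ S ∨ s = s₁ := fun s => by
    have : s ∈ (insert s₀ S)ᶜ ↔ s ∈ ({s₁} : Finset σ) := by rw [hs₁]
    simp only [Finset.mem_compl, Finset.mem_insert, Finset.mem_singleton] at this
    tauto
  have hn : s₁ ≠ s₀ ∧ s₁ ∉ S := by
    have : s₁ ∈ (insert s₀ S)ᶜ := hs₁ ▸ Finset.mem_singleton_self _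
    simpa using this
  have hv1 : v s₁ = 0 := by
    by_contra hv1
    rw [Finset.sum_eq_single s₁ (fun t _ ht => by
      rcases hall t with rfl | h | h
      · rw [hv, mul_zero]
      · rw [hS t h, zero_mul]
      · exact absurd h ht) (by simp)] at h1
    have h4 := le_trans le_add_self (low (L := k) h (by omega) hx (insert s₁ S) ∅
      (by simp [hn.1.symm, h0]) (by simp) hf fun s hs => by
        rcases Finset.mem_insert.1 hs with rfl | hs
        · exact (mul_eq_zero.1 h1).resolve_right hv1
        · exact hS s hs)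
    have h5 := Nat.cast_le.1 h4
    rw [Finset.card_insert_of_notMem hn.2] at h5
    omega
  by_contra hv0
  obtain ⟨t₀, ht⟩ := Function.ne_iff.1 hv0
  have ht₀ : t₀ ∈ S := by
    rcases hall t₀ with rfl | h | rfl
    · exact absurd hv ht
    · exact h
    · exact absurd hv1 ht
  obtain ⟨w, hw⟩ : ∃ w : σ → k, ∀ t, w t = (v t₀)⁻¹ * v t := ⟨_, fun _ => rfl⟩
  have w0 : w s₀ = 0 := by rw [hw, hv, mul_zero]
  have w1 : w s₁ = 0 := by rw [hw, hv1, mul_zero]
  have wt : w t₀ = 1 := by rw [hw, inv_mul_cancel₀ ht]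
  have hs : ∀ s : S, (s : σ) ≠ s₀ := fun s h => h0 (h ▸ s.2)
  let g : ({s₀}ᶜ : Finset σ) ⊕ S.erase t₀ → k := Sum.elim (fun s => x s) fun t => w t
  have hx' : ∀ s, x s ∈ Subfield.closure (range g) := fun s => by
    by_cases h : s = s₀
    · rw [h, hx]
      exact one_mem _
    · exact Subfield.subset_closure ⟨Sum.inl ⟨s, by simpa using h⟩, rfl⟩
  have hw' : ∀ s, w s ∈ Subfield.closure (range g) := fun s => by
    rcases hall s with rfl | h | rfl
    · exact w0 ▸ zero_mem _
    · by_cases h' : s = t₀
      · rw [h', wt]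
        exact one_mem _
      · exact Subfield.subset_closure ⟨Sum.inr ⟨s, Finset.mem_erase.2 ⟨h', h⟩⟩, rfl⟩
    · exact w1 ▸ zero_mem _
  let ψ : S → MvPolynomial σ k →ₗ[k] k := fun r =>
    ∑ t, w t • ((aeval x).toLinearMap ∘ₗ (pderiv t).toLinearMap ∘ₗ (pderiv (r : σ)).toLinearMap)
  have hψ : ∀ r u, ψ r u = ∑ t, w t * eval x (pderiv t (pderiv (r : σ) u)) := fun r u => by
    simp [ψ, LinearMap.sum_apply, aeval_eq_eval]
  have key := genf (L := k) (N := Option (S ⊕ S)) h g
    (fun n => n.elim (aeval x).toLinearMap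
      (Sum.elim (fun s => (aeval x).toLinearMap ∘ₗ (pderiv (s : σ)).toLinearMap) ψ)) ?_ ?_ ?_
  · have h4 := Nat.cast_le.1 (le_trans le_self_add key)
    have h5 := Finset.card_erase_add_one ht₀
    have h6 := Finset.card_compl_add_card ({s₀} : Finset σ)
    simp only [Fintype.card_option, Fintype.card_sum, Fintype.card_coe, Nat.card_eq_fintype_card,
      Finset.card_singleton] at h4 h6
    omega
  · rintro (_ | s | s) m
    · exact UNB2_mem _ hx' m (one_mem _)
    · change eval x (pderiv (s : σ) (monomial m 1)) ∈ _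
      rw [pderiv_monomial]
      exact UNB2_mem _ hx' _ (mul_mem (one_mem _) (natCast_mem _ _))
    · change ψ s (monomial m 1) ∈ _
      rw [hψ]
      refine sum_mem fun t _ => mul_mem (hw' t) ?_
      rw [pderiv_monomial, pderiv_monomial]
      exact UNB2_mem _ hx' _ (mul_mem (mul_mem (one_mem _) (natCast_mem _ _)) (natCast_mem _ _))
  · intro l hl
    have hl' : ∀ u : MvPolynomial σ k, u.IsHomogeneous e → l none * eval x u +
        (∑ s : S, l (some (.inl s)) * eval x (pderiv (s : σ) u) +
          ∑ s : S, l (some (.inr s)) * ψ s u) = 0 := fun u hu => by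
      have := hl u hu
      rw [Fintype.sum_option, Fintype.sum_sum_type] at this
      exact this
    have q : ∀ s t : S, l (some (.inr s)) * w t + l (some (.inr t)) * w s = 0 := fun s t => by
      have hom := ((UNB2_hom x s₀ s).mul (UNB2_hom x s₀ t)).mul
        (isHomogeneous_X_pow (R := k) s₀ (e - 2))
      rw [show 1 + 1 + (e - 2) = e by omega] at hom
      have b := hl' _ hom
      have c : ∀ r : S, ψ r ((X (s : σ) - C (x s) * X s₀) * (X (t : σ) - C (x t) * X s₀) *
          X s₀ ^ (e - 2)) = (if s = r then w t else 0) + if t = r then w s else 0 := fun r => by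
        rw [hψ]
        have d : ∀ a, w a * eval x (pderiv a (pderiv (r : σ)
            ((X (s : σ) - C (x s) * X s₀) * (X (t : σ) - C (x t) * X s₀) * X s₀ ^ (e - 2)))) =
            (if (t : σ) = a then (if s = r then w a else 0) else 0) +
              if (s : σ) = a then (if t = r then w a else 0) else 0 := fun a => by
          by_cases ha : a = s₀
          · simp [ha, w0]
          · rw [UNB2_second hx (hs r) ha]
            simp only [Subtype.val_inj]
            split_ifs <;> ring
        simp only [d]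
        simp [Finset.sum_add_distrib]
      simp only [c, pderiv_mul, map_mul, map_add, UNB2_u0 hx, zero_mul, mul_zero, zero_add,
        add_zero, Finset.sum_const_zero, mul_add, Finset.sum_add_distrib] at b
      simpa using b
    have q0 : l (some (.inr ⟨t₀, ht₀⟩)) = 0 := by
      have := q ⟨t₀, ht₀⟩ ⟨t₀, ht₀⟩
      rw [wt, ← two_mul, mul_one] at this
      exact (mul_eq_zero.1 this).resolve_left h2
    have q1 : ∀ s, l (some (.inr s)) = 0 := fun s => by
      simpa [wt, q0] using q s ⟨t₀, ht₀⟩
    obtain ⟨a, b⟩ := UNB2_ind (by omega : 0 < e) hx h0 (l none) (fun s => l (some (.inl s)))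
      fun u hu => by simpa [q1] using hl' u hu
    funext n
    rcases n with _ | s | s
    exacts [a, congrFun b s, q1 s]
  · rw [Algebra.algebraMap_self, map_id]
    rintro (_ | s | s)
    · exact hf
    · exact hS s s.2
    · change ψ s f = 0
      rw [hψ]
      have := h3 s s.2
      simp only [hw, mul_assoc, ← Finset.mul_sum]
      simp only [mul_comm (v _), this, mul_zero]

end Pool.Agent.Work.MP_10f4af_ag
end

-- merged part: Pool.Agent.Work.MP_10f4af_ag.UN.B3
section
/-!
# Polygons

Plan.  `GF.off`: if `x s = 0` for all `s ≠ p` then `aeval x f = coeff (single p e) f * x p ^ e`;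
`GF.ne`.  `step`: take `s ≠ p` with `x s ≠ 0`, `a = y s / x s`; if `a = 0` then `y t = 0` for all
`t ≠ p`.  `fib_fin`: the polynomial `aeval (fun s => C (x s) + if s = p then X else 0) f` in one
variable has the coefficient `coeff (single p e) f ≠ 0` in degree `e` (or: it is not zero, since
otherwise its homogenisation would vanish at `Pi.single p 1`; `k` is not assumed infinite, so work
with coefficients); `Polynomial.finite_setOf_isRoot`.
`zlin`: let `A i = ∑ j ≤ i, l j`; the coordinate `p i` for `τ i ≠ 0` gives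
`A i + κ * (A last - A i) = 0`.  For the greatest such `i` we get that the total sum is zero, so
`(1 - κ) * A i = 0` for all `i` with `τ i ≠ 0`; induction.
`zrk`: scale `τ` so that `τ i₀ = 1`; `genf` with `N = {j // τ j ≠ 0}`, the functionals
`eval (z j)`, the parameters `κ` and `τ i`, `τ i ≠ 0`, `i ≠ i₀`.  By `zlin` there are linear forms
`w j` with `eval (z j') (w j) = if j = j' then 1 else 0` (`LinearMap.exists_leftInverse_of_injective`,
`LinearMap.pi_apply_eq_sum_univ`); the test forms are `w j ^ e`.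
`polygon`: choose `a i ≠ 0`, `t i` by `step`.  If all `t i` vanish, all the `x i` are proportional
to `x 0`, the derivatives in the directions `p i` vanish at `x 0`, and `low'` with `S` the image
of `p`, `U = ∅` gives the result.  Otherwise define `b : ℕ → L` by `b 0 = 1`,
`b (i + 1) = b i * (a i)⁻¹`, `τ i = b (i + 1) * t i`, so that
`b j • x j = x 0 + ∑ i < j, single (p i) (τ i)` for `j ≤ n`, and `κ • x 0 = x 0 + ∑ i, single ..`
with `κ = b (n + 1)`.  As `p` is injective and `τ ≠ 0`, `κ ≠ 1` and
`((κ - 1) * b j) • x j = zz p κ τ j`; `zrk`, `rk_le_of_mem`.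
-/

open MvPolynomial Set

namespace Pool.Agent.Work.MP_10f4af_ag

open MP_ffcd14_ag (rk rk_mono rk_le_of_alg rk_le_of_mem rk_union_le rk_le_encard)

universe u

variable {k L : Type u} [Field k] [Field L] [Algebra k L] {σ : Type} [Fintype σ]
  {f : MvPolynomial σ k} {e : ℕ}

omit [Fintype σ] in
theorem UNB3_smul (hf : f.IsHomogeneous e) (c : L) (y : σ → L) :
    aeval (c • y) f = c ^ e * aeval y f := by
  classical
  conv_lhs => rw [f.as_sum]
  conv_rhs => rw [f.as_sum]
  rw [map_sum, map_sum, Finset.mul_sum]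
  refine Finset.sum_congr rfl fun m hm => ?_
  have hd : ∑ i ∈ m.support, m i = e := by
    have := hf (mem_support_iff.1 hm)
    rw [← this, Finsupp.weight_apply, Finsupp.sum]
    simp
  rw [aeval_monomial, aeval_monomial, Finsupp.prod, Finsupp.prod]
  simp only [Pi.smul_apply, smul_eq_mul, mul_pow]
  rw [Finset.prod_mul_distrib, Finset.prod_pow_eq_pow_sum, hd]
  ring

omit [Fintype σ] in
theorem UNB3_single [DecidableEq σ] (hf : f.IsHomogeneous e) (p : σ) (t : L) :
    aeval (Pi.single p t : σ → L) f = algebraMap k L (coeff (Finsupp.single p e) f) * t ^ e := by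
  classical
  conv_lhs => rw [f.as_sum]
  rw [map_sum, Finset.sum_eq_single (Finsupp.single p e)]
  · rw [aeval_monomial, Finsupp.prod_single_index (by simp)]
    simp
  · intro m hm hne
    have hd : ∑ i ∈ m.support, m i = e := by
      have := hf (mem_support_iff.1 hm)
      rw [← this, Finsupp.weight_apply, Finsupp.sum]
      simp
    have : ∃ s, s ≠ p ∧ m s ≠ 0 := by
      by_contra hc
      push Not at hc
      apply hne
      have h1 : m = Finsupp.single p (m p) := by
        ext s
        by_cases hs : s = p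
        · subst hs; simp
        · rw [hc s hs, Finsupp.single_eq_of_ne hs]
      have h2 : m p = e := by
        rw [← hd, Finset.sum_eq_single p]
        · intro s _ hs
          exact hc s hs
        · intro hp
          simpa using hp
      rw [h1, h2]
    obtain ⟨s, hs, hms⟩ := this
    rw [aeval_monomial, Finsupp.prod, Finset.prod_eq_zero (Finsupp.mem_support_iff.2 hms), mul_zero]
    rw [Pi.single_eq_of_ne hs, zero_pow hms]
  · intro hm
    rw [notMem_support_iff.1 hm]
    simp

theorem GF.off (h : GF f e) {x : σ → L} (hx : x ≠ 0) (hf : aeval x f = 0) (p : σ) :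
    ∃ s ≠ p, x s ≠ 0 := by
  classical
  by_contra hc
  push Not at hc
  have h1 : x = Pi.single p (x p) := by
    funext s
    by_cases hs : s = p
    · subst hs; simp
    · rw [hc s hs, Pi.single_eq_of_ne hs]
  have h2 : x p ≠ 0 := by
    intro h0
    apply hx
    rw [h1, h0]
    simp
  rw [h1, UNB3_single h.hom] at hf
  rcases mul_eq_zero.1 hf with h3 | h3
  · exact h.ne p ((map_eq_zero _).1 h3)
  · exact h2 (pow_eq_zero_iff'.1 h3).1

theorem step [DecidableEq σ] {x y : σ → L} {p : σ} (hx : ∃ s ≠ p, x s ≠ 0) (hy : ∃ s ≠ p, y s ≠ 0)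
    (h : ∀ s ≠ p, ∀ t ≠ p, x s * y t = x t * y s) :
    ∃ a ≠ (0 : L), ∃ t, y = a • x + Pi.single p t := by
  obtain ⟨s, hs, hxs⟩ := hx
  have key : ∀ t ≠ p, y t = y s / x s * x t := by
    intro t ht
    have := h s hs t ht
    field_simp
    linear_combination this
  refine ⟨y s / x s, ?_, y p - y s / x s * x p, ?_⟩
  · intro h0
    obtain ⟨t, ht, hyt⟩ := hy
    apply hyt
    rw [key t ht, h0, zero_mul]
  · funext t
    by_cases ht : t = p
    · subst ht; simp
    · rw [Pi.add_apply, Pi.single_eq_of_ne ht, key t ht]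
      simp

theorem fib_fin [DecidableEq σ] (h : GF f e) (x : σ → k) (p : σ) :
    {t : k | eval (x + Pi.single p t) f = 0}.Finite := by
  set Q : Polynomial k := aeval (fun s => Polynomial.C (x s) * Polynomial.X +
    Polynomial.C ((Pi.single p 1 : σ → k) s)) f with hQ
  have hev : ∀ u : k, Q.eval u = aeval (u • x + Pi.single p 1) f := by
    intro u
    have h1 : Q.eval u = Polynomial.aeval u Q := by
      rw [Polynomial.coe_aeval_eq_eval]
    rw [h1, hQ, ← AlgHom.comp_apply, comp_aeval]
    congr 2
    funext s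
    rw [map_add, map_mul, Polynomial.aeval_C, Polynomial.aeval_C, Polynomial.aeval_X, mul_comm]
    rfl
  have hQ0 : Q ≠ 0 := by
    intro h0
    have h1 := hev 0
    rw [h0, zero_smul, zero_add, UNB3_single h.hom] at h1
    simp only [Polynomial.eval_zero, one_pow, mul_one] at h1
    exact h.ne p ((map_eq_zero _).1 h1.symm)
  refine (((Polynomial.finite_setOfPred_isRoot hQ0).image fun u => u⁻¹).insert 0).subset ?_
  intro t ht
  by_cases h0 : t = 0
  · exact Or.inl h0
  · refine Or.inr ⟨t⁻¹, ?_, inv_inv t⟩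
    have h1 : (t⁻¹ • x + Pi.single p 1 : σ → k) = t⁻¹ • (x + Pi.single p t) := by
      rw [smul_add, ← Pi.single_smul, smul_eq_mul, inv_mul_cancel₀ h0]
    have h2 : aeval (x + Pi.single p t) f = 0 := by
      rw [← ht]
      rfl
    show Q.eval t⁻¹ = 0
    rw [hev, h1, UNB3_smul h.hom, h2, mul_zero]

/-- The vertices of a polygon. -/
def zz {n : ℕ} [DecidableEq σ] (p : Fin n → σ) (κ : L) (τ : Fin n → L) (j : Fin n) : σ → L :=
  ∑ i, Pi.single (p i) (if i < j then κ * τ i else τ i)

omit [Fintype σ] in
theorem UNB3_sum [DecidableEq σ] {n : ℕ} {p : Fin n → σ} (hp : Function.Injective p)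
    (c : Fin n → L) (i : Fin n) : (∑ j, Pi.single (p j) (c j) : σ → L) (p i) = c i := by
  rw [Finset.sum_apply, Finset.sum_eq_single i]
  · simp
  · intro j _ hj
    exact Pi.single_eq_of_ne (fun h => hj (hp h).symm) _
  · simp

theorem zlin [DecidableEq σ] {n : ℕ} {p : Fin n → σ} (hp : Function.Injective p) {κ : L}
    (hκ : κ ≠ 1) (τ : Fin n → L) : LinearIndependent L fun j : {j // τ j ≠ 0} => zz p κ τ j := by
  classical
  rw [Fintype.linearIndependent_iff]
  intro l hl
  have h1 : ∀ i : {j // τ j ≠ 0}, ∑ j : {j // τ j ≠ 0}, l j * (if i < j then κ else 1) = 0 := by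
    intro i
    have h2 := congrFun hl (p i)
    rw [Finset.sum_apply] at h2
    have h3 : (∑ j : {j // τ j ≠ 0}, l j * (if i < j then κ else 1)) * τ i = 0 := by
      rw [Finset.sum_mul]
      refine Eq.trans (Finset.sum_congr rfl fun j _ => ?_) h2
      rw [Pi.smul_apply, zz, UNB3_sum hp, smul_eq_mul]
      by_cases hij : i < j
      · rw [if_pos hij, if_pos (show (i : Fin n) < j from hij)]
        ring
      · rw [if_neg hij, if_neg (show ¬ (i : Fin n) < j from hij)]
        ring
    exact (mul_eq_zero.1 h3).resolve_right i.2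
  intro i₀
  have hT : ∑ j, l j = 0 := by
    obtain ⟨i, -, hi⟩ := Finset.exists_max_image Finset.univ (fun j : {j // τ j ≠ 0} => j)
      ⟨i₀, Finset.mem_univ _⟩
    refine Eq.trans (Finset.sum_congr rfl fun j _ => ?_) (h1 i)
    rw [if_neg (not_lt.2 (hi j (Finset.mem_univ _))), mul_one]
  have hA : ∀ i : {j // τ j ≠ 0}, ∑ j, (if i < j then 0 else l j) = 0 := by
    intro i
    have h2 : (1 - κ) * ∑ j, (if i < j then 0 else l j) = 0 := by
      have h3 : (1 - κ) * ∑ j, (if i < j then 0 else l j) =
          ∑ j : {j // τ j ≠ 0}, l j * (if i < j then κ else 1) - κ * ∑ j, l j := by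
        rw [Finset.mul_sum, Finset.mul_sum, ← Finset.sum_sub_distrib]
        refine Finset.sum_congr rfl fun j _ => ?_
        split_ifs <;> ring
      rw [h3, h1 i, hT]
      ring
    exact (mul_eq_zero.1 h2).resolve_left (sub_ne_zero.2 hκ.symm)
  induction i₀ using WellFoundedLT.induction with
  | ind i ih =>
    refine Eq.trans ?_ (hA i)
    rw [Finset.sum_eq_single i]
    · simp
    · intro j _ hj
      rcases lt_or_gt_of_ne hj with h | h
      · rw [ih j h]
        simp
      · rw [if_pos h]
    · simp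

theorem UNB3_form {N : Type} [Fintype N] [DecidableEq N] {z : N → σ → L}
    (hz : LinearIndependent L z) (j : N) :
    ∃ w : MvPolynomial σ L, w.IsHomogeneous 1 ∧ ∀ j', aeval (z j') w = if j' = j then 1 else 0 := by
  classical
  obtain ⟨G, hG⟩ := LinearMap.exists_leftInverse_of_injective (Fintype.linearCombination L z)
    (LinearMap.ker_eq_bot.2 hz.fintypeLinearCombination_injective)
  set ψ : (σ → L) →ₗ[L] L := (LinearMap.proj j).comp G with hψ
  refine ⟨∑ s, C (ψ fun t => if s = t then 1 else 0) * X s, ?_, fun j' => ?_⟩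
  · refine IsHomogeneous.sum _ _ _ fun s _ => ?_
    simpa using (isHomogeneous_C σ _).mul (isHomogeneous_X L s)
  · have h1 : ψ (z j') = if j' = j then 1 else 0 := by
      have h2 : z j' = Fintype.linearCombination L z (Pi.single j' 1) := by
        simp
      have h3 := LinearMap.congr_fun hG (Pi.single j' 1)
      rw [LinearMap.comp_apply, ← h2] at h3
      rw [hψ, LinearMap.comp_apply, h3]
      simp [Pi.single_apply, eq_comm]
    rw [← h1, LinearMap.pi_apply_eq_sum_univ ψ (z j'), map_sum]
    refine Finset.sum_congr rfl fun s _ => ?_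
    simp [mul_comm]

omit [Fintype σ] in
theorem UNB3_zz_smul [DecidableEq σ] {n : ℕ} (p : Fin n → σ) (κ c : L) (τ : Fin n → L)
    (j : Fin n) : zz p κ (c • τ) j = c • zz p κ τ j := by
  rw [zz, zz, Finset.smul_sum]
  refine Finset.sum_congr rfl fun i _ => ?_
  rw [← Pi.single_smul]
  congr 1
  simp only [Pi.smul_apply, smul_eq_mul]
  split_ifs <;> ring

theorem UNB3_zrk [DecidableEq σ] (h : GF f e) (he : 0 < e) {n : ℕ} {p : Fin n → σ}
    (hp : Function.Injective p) {κ : L} (hκ : κ ≠ 1) {τ : Fin n → L} {i₀ : Fin n} (hτ : τ i₀ = 1)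
    (hf : ∀ j, aeval (zz p κ τ j) f = 0) :
    rk k {y | ∃ j s t, y = zz p κ τ j s / zz p κ τ j t} = 0 := by
  classical
  set g : {j // τ j ≠ 0} → L := fun j => if (j : Fin n) = i₀ then κ else τ j with hg
  have hk : κ ∈ range g := ⟨⟨i₀, by rw [hτ]; exact one_ne_zero⟩, by simp [hg]⟩
  have hmem : ∀ K : Subfield L, range g ⊆ K → ∀ j s, zz p κ τ j s ∈ K := by
    intro K hK j s
    have ht : ∀ i, τ i ∈ K := by
      intro i
      by_cases h0 : τ i = 0
      · rw [h0]; exact K.zero_mem
      · by_cases h1 : i = i₀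
        · rw [h1, hτ]; exact K.one_mem
        · exact hK ⟨⟨i, h0⟩, by simp [hg, h1]⟩
    rw [zz, Finset.sum_apply]
    refine K.sum_mem fun i _ => ?_
    rw [Pi.single_apply]
    split_ifs
    · exact K.mul_mem (hK hk) (ht i)
    · exact ht i
    · exact K.zero_mem
  have key := genf (N := {j // τ j ≠ 0}) h g (fun j => (aeval (zz p κ τ j)).toLinearMap) ?_ ?_ ?_
  · rw [Nat.card_eq_fintype_card] at key
    have h0 : rk k (range g) = 0 := by
      have h1 : (Fintype.card {j // τ j ≠ 0} : ℕ∞) + rk k (range g) ≤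
          (Fintype.card {j // τ j ≠ 0} : ℕ∞) + 0 := by simpa using key
      exact le_zero_iff.1 ((ENat.add_le_add_iff_left (ENat.natCast_ne_top _)).1 h1)
    refine le_zero_iff.1 (h0 ▸ rk_le_of_mem ?_)
    rintro y ⟨j, s, t, rfl⟩
    have h2 := hmem (IntermediateField.adjoin k (range g)).toSubfield
      (IntermediateField.subset_adjoin k _) j
    exact div_mem (h2 s) (h2 t)
  · intro j m
    simp only [AlgHom.toLinearMap_apply, aeval_monomial, map_one, one_mul, Finsupp.prod]
    exact prod_mem fun s _ => pow_mem (hmem _ Subfield.subset_closure j s) _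
  · intro l hl
    funext j
    obtain ⟨w, hw, hw1⟩ := UNB3_form (zlin hp hκ τ) j
    have h1 := hl (w ^ e) (by simpa using hw.pow e)
    rw [Finset.sum_eq_single j] at h1
    · rw [AlgHom.toLinearMap_apply, map_pow, hw1, if_pos rfl, one_pow, mul_one] at h1
      exact h1
    · intro j' _ hj
      rw [AlgHom.toLinearMap_apply, map_pow, hw1, if_neg hj, zero_pow he.ne', mul_zero]
    · simp
  · intro j
    simp only [AlgHom.toLinearMap_apply]
    rw [aeval_map_algebraMap, hf]

theorem zrk [DecidableEq σ] (h : GF f e) (he : 0 < e) {n : ℕ} {p : Fin n → σ}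
    (hp : Function.Injective p) {κ : L} (hκ : κ ≠ 1) {τ : Fin n → L} (hτ : τ ≠ 0)
    (hf : ∀ j, aeval (zz p κ τ j) f = 0) :
    rk k {y | ∃ j s t, y = zz p κ τ j s / zz p κ τ j t} = 0 := by
  obtain ⟨i₀, hi⟩ := Function.ne_iff.1 hτ
  have hi0 : τ i₀ ≠ 0 := hi
  have key := UNB3_zrk h he hp hκ (τ := (τ i₀)⁻¹ • τ) (i₀ := i₀) (by simp [hi0]) (by
    intro j
    rw [UNB3_zz_smul, UNB3_smul h.hom, hf, mul_zero])
  rw [← key]
  congr 1
  ext y
  simp only [UNB3_zz_smul, Pi.smul_apply, smul_eq_mul, mul_div_mul_left _ _ (inv_ne_zero hi0)]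

theorem polygon' (h : GF f e) (he : 0 < e) {n : ℕ} (hc : Fintype.card σ ≤ n + 3)
    {p : Fin (n + 1) → σ} (hp : Function.Injective p) {x : Fin (n + 1) → σ → L}
    (hx : ∀ i, x i ≠ 0) (hf : ∀ i, aeval (x i) f = 0)
    (h1 : ∀ i, ∀ s ≠ p i, ∀ t ≠ p i, x i s * x (i + 1) t = x i t * x (i + 1) s)
    (h2 : ∀ i, (∀ s t, x i s * x (i + 1) t = x i t * x (i + 1) s) →
      aeval (x i) (pderiv (p i) f) = 0) :
    rk k {y | ∃ i s t, y = x i s / x i t} = 0 := by
  classical
  have hst : ∀ i, ∃ a ≠ (0 : L), ∃ t, x (i + 1) = a • x i + Pi.single (p i) t := fun i =>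
    step (h.off (hx i) (hf i) (p i)) (h.off (hx (i + 1)) (hf (i + 1)) (p i)) (h1 i)
  choose a ha t hat using hst
  by_cases ht : ∀ i, t i = 0
  · have hxa : ∀ i, x (i + 1) = a i • x i := by
      intro i
      rw [hat i, ht i]
      simp
    have hc0 : ∀ i, ∃ c ≠ (0 : L), x i = c • x 0 := by
      intro i
      induction i using Fin.induction with
      | zero => exact ⟨1, one_ne_zero, by simp⟩
      | succ i ih =>
        obtain ⟨c, hc1, hc2⟩ := ih
        refine ⟨a i.castSucc * c, mul_ne_zero (ha _) hc1, ?_⟩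
        rw [← Fin.coeSucc_eq_succ, hxa, hc2, smul_smul]
    have key := low' h he (hx 0) (Finset.univ.image p) ∅ (by simp) (hf 0) (by
      intro s hs
      obtain ⟨i, -, rfl⟩ := Finset.mem_image.1 hs
      have h3 := h2 i (by
        intro s t
        rw [hxa]
        simp only [Pi.smul_apply, smul_eq_mul]
        ring)
      obtain ⟨c, hc1, hc2⟩ := hc0 i
      rw [hc2, UNB3_smul h.hom.pderiv] at h3
      exact (mul_eq_zero.1 h3).resolve_left (pow_ne_zero _ hc1))
    replace key := key.trans (Nat.cast_le.2 hc)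
    rw [Finset.card_image_of_injective _ hp] at key
    have h0 : rk k {y | ∃ s t, y = x 0 s / x 0 t} = 0 := by
      have h4 : rk k {y | ∃ s t, y = x 0 s / x 0 t} + ((n + 3 : ℕ) : ℕ∞) ≤
          0 + ((n + 3 : ℕ) : ℕ∞) := by
        rw [zero_add]
        simpa [add_assoc] using key
      exact le_zero_iff.1 ((ENat.add_le_add_iff_right (ENat.natCast_ne_top _)).1 h4)
    refine le_zero_iff.1 (h0 ▸ rk_mono ?_)
    rintro y ⟨i, s, u, rfl⟩
    obtain ⟨c, hc1, hc2⟩ := hc0 i
    refine ⟨s, u, ?_⟩
    rw [hc2]
    simp only [Pi.smul_apply, smul_eq_mul, mul_div_mul_left _ _ hc1]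
  · push Not at ht
    obtain ⟨i₀, hi₀⟩ := ht
    set b : ℕ → L := fun j => ∏ i ∈ Finset.range j,
      (if hi : i < n + 1 then a ⟨i, hi⟩ else 1)⁻¹ with hb
    have hb0 : ∀ j, b j ≠ 0 := by
      intro j
      refine Finset.prod_ne_zero_iff.2 fun i _ => inv_ne_zero ?_
      split_ifs
      · exact ha _
      · exact one_ne_zero
    have hb1 : ∀ i : Fin (n + 1), b (i + 1) = b i * (a i)⁻¹ := by
      intro i
      simp only [hb]
      rw [Finset.prod_range_succ, dif_pos i.2]
    set τ : Fin (n + 1) → L := fun i => b (i + 1) * t i with hτ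
    set D : ℕ → σ → L := fun j => ∑ i, Pi.single (p i) (if (i : ℕ) < j then τ i else 0) with hD
    have hD1 : ∀ i : Fin (n + 1), D (i + 1) = D i + Pi.single (p i) (τ i) := by
      intro i
      have h5 : (Pi.single (p i) (τ i) : σ → L) =
          ∑ j, Pi.single (p j) (if j = i then τ j else 0) := by
        rw [Finset.sum_eq_single i]
        · simp
        · intro j _ hj
          simp [hj]
        · simp
      simp only [hD]
      rw [h5, ← Finset.sum_add_distrib]
      refine Finset.sum_congr rfl fun j _ => ?_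
      rw [← Pi.single_add]
      congr 1
      rcases lt_trichotomy (j : ℕ) i with hj | hj | hj
      · rw [if_pos hj, if_pos (by omega), if_neg (fun h => by rw [h] at hj; omega), add_zero]
      · rw [if_pos (by omega), if_neg (by omega), if_pos (Fin.ext hj), zero_add]
      · rw [if_neg (by omega), if_neg (by omega), if_neg (fun h => by rw [h] at hj; omega),
          add_zero]
    have hs : ∀ i : Fin (n + 1), b i • x i = x 0 + D i → b (i + 1) • x (i + 1) = x 0 + D (i + 1) := by
      intro i hi
      rw [hD1, ← add_assoc, ← hi, hat i, smul_add, smul_smul, ← Pi.single_smul, smul_eq_mul]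
      congr 2
      rw [hb1, mul_assoc, inv_mul_cancel₀ (ha i), mul_one]
    have hj : ∀ j : Fin (n + 1), b j • x j = x 0 + D j := by
      intro j
      induction j using Fin.induction with
      | zero => simp [hb, hD]
      | succ i ih =>
        have := hs _ ih
        rw [Fin.coeSucc_eq_succ] at this
        exact this
    have hl := hs _ (hj (Fin.last n))
    rw [Fin.last_add_one, Fin.val_last] at hl
    have hDl : D (n + 1) = ∑ i, Pi.single (p i) (τ i) := by
      simp only [hD]
      exact Finset.sum_congr rfl fun i _ => by rw [if_pos i.2]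
    have hτ0 : τ i₀ ≠ 0 := mul_ne_zero (hb0 _) hi₀
    have hκ : b (n + 1) ≠ 1 := by
      intro h6
      rw [h6, one_smul, hDl] at hl
      have h7 := congrFun hl (p i₀)
      rw [Pi.add_apply, UNB3_sum hp] at h7
      exact hτ0 (by linear_combination -h7)
    have hz : ∀ j : Fin (n + 1), zz p (b (n + 1)) τ j = ((b (n + 1) - 1) * b j) • x j := by
      intro j
      have h6 : (b (n + 1) - 1) • x 0 = ∑ i, Pi.single (p i) (τ i) := by
        rw [sub_smul, hl, hDl, one_smul]
        abel
      rw [mul_smul, hj, smul_add, h6, zz]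
      simp only [hD]
      rw [Finset.smul_sum, ← Finset.sum_add_distrib]
      refine Finset.sum_congr rfl fun i _ => ?_
      rw [← Pi.single_smul, ← Pi.single_add]
      congr 1
      by_cases hij : i < j
      · rw [if_pos hij, if_pos (show (i : ℕ) < j from hij), smul_eq_mul]
        ring
      · rw [if_neg hij, if_neg (show ¬ (i : ℕ) < j from hij)]
        simp
    have hne : ∀ j : Fin (n + 1), (b (n + 1) - 1) * b j ≠ 0 := fun j =>
      mul_ne_zero (sub_ne_zero.2 hκ) (hb0 _)
    have key := zrk h he hp hκ (τ := τ) (fun h0 => hτ0 (congrFun h0 i₀)) (by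
      intro j
      rw [hz, UNB3_smul h.hom, hf, mul_zero])
    rw [← key]
    congr 1
    ext y
    simp only [hz, Pi.smul_apply, smul_eq_mul, mul_div_mul_left _ _ (hne _)]

theorem polygon (h : GF f e) (he : 0 < e) {n : ℕ} (hc : n + 3 = Fintype.card σ)
    {p : Fin (n + 1) → σ} (hp : Function.Injective p) {x : Fin (n + 1) → σ → L}
    (hx : ∀ i, x i ≠ 0) (hf : ∀ i, aeval (x i) f = 0)
    (h1 : ∀ i, ∀ s ≠ p i, ∀ t ≠ p i, x i s * x (i + 1) t = x i t * x (i + 1) s)
    (h2 : ∀ i, (∀ s t, x i s * x (i + 1) t = x i t * x (i + 1) s) →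
      aeval (x i) (pderiv (p i) f) = 0) :
    rk k {y | ∃ i s t, y = x i s / x i t} = 0 :=
  polygon' h he hc.ge hp hx hf h1 h2

end Pool.Agent.Work.MP_10f4af_ag
end
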