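import Pool.Agent.Work.MP_10f4af_ag.GL.Q1
import Pool.Agent.Work.MP_10f4af_ag.VG.H2
import Pool.Agent.Work.MP_10f4af_ag.UN.B3

-- merged part: Pool.Agent.Work.MP_10f4af_ag.GL.Q2
section
/-!
# The first Chow group, and the main theorem in projective space

Plan.  `chain_dim`: induction on `r` with `Sec.dim`.
`cls_div`: `w` does not vanish on `X` (otherwise `D = X.tp`).  By `cut_mem`, `eq_of_sdim_le`, `Sp_one`
the cycle `cut [w] (cS X.tp)` is `q • cS D`, and `0 < q` (`cut_cS`, `mult_pos`, `min_form`).  With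
`m = a' default` the forms `w` and `l ^ m` have the same degree (`form_iff`), `l ^ m` does not vanish
on `X` (`idl_prime`, `mem_idl`), `cut [l ^ m] (cS X.tp) = m • cut [l] (cS X.tp)` (`cut_mul`,
`cut_unit` for `m = 0`), and `pencil`, `gys_single` finish.
`CH_one`: unfold `VG`; `r ≠ 0` since `X.pts ≠ univ`; `chain_pts`, `chain_dim`, `sdim_le_card`,
`SV.sdim_tp`, `div_cut`, `cls_div`, `mem_CH`, `Sp_map`.
`hyp_ne`: `hW.hard` with `i = 0`, `j = X.dim` for the class of a point (`W.cy.cl_pt`, `W.cy.cl_dg`,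
`cyc_mem`, `sdim_pt`).
`inj_one`: `exists_form_deg`, `W2_cl_smul`.  `HG`: `HE`, `alg_univ`,
`Nat.card_eq_one_iff_unique`.
-/

open MvPolynomial Function

namespace Pool.Agent.Work.MP_10f4af_ag

open MP_ffcd14_ag hiding len vl cyc pl Weil idl_hmg mem_idl idl_prime idl_le_iff lin

universe u v w

variable {k : Type u} [Field k] {P : Amb} {X : SV k P}

theorem chain_dim {r : ℕ} {Y : ℕ → SV k P} {f : ℕ → MvPolynomial P.V k} {a : ℕ → P.ι →₀ ℕ}
    (h : ∀ j < r, Sec (Y j) (Y (j + 1)) (f j) (a j)) : (Y r).dim + r = (Y 0).dim := by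
  induction r with
  | zero => rfl
  | succ r ih =>
    have h1 := (h r r.lt_succ_self).dim
    have h2 := ih fun j hj => h j (hj.trans r.lt_succ_self)
    omega

variable [IsAlgClosed k]

theorem GLQ2_pow {V : Sub k P} {l : MvPolynomial P.V k} {a : P.ι →₀ ℕ} (hl : IsForm l a)
    (h0 : ¬ Van (V : Set (P.Pt k)) l) (m : ℕ) :
    ¬ Van (V : Set (P.Pt k)) (l ^ m) ∧ cut [l ^ m] (cS V) = (m : ℚ) • cut [l] (cS V) := by
  induction m with
  | zero =>
    have h1 : ∀ x : P.Pt k, ev x (l ^ 0) ≠ 0 := fun x => by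
      rw [pow_zero, ev, map_one]
      exact one_ne_zero
    obtain ⟨x, hx⟩ := V.isIrreducible.nonempty
    exact ⟨fun h => h1 x (h x hx), by
      rw [cut_unit (hl.pow 0) fun x _ => h1 x, Nat.cast_zero, zero_smul]⟩
  | succ m ih =>
    rw [pow_succ, cut_mul ih.1 h0, ih.2, Nat.cast_succ, add_smul, one_smul]
    exact ⟨fun h => (Van.mul (hl.pow m) hl h).elim ih.1 h0, rfl⟩

theorem cls_div [Unique P.ι] {D : Sub k P} (hd : sdim D + 1 = X.dim) {w : MvPolynomial P.V k}
    {a' : P.ι →₀ ℕ} (hw : IsForm w a') (h : ∀ x, x ∈ D ↔ x ∈ X.pts ∧ ev x w = 0)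
    {l : MvPolynomial P.V k} {a : P.ι →₀ ℕ} (hl : IsForm l a) (ha : a default = 1)
    (h0 : l ∉ idl X.pts) : cls X (cS D) ∈
      Submodule.span ℚ {cls X (gys (Ideal.span {l}) 1 (Finsupp.single (idl X.pts) 1))} := by
  have hX := X.sdim_tp
  have hw0 : ¬ Van (X.tp : Set (P.Pt k)) w := fun hv => by
    have := sdim_mono (U := X.tp) (Z := D) fun x hx => (h x).2 ⟨hx, hv x hx⟩
    omega
  have hf : Fm [w] := fun f hf => List.mem_singleton.1 hf ▸ ⟨_, hw⟩
  have h1 := Sp_one (T := D) (Sp_mono (fun T hT => eq_of_sdim_le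
    (fun x hx => (h x).2 ⟨hT.1 hx, hT.2.2 w (List.mem_singleton_self w) x hx⟩) (by
      have h2 : sdim T + 1 = sdim X.tp := hT.2.1
      omega)) (cut_mem hf X.tp))
  have h2 : 0 < cut [w] (cS X.tp) (idl (D : Set (P.Pt k))) := by
    rw [cut_cS]
    refine mult_pos hf ?_ (hd.trans hX.symm)
    rw [Ideal.ofList_singleton]
    exact (min_form hw hw0).2 ⟨fun x hx => ((h x).1 hx).1, fun x hx => ((h x).1 hx).2,
      hd.trans hX.symm⟩
  generalize cut [w] (cS X.tp) (idl (D : Set (P.Pt k))) = q at h1 h2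
  obtain ⟨h3, h4⟩ := GLQ2_pow (V := X.tp) hl (fun e => h0 ((mem_idl hl).2 e)) (a' default)
  have h5 : a' default • a = a' := Finsupp.ext fun i => by
    rw [Subsingleton.elim i default, Finsupp.smul_apply, ha, smul_eq_mul, mul_one]
  have h8 : IsForm (l ^ a' default) (a' default • a) := hl.pow _
  rw [h5] at h8
  have h6 := pencil (A := X.pts) (V := X.tp) subset_rfl hw h8 hw0 h3
  rw [h1, h4, ← gys_single hl] at h6
  have h7 := ((Rt X.pts).mkQ.map_sub _ _).symm.trans ((Submodule.Quotient.mk_eq_zero _).2 h6)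
  rw [sub_eq_zero, map_smul, map_smul] at h7
  refine Submodule.mem_span_singleton.2 ⟨q⁻¹ * (a' default : ℚ), ?_⟩
  rw [mul_smul]
  exact (inv_smul_eq_iff₀ h2.ne').2 h7.symm

theorem CH_one [Unique P.ι] (h : VG X) (hu : X.pts ≠ Set.univ) (hd : 3 ≤ X.dim)
    {l : MvPolynomial P.V k} {a : P.ι →₀ ℕ} (hl : IsForm l a) (ha : a default = 1)
    (h0 : l ∉ idl X.pts) : CH X 1 ≤
      Submodule.span ℚ {cls X (gys (Ideal.span {l}) 1 (Finsupp.single (idl X.pts) 1))} := by
  obtain ⟨r, Y, f, b, hY, rfl, hs, hai⟩ := h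
  have hr : r ≠ 0 := by
    rintro rfl
    exact hu hY
  have hc : r + 4 ≤ Nat.card P.V := by
    have h1 := sdim_le_card (Y 0).tp
    have h2 := chain_dim hs
    rw [SV.sdim_tp, Nat.card_unique] at h1
    omega
  intro x hx
  obtain ⟨c, hc', rfl⟩ := (mem_CH _).1 hx
  refine Sp_map _ _ (fun D hD => ?_) hc'
  obtain ⟨w, a', hw, hwD⟩ := div_cut hr (f := fun j : Fin r => f j) (a := fun j : Fin r => b j)
    (fun j => (hs j j.2).form) (fun j => (hs j j.2).pos) (chain_pts hY hs) hai hc hD.1 hD.2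
  exact cls_div hD.2 hw hwD hl ha h0

variable {K : Type v} [Field K] [CharZero K] {W : Weil.{u, v, w} k K}

omit [CharZero K] in
theorem hyp_ne (hW : W.Lef) (hd : 0 < X.dim) {l : MvPolynomial P.V k} {a : P.ι →₀ ℕ}
    (hl : IsForm l a) (ha : ∀ i, 0 < a i) (h0 : l ∉ idl X.pts) : W.hyp X l ≠ 0 := by
  intro e
  obtain ⟨p, hp⟩ := X.irr.nonempty
  have h1 : cyc X {p} ∈ CH X X.dim :=
    cyc_mem X (V := {p}) (Set.singleton_subset_iff.2 hp) (by rw [sdim_pt, zero_add])
  obtain ⟨y, -, hy⟩ := hW.hard X l a hl ha h0 0 X.dim (zero_add _) (W.cl X (cyc X {p}))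
    (by rw [zero_add]; exact W.cy.cl_dg X _ _ h1)
  have h2 := W.cy.cl_pt X p hp
  rw [hy, e, zero_pow hd.ne', zero_mul, (W.fn.pd X).2.1.map_zero] at h2
  exact zero_ne_one h2

theorem inj_one [Unique P.ι] (hW : W.Lef) (h : VG X) (hu : X.pts ≠ Set.univ) (hd : 3 ≤ X.dim) :
    Set.InjOn (W.cl X) (CH X 1) := by
  obtain ⟨l, hl, h0⟩ := exists_form_deg (Set.finite_singleton X.tp)
    (Finsupp.equivFunOnFinite.symm fun _ => 1)
  have h1 : l ∉ idl X.pts := fun e => h0 _ rfl ((mem_idl hl).1 e)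
  intro x hx y hy e
  obtain ⟨q, hq⟩ := Submodule.mem_span_singleton.1 (CH_one h hu hd hl rfl h1 (sub_mem hx hy))
  have h2 : (q : K) • W.hyp X l = 0 :=
    (W.W2_cl_smul X q _).symm.trans (by rw [hq, map_sub]; exact sub_eq_zero.2 e)
  have h3 := (smul_eq_zero.1 h2).resolve_right (hyp_ne hW (by omega) hl (fun _ => Nat.one_pos) h1)
  rw [Rat.cast_eq_zero.1 h3, zero_smul] at hq
  exact sub_eq_zero.1 hq.symm

theorem HG (hW : W.Lef) (hP : Nat.card P.ι = 1) (h : VG X) (hA : W.Alg X ≠ ⊤) :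
    (∀ i m, Indep W X (Fil X i m)) ↔
      ∀ i, 1 < i → 2 * i < X.dim → Set.InjOn (W.cl X) (CH X i) := by
  obtain ⟨h1, ⟨i₀⟩⟩ := Nat.card_eq_one_iff_unique.1 hP
  have : Unique P.ι := uniqueOfSubsingleton i₀
  rw [HE hW h hA]
  refine ⟨fun H i hi => H i (by omega), fun H i hi h2 => ?_⟩
  obtain rfl | hi' : i = 1 ∨ 1 < i := by omega
  · exact inj_one hW h (fun e => hA (alg_univ W e)) (by omega)
  · exact H i hi' h2

end Pool.Agent.Work.MP_10f4af_ag
end

-- merged part: Pool.Agent.Work.MP_10f4af_ag.UN.A0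
section
/-!
# Divisor classes

Plan.  `exists_dvc`: take `g₀` from `exists_form_deg` for `{Z.tp}`, `cut_mem` shows that the class
is in `TC`, `pencil` compares `g` and `g₀`.  `dvc_gr`: `mem_CH`, `cut_mem`, `SV.sdim_tp`.
`dvc_add`: `cut_mul`, `G3b_not_van_mul`.  `dvc_zero`: `g = 1`, `cut_unit`.
`dvc_mul`: if `c = 0` both sides vanish.  Otherwise `g` does not vanish on `Z`; `mul_comm`, `mul_mk`
(`prp_iff`: if `T ≤ V`, `T ≤ W` with `W` a component of `cut [g] (cS Z.tp)` then `g` vanishes on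
`T`, so `T < V`, `sdim_lt`), and for each component `V` (`F1_cmp`, `Sp_ext`) use `gys_single`,
`ip_gys` with `LG.single`, `R1_PV`, `ip_top`.
`dvc_list`: induction with `List.reverseRecOn`; `cut_append`; the components of
`cut (l.map g) (cS V)` are described by `cut_mem`, and `PL` for `j = l.length + 1` shows that the
last form does not vanish on them.  `PL_fin`: `s' = (s.toList.take j).toFinset`.
`cut_pos`: `cut_cS`, `mult_pos`, `min_iff`, `Fm.hmg`, `ofList_le_idl`, `eq_of_sdim_le`.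
`cut_nat`: `cut_rel`, `cut_not_rel`, `mult_eq`, `mult_nat`.
`cut_le_one`: `cut_cS`, `mult_le_one`, `G4_loc` (the ideal `idl T` is spanned by forms).
`cut_one`: `cut_mem`, `eq_of_sdim_le`, `Sp_one`, `mult_pos`, `cut_nat`, `cut_le_one`.
`pull_dvc`: `Mod.val_pull`, `Pd.pl_mk` for `M.pd_co M' f`, `cut_ex`, `Bij.ex_cS`, `Pd.tp`,
`Crd.form`, `Crd.van_img`, `Bij.img_xp`.  For `pull_inl`, `pull_inr` compute `ψ` by `Mod.crd_ψ`.
`gal_dvc`: `tC_mk`, `tw_cut`, `tw_cS`, `Stab.tp`, `mp_form`, `ev_pt`.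
-/

open MvPolynomial Finsupp Function Function.Embedding

namespace Pool.Agent.Work.MP_10f4af_ag

open MP_ffcd14_ag hiding len vl cyc pl Weil idl_hmg mem_idl idl_prime idl_le_iff lin

universe u

variable {k : Type u} [Field k] {P Q : Amb}

/-- The forms of the list cut `V` properly, one after the other. -/
def PL (l : List (MvPolynomial P.V k)) (V : Sub k P) : Prop :=
  ∀ j ≤ l.length, ∀ T ≤ V, (∀ g ∈ l.take j, Van (T : Set (P.Pt k)) g) → sdim T + j ≤ sdim V

theorem PL_fin {ι : Type} (s : Finset ι) (g : ι → MvPolynomial P.V k) {V : Sub k P}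
    (h : ∀ s' ⊆ s, ∀ T ≤ V, (∀ i ∈ s', Van (T : Set (P.Pt k)) (g i)) →
      sdim T + s'.card ≤ sdim V) : PL (s.toList.map g) V := by
  classical
  intro j hj T hT hv
  rw [List.length_map] at hj
  have h1 : (s.toList.take j).toFinset.card = j := by
    rw [List.toFinset_card_of_nodup (s.nodup_toList.sublist (List.take_sublist _ _)),
      List.length_take, min_eq_left hj]
  rw [← List.map_take] at hv
  have := h (s.toList.take j).toFinset
    (fun i hi => Finset.mem_toList.1 (List.mem_of_mem_take (List.mem_toFinset.1 hi))) T hT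
    fun i hi => hv _ (List.mem_map_of_mem (List.mem_toFinset.1 hi))
  omega

theorem cut_nat (fs : List (MvPolynomial P.V k)) (V : Sub k P) (q : Ideal (MvPolynomial P.V k)) :
    ∃ n : ℕ, cut fs (cS V) q = n := by
  by_cases h : Rel q
  · rw [cut_rel _ _ h, cS, ← mult_eq]
    exact mult_nat _ _ _
  · exact ⟨0, by rw [cut_not_rel _ _ h, Nat.cast_zero]⟩

variable [IsAlgClosed k] {Z : SV k P} {V T : Sub k P} {fs : List (MvPolynomial P.V k)}

theorem PL_one {f : MvPolynomial P.V k} (h : ¬ Van (V : Set (P.Pt k)) f) : PL [f] V := by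
  intro j hj T hT hv
  obtain rfl | rfl : j = 0 ∨ j = 1 := by
    rw [List.length_singleton] at hj
    omega
  · exact sdim_mono hT
  · exact sdim_lt (hT.lt_of_ne fun e => h (e ▸ hv f List.mem_cons_self))

theorem PL_two {f g : MvPolynomial P.V k} (h : ¬ Van (V : Set (P.Pt k)) f)
    (h' : ∀ T ≤ V, Van (T : Set (P.Pt k)) f → Van (T : Set (P.Pt k)) g → sdim T + 2 ≤ sdim V) :
    PL [f, g] V := by
  intro j hj T hT hv
  obtain rfl | rfl | rfl : j = 0 ∨ j = 1 ∨ j = 2 := by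
    have : j ≤ 2 := hj
    omega
  · exact sdim_mono hT
  · exact sdim_lt (hT.lt_of_ne fun e => h (e ▸ hv f List.mem_cons_self))
  · exact h' T hT (hv f List.mem_cons_self) (hv g (List.mem_cons_of_mem _ List.mem_cons_self))

theorem cut_pos (hf : Fm fs) (h : PL fs V) (hT : T ≤ V)
    (hv : ∀ g ∈ fs, Van (T : Set (P.Pt k)) g) (hd : sdim T + fs.length = sdim V) :
    0 < cut fs (cS V) (idl (T : Set (P.Pt k))) := by
  rw [cut_cS]
  refine mult_pos hf ((min_iff hf.hmg).2 ⟨hT, (ofList_le_idl hf).2 hv, fun U h1 h2 h3 => ?_⟩) hd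
  have := h fs.length le_rfl U h2 fun g hg => (ofList_le_idl hf).1 h3 g (List.mem_of_mem_take hg)
  exact (eq_of_sdim_le h1 (by omega)).symm

theorem cut_le_one (hf : Fm fs) (hT : T ≤ V) (hv : ∀ g ∈ fs, Van (T : Set (P.Pt k)) g)
    (hl : ∀ g a, IsForm g a → Van (T : Set (P.Pt k)) g →
      ∃ s ∉ idl (T : Set (P.Pt k)), s * g ∈ idl (V : Set (P.Pt k)) ⊔ Ideal.ofList fs) :
    cut fs (cS V) (idl (T : Set (P.Pt k))) ≤ 1 := by
  rw [cut_cS]
  obtain ⟨s, hs, h⟩ := G4_loc (q := idl (T : Set (P.Pt k)))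
    (H := idl (V : Set (P.Pt k)) ⊔ Ideal.ofList fs)
    (B := {f | (∃ a, IsForm f a) ∧ ∀ x ∈ (T : Set (P.Pt k)), ev x f = 0})
    fun g hg => hg.1.elim fun a ha => hl g a ha hg.2
  exact mult_le_one (sup_le (idl_le_iff.2 hT) ((ofList_le_idl hf).2 hv)) hs h

theorem cut_one (hf : Fm fs) (hT : T ≤ V) (hv : ∀ g ∈ fs, Van (T : Set (P.Pt k)) g)
    (hd : sdim T + fs.length = sdim V)
    (hu : ∀ U ≤ V, (∀ g ∈ fs, Van (U : Set (P.Pt k)) g) → U ≤ T)
    (hl : ∀ g a, IsForm g a → Van (T : Set (P.Pt k)) g →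
      ∃ s ∉ idl (T : Set (P.Pt k)), s * g ∈ idl (V : Set (P.Pt k)) ⊔ Ideal.ofList fs) :
    cut fs (cS V) = cS T := by
  have h1 : cut fs (cS V) ∈ Sp fun U => U = T := Sp_mono (fun U hU =>
    eq_of_sdim_le (hu U hU.1 hU.2.2) (by have := hU.2.1; omega)) (cut_mem hf V)
  have h2 : 0 < cut fs (cS V) (idl (T : Set (P.Pt k))) := by
    rw [cut_cS]
    exact mult_pos hf ((min_iff hf.hmg).2 ⟨hT, (ofList_le_idl hf).2 hv, fun U h1 h2 h3 =>
      le_antisymm (hu U h2 ((ofList_le_idl hf).1 h3)) h1⟩) hd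
  have h3 := cut_le_one hf hT hv hl
  obtain ⟨n, hn⟩ := cut_nat fs V (idl (T : Set (P.Pt k)))
  rw [hn] at h2 h3
  have h4 : n = 1 := by
    have h5 : 0 < n := by exact_mod_cast h2
    have h6 : n ≤ 1 := by exact_mod_cast h3
    omega
  rw [Sp_one h1, hn, h4, Nat.cast_one, one_smul]

theorem UNA0_ex (Z : SV k P) (a : P.ι →₀ ℕ) : ∃ g, IsForm g a ∧ ¬ Van Z.pts g :=
  (exists_form_deg (F := {Z.tp}) (Set.finite_singleton _) a).imp fun _ h => ⟨h.1, h.2 _ rfl⟩

theorem UNA0_za {g : MvPolynomial P.V k} {a : P.ι →₀ ℕ} (hg : IsForm g a) :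
    cut [g] (cS Z.tp) ∈ ZA Z.pts :=
  F1_za.2 (Sp_mono (fun _ hT => hT.1) (cut_mem (R1_fm hg) Z.tp))

theorem exists_dvc (Z : SV k P) (a : P.ι →₀ ℕ) : ∃ u : CR Z, ∀ g, IsForm g a → ¬ Van Z.pts g →
    CR.val Z u = cls Z (cut [g] (cS Z.tp)) := by
  obtain ⟨g₀, h0, h1⟩ := UNA0_ex Z a
  exact ⟨CR.mk (cls Z (cut [g₀] (cS Z.tp))) ⟨_, UNA0_za h0, rfl⟩, fun g hg h =>
    (Submodule.Quotient.eq _).2 (pencil (A := Z.pts) (V := Z.tp) subset_rfl h0 hg h1 h)⟩

/-- The class of the divisor of a form of degree `a`. -/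
noncomputable def dvc (Z : SV k P) (a : P.ι →₀ ℕ) : CR Z := (exists_dvc Z a).choose

theorem val_dvc {g : MvPolynomial P.V k} {a : P.ι →₀ ℕ} (hg : IsForm g a) (h : ¬ Van Z.pts g) :
    CR.val Z (dvc Z a) = cls Z (cut [g] (cS Z.tp)) := (exists_dvc Z a).choose_spec g hg h

theorem dvc_gr (Z : SV k P) (a : P.ι →₀ ℕ) : dvc Z a ∈ CR.gr Z 1 := by
  obtain ⟨g, h0, h1⟩ := UNA0_ex Z a
  refine (mem_CH Z).2 ⟨_, Sp_mono (fun T hT => ⟨hT.1, ?_⟩) (cut_mem (R1_fm h0) Z.tp),
    (val_dvc h0 h1).symm⟩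
  exact hT.2.1.trans Z.sdim_tp

theorem dvc_add (Z : SV k P) (a b : P.ι →₀ ℕ) : dvc Z (a + b) = dvc Z a + dvc Z b := by
  obtain ⟨f, h0, h1⟩ := UNA0_ex Z a
  obtain ⟨g, h2, h3⟩ := UNA0_ex Z b
  refine CR.ext ?_
  rw [map_add, val_dvc h0 h1, val_dvc h2 h3,
    val_dvc (h0.mul h2) (G3b_not_van_mul (T := Z.tp) h0 h2 h1 h3), cut_mul (V := Z.tp) h1 h3]
  exact map_add _ _ _

theorem dvc_zero (Z : SV k P) : dvc Z 0 = 0 := by
  have h := dvc_add Z 0 0
  rw [add_zero] at h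
  exact left_eq_add.1 h

theorem dvc_single (Z : SV k P) (i : P.ι) (n : ℕ) :
    dvc Z (single i n) = (n : ℚ) • dvc Z (single i 1) := by
  induction n with
  | zero => rw [single_zero, dvc_zero, Nat.cast_zero, zero_smul]
  | succ n ih => rw [single_add, dvc_add, ih, Nat.cast_succ, add_smul, one_smul]

theorem dvc_mul {u : CR Z} {c : Cyc k P} (hc : c ∈ ZA Z.pts) (hu : CR.val Z u = cls Z c)
    {g : MvPolynomial P.V k} {a : P.ι →₀ ℕ} (hg : IsForm g a)
    (h : ∀ V : Sub k P, c (idl (V : Set (P.Pt k))) ≠ 0 → ¬ Van (V : Set (P.Pt k)) g) :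
    CR.val Z (dvc Z a * u) = cls Z (cut [g] c) := by
  by_cases h0 : c = 0
  · have h1 : u = 0 := CR.ext (by rw [hu, h0, map_zero, cls, map_zero])
    rw [h1, h0, mul_zero, map_zero, map_zero, cls, map_zero]
  have hZ : ¬ Van Z.pts g := fun hZ => h0 (Sp_bot (Sp_mono
    (fun V hV => h V hV.2 fun x hx => hZ x (hV.1 hx)) (F1_cmp hc)))
  have hp : Prp Z.dim c (cut [g] (cS Z.tp)) := prp_iff.2 fun V W hV hW T h1 h2 => by
    obtain ⟨-, h3, h4⟩ := Sp_of (cut_mem (R1_fm hg) Z.tp) hW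
    have h5 := sdim_lt (h1.lt_of_ne fun e => h V hV (e ▸ Gc_van h2 (h4 g List.mem_cons_self)))
    rw [Z.sdim_tp, List.length_singleton] at h3
    omega
  have h1 := Sp_ext ((ip Z.dim).flip (cut [g] (cS Z.tp))) (cut [g]) (fun V hV => by
    rw [LinearMap.flip_apply, ← gys_single hg, ip_gys Z (W := Z.tp) hV.1 subset_rfl (Pp_top Z V)
      (LG.single hg) (R1_PV hg hZ) fun T h1 _ h3 => ?_, ip_top Z hV.1, gys_single hg]
    have := R1_PV hg (h V hV.2) T h1 h3
    rw [Z.sdim_tp]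
    omega) (F1_cmp hc)
  rw [LinearMap.flip_apply] at h1
  rw [mul_comm, CR.val_mul, hu, val_dvc hg hZ, cls, cls, mul_mk Z hc (UNA0_za hg) hp, h1, cls]

theorem dvc_list {ι : Type} (l : List ι) {g : ι → MvPolynomial P.V k} {a : ι → P.ι →₀ ℕ}
    (hg : ∀ i ∈ l, IsForm (g i) (a i)) (hV : (V : Set (P.Pt k)) ⊆ Z.pts) (h : PL (l.map g) V)
    {u : CR Z} (hu : CR.val Z u = cls Z (cS V)) :
    CR.val Z ((l.map fun i => dvc Z (a i)).prod * u) = cls Z (cut (l.map g) (cS V)) := by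
  induction l using List.reverseRecOn with
  | nil => rw [List.map_nil, List.map_nil, List.prod_nil, one_mul, cut_nil, hu]
  | append_singleton l i ih =>
    have hg' : ∀ j ∈ l, IsForm (g j) (a j) := fun j hj => hg j (List.mem_append_left _ hj)
    rw [List.map_append, List.map_singleton] at h
    have h1 : PL (l.map g) V := fun j hj T hT hv => h j
      (by rw [List.length_append]; omega) T hT (by rwa [List.take_append_of_le_length hj])
    have hf : Fm (l.map g) := fun f hf => by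
      obtain ⟨j, hj, rfl⟩ := List.mem_map.1 hf
      exact ⟨_, hg' j hj⟩
    have h2 := cut_mem hf V
    rw [List.map_append, List.map_append, List.map_singleton, List.map_singleton, List.prod_append,
      List.prod_singleton, cut_append, mul_comm _ (dvc Z (a i)), mul_assoc]
    refine dvc_mul (F1_za.2 (Sp_mono (fun T hT => Set.Subset.trans hT.1 hV) h2)) (ih hg' h1)
      (hg i (List.mem_append_right _ List.mem_cons_self)) fun W hW hv => ?_
    obtain ⟨w1, w2, w3⟩ := Sp_of h2 hW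
    have := h _ le_rfl W w1 fun f hf => by
      rcases List.mem_append.1 (List.mem_of_mem_take hf) with h3 | h3
      · exact w3 f h3
      · exact List.mem_singleton.1 h3 ▸ hv
    rw [List.length_append, List.length_singleton] at this
    omega

theorem dvc_fin {ι : Type} (s : Finset ι) {g : ι → MvPolynomial P.V k} {a : ι → P.ι →₀ ℕ}
    (hg : ∀ i ∈ s, IsForm (g i) (a i)) (hV : (V : Set (P.Pt k)) ⊆ Z.pts)
    (h : PL (s.toList.map g) V) {u : CR Z} (hu : CR.val Z u = cls Z (cS V)) :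
    CR.val Z ((∏ i ∈ s, dvc Z (a i)) * u) = cls Z (cut (s.toList.map g) (cS V)) := by
  rw [← Finset.prod_map_toList]
  exact dvc_list s.toList (fun i hi => hg i (Finset.mem_toList.1 hi)) hV h hu

theorem dvc_two {f g : MvPolynomial P.V k} {a b : P.ι →₀ ℕ} (hf : IsForm f a) (hg : IsForm g b)
    (hV : (V : Set (P.Pt k)) ⊆ Z.pts) (h : PL [f, g] V) {u : CR Z}
    (hu : CR.val Z u = cls Z (cS V)) :
    CR.val Z (dvc Z a * dvc Z b * u) = cls Z (cut [f, g] (cS V)) := by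
  have := dvc_list [true, false] (g := fun c => cond c f g) (a := fun c => cond c a b)
    (fun c _ => by cases c; exacts [hg, hf]) hV h hu
  simpa only [List.map_cons, List.map_nil, List.prod_cons, List.prod_nil, mul_one, cond_true,
    cond_false] using this

theorem pull_dvc {X : SV k P} {T T' : Type} (M : Mod X T) (M' : Mod X T') (f : T ↪ T')
    (a : M.S.ι →₀ ℕ) : M.pull M' f (dvc M.Z a) = dvc M'.Z (a.mapDomain (M.crd M' f).ψ) := by
  obtain ⟨g, h0, h1⟩ := UNA0_ex M.Z a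
  have h := M.pd_co M' f
  have h2 : ¬ Van M'.Z.pts (rename (M.crd M' f).ε g) := fun hv => h1 (by
    have := ((M.crd M' f).van_img (Z := M'.Z.tp) h0).2 hv
    rwa [h.tp, h.bij.img_xp] at this)
  refine CR.ext ?_
  rw [Mod.val_pull, val_dvc h0 h1, cls, h.pl_mk (UNA0_za h0), ← cut_ex h.bij (R1_fm h0),
    h.bij.ex_cS, ← h.tp, val_dvc ((M.crd M' f).form h0) h2]
  rfl

/-- The square. -/
noncomputable abbrev M2 (X : SV k P) : Mod X (Unit ⊕ Unit) := (Mod.one X).prod (Mod.one X)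

theorem pull_inl (X : SV k P) (i : P.ι) :
    (Mod.one X).pull (M2 X) inl (dvc X (single i 1)) =
      dvc (X.prod X) (single (Sum.inl i) 1) := by
  refine (pull_dvc (Mod.one X) (M2 X) inl (single i 1)).trans (congrArg (dvc (X.prod X)) ?_)
  exact mapDomain_single.trans
    (congrArg (fun j => single j 1) ((Mod.one X).crd_ψ (M2 X) inl () i))

theorem pull_inr (X : SV k P) (i : P.ι) :
    (Mod.one X).pull (M2 X) inr (dvc X (single i 1)) =
      dvc (X.prod X) (single (Sum.inr i) 1) := by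
  refine (pull_dvc (Mod.one X) (M2 X) inr (single i 1)).trans (congrArg (dvc (X.prod X)) ?_)
  exact mapDomain_single.trans
    (congrArg (fun j => single j 1) ((Mod.one X).crd_ψ (M2 X) inr () i))

theorem gal_dvc {σ : k ≃+* k} (h : Stab σ Z.pts) (a : P.ι →₀ ℕ) :
    CR.gal h (dvc Z a) = dvc Z a := by
  obtain ⟨g, h0, h1⟩ := UNA0_ex Z a
  refine CR.ext (Eq.trans ?_ (val_dvc (mp_form σ h0) fun hv => h1 fun x hx =>
    (ev_pt σ x h0).1 (hv _ ((h x).2 hx))).symm)
  rw [CR.val_gal, val_dvc h0 h1, cls, tC_mk, ← tw_cut, tw_cS, h.tp]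
  rfl

/-- The hyperplane class. -/
noncomputable def hh [Unique P.ι] (Z : SV k P) : CR (Mod.one Z).Z := dvc Z (single default 1)

/-- The hyperplane class of the first factor. -/
noncomputable def hx [Unique P.ι] (Z : SV k P) : CR (M2 Z).Z :=
  dvc (Z.prod Z) (single (Sum.inl default) 1)

/-- The hyperplane class of the second factor. -/
noncomputable def hy [Unique P.ι] (Z : SV k P) : CR (M2 Z).Z :=
  dvc (Z.prod Z) (single (Sum.inr default) 1)

theorem pull_hx [Unique P.ι] (Z : SV k P) : (Mod.one Z).pull (M2 Z) inl (hh Z) = hx Z :=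
  pull_inl Z default

theorem pull_hy [Unique P.ι] (Z : SV k P) : (Mod.one Z).pull (M2 Z) inr (hh Z) = hy Z :=
  pull_inr Z default

theorem un_hh [Unique P.ι] (Z : SV k P) (i j : ℕ) :
    Cor.un (Mod.one Z) (Cor.xx (Mod.one Z) (hh Z ^ i) (hh Z ^ j)) = hx Z ^ i * hy Z ^ j := by
  rw [Cor.un_xx, map_pow, map_pow, pull_hx, pull_hy]

theorem pow_gr {u : CR Z} (h : u ∈ CR.gr Z 1) (n : ℕ) : u ^ n ∈ CR.gr Z n := by
  induction n with
  | zero => exact CR.one_gr
  | succ n ih =>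
    rw [pow_succ]
    exact CR.mul_gr ih h

end Pool.Agent.Work.MP_10f4af_ag
end

-- merged part: Pool.Agent.Work.MP_10f4af_ag.UN.A1
section
/-!
# Degrees, push-forward along an inclusion, dimension bounds

Plan.  `dgr_eq`: `F1_pts` or `Sp_ext`; a subvariety of dimension zero is a point
(`eq_pt_of_sdim`), `dgr_pt`, `Mod.dgL`, `G1_TC`, `CR.ext`.
`dgr_one`: `CR.ind`; for `u ∈ CR.gr _ i` use `dgr_gr` if `i ≠ dim` and `mem_CH`, `dgr_eq` twice
otherwise.  `CR.inc`: `Submodule.mapQ` with `Rt_mono`; `TC` is the image of `ZA`.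
`inc_dvc`: write `CR.val A u = cls A c` with `c ∈ ZA A.pts` (`CR.mem`), choose `g` by
`exists_form_deg` for `finite_comp c`, and use `dvc_mul` on `A` and on `B`, `val_inc`.
`dgr_inc`: `CR.ind`, `mem_CH`; the components of the representative have dimension `A.dim - i`.
If it is zero use `dgr_eq` twice; otherwise `dgr_gr` twice (`SV.sdim_tp`, `sdim_mono` give
`sdim V ≤ B.dim`; the case `A.dim < i` is `CR.gr_gt`).
`dgr_xy`: `Mod.dl` is `Mod.dg` of `Sum.elim id id`; `Mod.mul_dg` replaces `inr` by `inl`, then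
`map_mul`, `Mod.push_pull_mul`, `Mod.push_dg`, `dgr_push`.
`dgr_xx`: `dgr_push` along `inr`, `Mod.push_pull_mul`, `Mod.pull_push0`, `Mod.push_dgr`.
`sdim_le_of_fin`: `fib_low`, `infinite_of_sdim`.
`lin_dim`: `Noeth.mono_not_van`, `exists_gen`, `IsGen.rk_rat`, `rk_rat_norm`; the coordinates are
`0` on `U` and `1` at `⟨i, ς i⟩`, so `rk_le_of_mem` and `rk_le_encard` for the image of the set of
the other coordinates.  `univ_dim`: compare with `Var.full` (`Var.sdim_top`, see `exists_line`),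
`sdim_le_card`.  `exists_inter`: `LG.dia`, `LG.gen'` at the point of the diagonal over `z`
(`Bij.exists_pt`), `krull_list` on `bij_sum.xp V W`; the element `s` of `Gen` is not in the ideal
of the subvariety `U'` which is found, so `dI ≤ idl U'`; `dI_le_iff`, `sdim_img_of_inj`,
`Bij.sdim_xp`, `Bij.ext`; take the image under `Crd.inl`.
-/

open MvPolynomial Finsupp Function Function.Embedding

namespace Pool.Agent.Work.MP_10f4af_ag

open MP_ffcd14_ag hiding len vl cyc pl Weil idl_hmg mem_idl idl_prime idl_le_iff lin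

universe u

variable {k : Type u} [Field k] {P S : Amb}

/-- The sum of the coefficients. -/
noncomputable def smc : Cyc k P →ₗ[ℚ] ℚ := Finsupp.linearCombination ℚ fun _ => 1

theorem UNA1_smc (V : Sub k P) : smc (cS V) = 1 := by
  rw [smc, cS, Finsupp.linearCombination_single, smul_eq_mul, mul_one]

variable [IsAlgClosed k] {X A B : SV k P} {T : Type}

theorem dgr_eq (M : Mod X T) {u : CR M.Z} {c : Cyc k M.S}
    (hc : c ∈ Sp fun V => (V : Set (M.S.Pt k)) ⊆ M.Z.pts ∧ sdim V = 0)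
    (hu : CR.val _ u = cls M.Z c) : M.dgr u = smc c := by
  obtain ⟨v, e⟩ := Sp_map ((Rt M.Z.pts).mkQ.prod smc)
    (LinearMap.range ((CR.val _).prod M.dgL)) (fun V hV => by
      obtain ⟨x, hx⟩ := V.isIrreducible.nonempty
      obtain rfl := eq_pt_of_sdim hV.2 hx
      exact ⟨CR.mk _ (G1_TC hV.1),
        Prod.ext rfl ((dgr_pt M (hV.1 hx) rfl).trans (UNA1_smc _).symm)⟩) hc
  obtain rfl : v = u := CR.ext ((congrArg Prod.fst e).trans hu.symm)
  exact congrArg Prod.snd e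

theorem dgr_one (M : Mod X T) (u : CR M.Z) : M.dgr u = (Mod.one M.Z).dgr u := by
  refine CR.ind (p := fun u => M.dgr u = (Mod.one M.Z).dgr u) (fun i u hu => ?_)
    (fun x y hx hy => ?_) u
  · by_cases h : i = M.Z.dim
    · obtain ⟨c, hc, e⟩ := (mem_CH _).1 hu
      have h1 := Sp_mono (c' := fun V => (V : Set (M.S.Pt k)) ⊆ M.Z.pts ∧ sdim V = 0)
        (fun V hV => ⟨hV.1, by have := hV.2; omega⟩) hc
      exact (dgr_eq M h1 e.symm).trans (dgr_eq (Mod.one M.Z) h1 e.symm).symm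
    · exact (dgr_gr M hu h).trans (dgr_gr (Mod.one M.Z) hu h).symm
  · exact ((dgr_linear M).1 x y).trans ((congrArg₂ (· + ·) hx hy).trans
      ((dgr_linear (Mod.one M.Z)).1 x y).symm)

theorem exists_inc (h : A.pts ⊆ B.pts) : ∃ φ : CR A →ₗ[ℚ] CR B, ∀ u c,
    CR.val A u = cls A c → CR.val B (φ u) = cls B c := by
  refine ⟨((Rt A.pts).mapQ (Rt B.pts) LinearMap.id (Rt_mono h)).restrict (p := TC A) (q := TC B)
    ?_, fun u c hu => ?_⟩
  · rintro _ ⟨c, hc, rfl⟩
    exact ⟨c, Sp_mono (fun V hV => Set.Subset.trans hV h) hc, rfl⟩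
  · change (Rt A.pts).mapQ (Rt B.pts) LinearMap.id (Rt_mono h) (CR.val A u) = _
    rw [hu]
    rfl

/-- Push-forward along an inclusion. -/
noncomputable def CR.inc (h : A.pts ⊆ B.pts) : CR A →ₗ[ℚ] CR B := (exists_inc h).choose

theorem val_inc (h : A.pts ⊆ B.pts) {u : CR A} {c : Cyc k P} (hu : CR.val A u = cls A c) :
    CR.val B (CR.inc h u) = cls B c := (exists_inc h).choose_spec u c hu

theorem inc_dvc (h : A.pts ⊆ B.pts) (a : P.ι →₀ ℕ) (u : CR A) :
    CR.inc h (dvc A a * u) = dvc B a * CR.inc h u := by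
  obtain ⟨c, hc, e⟩ := u.mem
  obtain ⟨g, hg, hv⟩ := exists_form_deg (finite_comp c) a
  exact CR.ext ((val_inc h (dvc_mul hc e.symm hg hv)).trans
    (dvc_mul (Sp_mono (fun V hV => Set.Subset.trans hV h) hc) (val_inc h e.symm) hg hv).symm)

theorem inc_pow (h : A.pts ⊆ B.pts) (a : P.ι →₀ ℕ) (n : ℕ) (u : CR A) :
    CR.inc h (dvc A a ^ n * u) = dvc B a ^ n * CR.inc h u := by
  induction n with
  | zero => rw [pow_zero, pow_zero, one_mul, one_mul]
  | succ n ih => rw [pow_succ', pow_succ', mul_assoc, mul_assoc, inc_dvc, ih]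

theorem dgr_inc (h : A.pts ⊆ B.pts) (u : CR A) :
    (Mod.one B).dgr (CR.inc h u) = (Mod.one A).dgr u := by
  refine CR.ind (p := fun u => (Mod.one B).dgr (CR.inc h u) = (Mod.one A).dgr u)
    (fun i u hu => ?_) (fun x y hx hy => ?_) u
  · obtain ⟨c, hc, e⟩ := (mem_CH _).1 hu
    have hd : A.dim ≤ B.dim := by
      rw [← A.sdim_tp, ← B.sdim_tp]
      exact sdim_mono h
    by_cases h1 : i = A.dim
    · have h2 := Sp_mono (c' := fun V => (V : Set (P.Pt k)) ⊆ A.pts ∧ sdim V = 0)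
        (fun V hV => ⟨hV.1, by have := hV.2; omega⟩) hc
      exact (dgr_eq (Mod.one B) (Sp_mono (fun V hV => ⟨hV.1.trans h, hV.2⟩) h2)
        (val_inc h e.symm)).trans (dgr_eq (Mod.one A) h2 e.symm).symm
    · refine (dgr_gr (Mod.one B) (i := i + (B.dim - A.dim)) ((mem_CH B).2 ⟨c, Sp_mono
        (fun V hV => ⟨hV.1.trans h, by have := hV.2; omega⟩) hc, (val_inc h e.symm).symm⟩)
        ?_).trans (dgr_gr (Mod.one A) hu h1).symm
      change _ ≠ B.dim
      omega
  · rw [map_add]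
    exact ((dgr_linear (Mod.one B)).1 _ _).trans ((congrArg₂ (· + ·) hx hy).trans
      ((dgr_linear (Mod.one A)).1 x y).symm)

theorem dgr_xy (M : Mod X T) (a b : CR M.Z) :
    (M.prod M).dgr (M.dl * (M.pull (M.prod M) inl a * M.pull (M.prod M) inr b)) =
      M.dgr (a * b) := by
  rw [mul_comm, mul_assoc, Mod.dl, Mod.mul_dg _ _ inr inl (fun _ => rfl) fun _ => rfl,
    ← mul_assoc, ← map_mul, ← dgr_push M _ inl, Mod.push_pull_mul,
    Mod.push_dg _ _ _ fun _ => rfl, mul_one]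

theorem dgr_xx (M : Mod X T) (a b : CR M.Z) :
    (M.prod M).dgr (M.pull (M.prod M) inl a * M.pull (M.prod M) inr b) =
      M.dgr a * M.dgr b := by
  rw [← dgr_push M _ inr, mul_comm, Mod.push_pull_mul, Mod.pull_push0, Mod.push_dgr, map_smul,
    map_one, mul_smul_comm, mul_one]
  exact (dgr_linear M).2 _ _

theorem sdim_le_of_fin (β : Crd k P S) {V : Sub k S}
    (h : ∀ x, {z | z ∈ V ∧ β.pr z = x}.Finite) : sdim V ≤ sdim (β.img V) := by
  obtain ⟨x, hx⟩ := V.isIrreducible.nonempty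
  obtain ⟨T, t1, t2, t3, t4⟩ := fib_low β (U := V) hx
  have h1 : sdim T = 0 := by
    by_contra h0
    exact infinite_of_sdim (Nat.pos_of_ne_zero h0)
      ((h (β.pr x)).subset fun y hy => ⟨t1 hy, t3 y hy x t2⟩)
  omega

theorem lin_dim (U : Finset P.V) {V : Sub k P}
    (h : ∀ s ∈ U, Van (V : Set (P.Pt k)) (MvPolynomial.X s)) :
    sdim V + U.card + Nat.card P.ι ≤ Nat.card P.V := by
  obtain ⟨ς, hς⟩ := Noeth.mono_not_van V
  obtain ⟨L, _, _, v, hg, hv, -⟩ := exists_gen V ς hς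
  have hi : Function.Injective fun i => (⟨i, ς i⟩ : P.V) := fun i j e => congrArg Sigma.fst e
  set A := Set.range fun i => (⟨i, ς i⟩ : P.V)
  have h0 : ∀ s ∈ U, v s = 0 := fun s hs => (G2_zero hg s).2 (h s hs)
  have h1 : (sdim V : ℕ∞) ≤ (A ∪ U)ᶜ.encard := by
    rw [← hg.rk_rat, rk_rat_norm v ς hv]
    refine (rk_le_of_mem (s := v '' (A ∪ U)ᶜ) ?_).trans
      ((rk_le_encard _).trans (Set.encard_image_le _ _))
    rintro _ ⟨s, rfl⟩
    by_cases hs : s ∈ A ∪ U
    · rcases hs with ⟨i, rfl⟩ | hs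
      · rw [hv]
        exact one_mem _
      · rw [h0 s hs]
        exact zero_mem _
    · exact IntermediateField.subset_adjoin _ _ ⟨s, hs, rfl⟩
  rw [← (Set.toFinite _).cast_ncard_eq, Nat.cast_le] at h1
  have h2 : _ = Nat.card P.V := Set.ncard_add_ncard_compl (A ∪ U)
  have h3 : A.ncard = Nat.card P.ι := Set.ncard_range_of_injective hi
  rw [Set.ncard_union_eq (Set.disjoint_left.2 (by
    rintro _ ⟨i, rfl⟩ hs
    exact one_ne_zero ((hv i).symm.trans (h0 _ hs)))), Set.ncard_coe_finset] at h2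
  omega

theorem univ_dim (h : X.pts = Set.univ) : X.dim + Nat.card P.ι = Nat.card P.V := by
  have h1 : IsIrreducible (Set.univ : Set (P.Pt k)) := h ▸ X.irr
  have h2 := (Var.full k P).sdim_top h1
  have h3 : X.tp = (Var.full k P).top h1 := TopologicalSpace.IrreducibleCloseds.ext h
  have h4 := sdim_le_card X.tp
  rw [← h3, X.sdim_tp] at h2
  change X.dim = Nat.card P.V - Nat.card P.ι at h2
  omega

theorem exists_inter {V W : Sub k P} (hV : (V : Set (P.Pt k)) ⊆ X.pts)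
    (hW : (W : Set (P.Pt k)) ⊆ X.pts) {z : P.Pt k} (h : z ∈ V) (h' : z ∈ W) :
    ∃ U : Sub k P, z ∈ U ∧ U ≤ V ∧ U ≤ W ∧ sdim V + sdim W ≤ sdim U + X.dim := by
  have hb := bij_sum (k := k) (P := P) (Q := P)
  obtain ⟨y, y1, y2⟩ := hb.exists_pt z z
  have hy : ({y} : Sub k (P.sum P)) ≤ hb.xp V W := fun x (hx : x = y) =>
    hb.mem_xp.2 (by rw [hx, y1, y2]; exact ⟨h, h'⟩)
  have hJ : dI k (Crd.inl k P P).ε (Crd.inr k P P).ε ≤
      idl (({y} : Sub k (P.sum P)) : Set ((P.sum P).Pt k)) :=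
    (dI_le_iff _ _).2 fun x (hx : x = y) => by rw [hx, y1, y2]
  obtain ⟨fs, f1, f2, f3⟩ := (LG.dia X (Crd.inl k P P) (Crd.inr k P P)
    (A := (hb.xp V W : Set ((P.sum P).Pt k))) (fun x hx => hV (hb.mem_xp.1 hx).1)
    fun x hx => hW (hb.mem_xp.1 hx).2).gen' hy hJ
  obtain ⟨g1, s, g2, g3⟩ := f3 _ subset_rfl
  obtain ⟨U, u1, u2, u3, u4⟩ := krull_list f2 hy fun f hf => van_idl (hJ (g1 f hf))
  have hU : ∀ x ∈ U, (Crd.inl k P P).pr x = (Crd.inr k P P).pr x :=
    (dI_le_iff _ _).1 fun g hg => ((idl_prime U).mem_or_mem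
      (sup_le (idl_le_iff.2 u2) ((ofList_le_idl f2).2 u3) (g3 g hg))).resolve_left
        fun k => g2 (idl_le_iff.2 u1 k)
  have u5 := hb.le_xp.1 u2
  refine ⟨(Crd.inl k P P).img U, y1 ▸ (Crd.inl k P P).mem_img (u1 (show y ∈ ({y} : Sub k (P.sum P))
    from rfl)), u5.1, (Crd.inl k P P).img_congr _ hU ▸ u5.2, ?_⟩
  rw [sdim_img_of_inj _ fun a ha b hb' e => hb.ext e (by rw [← hU a ha, ← hU b hb', e]),
    ← hb.sdim_xp, ← f1]
  exact u4

end Pool.Agent.Work.MP_10f4af_ag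
end

-- merged part: Pool.Agent.Work.MP_10f4af_ag.UN.B4
section
/-!
# Very general hypersurfaces

Plan.  There is one factor (`Unique P.ι`), so `rat v` is the set of all the ratios
(`Unique.eq_default`, destructure `⟨i, s⟩`).  `mem_col_iff`, `eq_iff_mn`: `ev_eq`, `rp_pr`,
`pt_eq`; or `dI_le_iff`.  `HS.of`: `form_iff`, `wt_iff`, `univ_dim`, `AlgebraicIndependent.comp`.
`HS.form`, `HS.pd`: `form_iff`, `IsHomogeneous.pderiv`.
`HS.low`: `exists_gen'`, `IsGen.rk_rat`, `IsGen.iff`, `low'`.  `HS.off`: `GF.off` for `rp x`.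
`HS.fib`: by `step` for `rp x`, `rp y` (read backwards: `rp y = a • (rp x + single p t')`) the
point `y` is determined by `t'`, which is in the finite set of `fib_fin`; `pt_eq`,
`Set.Finite.of_finite_image` or `Set.Finite.of_injOn` with a chosen `t'`.
`HS.col_dim`: `sdim_le_of_fin` for `Crd.inl`, `Bij.ext`, `Var.sdim_le` or `sdim_mono`.
`HS.poly`: take a generic point `v` of `V` (`exists_gen'`), `x i s = v ((M.β i).ε s)`.  The forms
`rename (M.β i).ε f` and the minors `X (ε i s) * X (ε (i + 1) t) - ..` (`G0_form`) vanish on `V`,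
so at `v`.  If all the minors vanish at `v` they vanish on `V`, so the two points are equal on `V`
and `rename (M.β i).ε (pderiv (p i) f)` vanishes on `V`.  `polygon`; every element of `rat v` is a
ratio of some `x i` (`M.bε`, `M.bψ`, `Crd.fst`); `IsGen.rk_rat`.
-/

open MvPolynomial Finsupp Function Function.Embedding

namespace Pool.Agent.Work.MP_10f4af_ag

open MP_ffcd14_ag hiding len vl cyc pl Weil idl_hmg mem_idl idl_prime idl_le_iff lin

universe u

variable {k : Type u} [Field k] {P : Amb}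

variable (k) in
/-- A minor. -/
noncomputable def mn (s t : P.V) : MvPolynomial (P.sum P).V k :=
  X (vl s) * X (vr t) - X (vl t) * X (vr s)

/-- The points `x`, `y` and the coordinate point `p` are on a line. -/
def Col (p : P.V) (x y : P.Pt k) : Prop :=
  ∀ s ≠ p, ∀ t ≠ p, rp x s * rp y t = rp x t * rp y s

theorem ev_mn (z : (P.sum P).Pt k) (s t : P.V) :
    ev z (mn k s t) = rp (fst z) s * rp (snd z) t - rp (fst z) t * rp (snd z) s := by
  simp only [ev_eq, mn, map_sub, map_mul, eval_X]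
  rfl

variable [Unique P.ι]

theorem UNB4_eq (s : P.V) : ∃ s', s = ⟨default, s'⟩ := by
  obtain ⟨i, s⟩ := s
  obtain rfl := Unique.eq_default i
  exact ⟨s, rfl⟩

theorem mn_form (s t : P.V) :
    IsForm (mn k s t) (single (Sum.inl default) 1 + single (Sum.inr default) 1) := by
  obtain ⟨s, rfl⟩ := UNB4_eq s
  obtain ⟨t, rfl⟩ := UNB4_eq t
  exact G0_form (Crd.inl k P P) (Crd.inr k P P) default s t

theorem UNB4_ne (x : P.Pt k) : rp x ≠ 0 := fun h =>
  (x default).rep_nonzero (funext fun s => congrFun h ⟨default, s⟩)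

theorem eq_iff_mn {x y : P.Pt k} : x = y ↔ ∀ s t, rp x s * rp y t = rp x t * rp y s := by
  refine ⟨fun h s t => by rw [h, mul_comm], fun h => ?_⟩
  obtain ⟨t, ht⟩ := Function.ne_iff.1 (UNB4_ne y)
  refine pt_eq (μ := fun _ => rp x t / rp y t) fun s => ?_
  rw [div_mul_eq_mul_div, eq_div_iff ht, h]

theorem dI_eq : dI k (vl : P.V → (P.sum P).V) vr = Ideal.span {g | ∃ s t, g = mn k s t} := by
  refine congrArg Ideal.span (Set.ext fun g => ⟨fun ⟨i, s, t, e⟩ => ⟨_, _, e⟩, ?_⟩)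
  rintro ⟨s, t, rfl⟩
  obtain ⟨s, rfl⟩ := UNB4_eq s
  obtain ⟨t, rfl⟩ := UNB4_eq t
  exact ⟨default, s, t, rfl⟩

/-- `X` is a very general hypersurface of degree `e`. -/
structure HS (X : SV k P) (f : MvPolynomial P.V k) (e : ℕ) : Prop where
  gf : GF f e
  two : 2 ≤ e
  pts : ∀ x, x ∈ X.pts ↔ ev x f = 0
  card : Nat.card P.V = X.dim + 2

/-- The outer bound for the residual correspondence. -/
def Out (X : SV k P) (f : MvPolynomial P.V k) (p : P.V) (x y : P.Pt k) : Prop :=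
  x ∈ X.pts ∧ y ∈ X.pts ∧ Col p x y ∧ (x = y → ev x (pderiv p f) = 0)

variable {X : SV k P} {f : MvPolynomial P.V k} {e : ℕ}

theorem HS.form (h : HS X f e) : IsForm f (single default e) := by
  rw [form_iff, single_eq_same]
  exact h.gf.hom

theorem HS.pd (h : HS X f e) (p : P.V) : IsForm (pderiv p f) (single default (e - 1)) := by
  rw [form_iff, single_eq_same]
  exact h.gf.hom.pderiv

theorem HS.off (h : HS X f e) {x : P.Pt k} (hx : x ∈ X.pts) (p : P.V) :
    ∃ s ≠ p, rp x s ≠ 0 := by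
  let _ := Fintype.ofFinite P.V
  exact h.gf.off (UNB4_ne x) ((h.pts x).1 hx) p

theorem HS.fib (h : HS X f e) {x : P.Pt k} (hx : x ∈ X.pts) (p : P.V) :
    {y | y ∈ X.pts ∧ Col p x y}.Finite := by
  classical
  let _ := Fintype.ofFinite P.V
  have key : ∀ y : {y | y ∈ X.pts ∧ Col p x y}, ∃ a : k, a ≠ 0 ∧ ∃ t,
      rp y.1 = fun s => a * (rp x + Pi.single p t : P.V → k) s := fun y => by
    obtain ⟨a, ha, t, ht⟩ := step (h.off hx p) (h.off y.2.1 p) y.2.2
    refine ⟨a, ha, a⁻¹ * t, ht.trans (funext fun s => ?_)⟩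
    by_cases hs : s = p
    · subst hs
      simp [mul_add, ha]
    · simp [Pi.single_eq_of_ne hs]
  choose a ha t ht using key
  have := (fib_fin h.gf (rp x) p).to_subtype
  refine Set.finite_coe_iff.1 (Finite.of_injective
    (β := {t : k | eval (rp x + Pi.single p t) f = 0}) (fun y => ⟨t y, ?_⟩) fun y y' e => ?_)
  · have h1 := (h.pts _).1 y.2.1
    rw [ev_eq, ht y, ← aeval_eq_eval, UNB2_scale h.gf.hom, aeval_eq_eval] at h1
    exact (mul_eq_zero.1 h1).resolve_left (pow_ne_zero _ (ha y))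
  · refine Subtype.ext (pt_eq (μ := fun _ => a y / a y') fun s => ?_)
    rw [ht y, ht y', show t y = t y' from congrArg Subtype.val e, ← mul_assoc,
      div_mul_cancel₀ _ (ha y')]

variable [IsAlgClosed k]

theorem HS.of {Y : SV k P} (hY : Y.pts = Set.univ) {a : P.ι →₀ ℕ} (h : Sec Y X f a)
    (hf : AlgebraicIndependent (⊥ : Subfield k) fun m : Mon a => coeff m.1 f)
    (h2 : 2 ≤ a default) : HS X f (a default) := by
  refine ⟨⟨form_iff.1 h.form, hf.comp (fun m : {m : P.V →₀ ℕ // m.degree = a default} =>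
    (⟨m.1, wt_iff.2 m.2⟩ : Mon a)) fun m m' e =>
      Subtype.ext (congrArg (fun m : Mon a => m.1) e)⟩, h2,
    fun x => by rw [h.pts, hY]; simp, ?_⟩
  have h1 := univ_dim hY
  have h3 := h.dim
  rw [Nat.card_unique] at h1
  omega

theorem HS.low (h : HS X f e) (S U : Finset P.V) {V : Sub k P}
    (hV : (V : Set (P.Pt k)) ⊆ X.pts) (hS : ∀ s ∈ S, Van (V : Set (P.Pt k)) (pderiv s f))
    (hU : ∀ s ∈ U, Van (V : Set (P.Pt k)) (MvPolynomial.X s)) :
    sdim V + S.card + U.card ≤ X.dim := by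
  let _ := Fintype.ofFinite P.V
  obtain ⟨L, _, _, v, hv⟩ := exists_gen' V
  obtain ⟨s, hs⟩ := hv.ne default
  have key := low' h.gf (by have := h.two; omega) (Function.ne_iff.2 ⟨_, hs⟩) S U
    (fun s hs => (aeval_X v s).symm.trans ((hv.iff _ _ (IsForm.X s)).2 (hU s hs)))
    ((hv.iff _ _ h.form).2 fun x hx => (h.pts x).1 (hV hx))
    fun s hs => (hv.iff _ _ (h.pd s)).2 (hS s hs)
  have h1 : (sdim V : ℕ∞) ≤ rk k {y | ∃ s t, y = v s / v t} :=
    hv.rk_rat ▸ rk_mono fun y ⟨i, s, t, e⟩ => ⟨_, _, e⟩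
  have h2 := (add_le_add_left h1 _).trans key
  rw [← Nat.card_eq_fintype_card, h.card, ← Nat.cast_add, Nat.cast_le] at h2
  omega

theorem HS.col_dim (h : HS X f e) (p : P.V) {V : Sub k (P.sum P)}
    (hV : ∀ z ∈ V, fst z ∈ X.pts ∧ snd z ∈ X.pts ∧ Col p (fst z) (snd z)) : sdim V ≤ X.dim := by
  refine (sdim_le_of_fin (Crd.inl k P P) fun x => ?_).trans ?_
  · by_cases hx : x ∈ X.pts
    · refine Set.Finite.of_finite_image (f := snd) ((h.fib hx p).subset ?_)
        fun z hz z' hz' e => bij_sum.ext (hz.2.trans hz'.2.symm) e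
      rintro _ ⟨z, ⟨h1, rfl⟩, rfl⟩
      exact (hV z h1).2
    · exact Set.finite_empty.subset fun z hz => hx (hz.2 ▸ (hV z hz.1).1)
  · rw [← X.sdim_tp]
    exact sdim_mono ((Crd.img_sub _ X.tp.isClosed).2 fun z hz => (hV z hz).1)

theorem HS.poly' (h : HS X f e) {n : ℕ} (hn : X.dim ≤ n + 1) {p : Fin (n + 1) → P.V}
    (hp : Injective p) (M : Mod X (Fin (n + 1))) {V : Sub k M.S}
    (hV : ∀ z ∈ V, ∀ i, Out X f (p i) ((M.β i).pr z) ((M.β (i + 1)).pr z)) : sdim V = 0 := by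
  let _ := Fintype.ofFinite P.V
  obtain ⟨L, _, _, v, hv⟩ := exists_gen' V
  have hr : ∀ i {g a}, IsForm g a → (∀ z ∈ V, ev ((M.β i).pr z) g = 0) →
      aeval (fun s => v ((M.β i).ε s)) g = 0 := fun i g a hg h0 => by
    have := (hv.iff _ _ ((M.β i).form hg)).2 fun z hz => ((M.β i).ev_rename z g).trans (h0 z hz)
    rwa [aeval_rename] at this
  have hm : ∀ i s t, (v ((M.β i).ε s) * v ((M.β (i + 1)).ε t) =
      v ((M.β i).ε t) * v ((M.β (i + 1)).ε s) ↔ ∀ z ∈ V, rp ((M.β i).pr z) s *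
        rp ((M.β (i + 1)).pr z) t = rp ((M.β i).pr z) t * rp ((M.β (i + 1)).pr z) s) := by
    intro i s t
    obtain ⟨s, rfl⟩ := UNB4_eq s
    obtain ⟨t, rfl⟩ := UNB4_eq t
    have := hv.iff _ _ (G0_form (M.β i) (M.β (i + 1)) default s t)
    simp only [map_sub, map_mul, aeval_X, sub_eq_zero] at this
    refine this.trans (forall₂_congr fun z _ => ?_)
    simp only [ev_eq, map_sub, map_mul, eval_X, sub_eq_zero, Crd.rp_pr]
  have hι : ∀ (u : M.S.V) i, u.1 = (M.β i).ψ default → ∃ s, u = (M.β i).ε s := fun u i e => by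
    obtain ⟨⟨j, s⟩, rfl⟩ := M.bε.2 u
    have := M.bψ.1 (a₁ := (j, s.1)) (a₂ := (i, default)) (((M.β j).fst s).symm.trans e)
    exact ⟨s, congrArg (fun j => (M.β j).ε s) (congrArg Prod.fst this)⟩
  have key := polygon' h.gf (by have := h.two; omega) (n := n)
    (by rw [← Nat.card_eq_fintype_card, h.card]; omega) hp
    (x := fun i s => v ((M.β i).ε s)) (fun i => ?_)
    (fun i => hr i h.form fun z hz => (h.pts _).1 (hV z hz i).1)
    (fun i s hs t ht => (hm i s t).2 fun z hz => (hV z hz i).2.2.1 s hs t ht)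
    fun i h1 => hr i (h.pd _) fun z hz =>
      (hV z hz i).2.2.2 (eq_iff_mn.2 fun s t => (hm i s t).1 (h1 s t) z hz)
  · have h1 : (sdim V : ℕ∞) ≤ 0 := by
      rw [← hv.rk_rat, ← key]
      refine rk_mono ?_
      rintro _ ⟨j, s, t, rfl⟩
      obtain ⟨⟨i, j⟩, rfl⟩ := M.bψ.2 j
      obtain rfl := Unique.eq_default j
      obtain ⟨s', hs⟩ := hι ⟨_, s⟩ i rfl
      obtain ⟨t', ht⟩ := hι ⟨_, t⟩ i rfl
      exact ⟨i, s', t', by rw [← hs, ← ht]⟩
    exact_mod_cast le_zero_iff.1 h1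
  · obtain ⟨s, hs⟩ := hv.ne ((M.β i).ψ default)
    obtain ⟨s', e⟩ := hι ⟨_, s⟩ i rfl
    exact Function.ne_iff.2 ⟨s', e ▸ hs⟩

theorem HS.poly (h : HS X f e) {n : ℕ} (hn : X.dim = n + 1) {p : Fin (n + 1) → P.V}
    (hp : Injective p) (M : Mod X (Fin (n + 1))) {V : Sub k M.S}
    (hV : ∀ z ∈ V, ∀ i, Out X f (p i) ((M.β i).pr z) ((M.β (i + 1)).pr z)) : sdim V = 0 :=
  h.poly' hn.le hp M hV

end Pool.Agent.Work.MP_10f4af_ag
end

-- merged part: Pool.Agent.Work.MP_10f4af_ag.UN.A2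
section
/-!
# Effective classes

Plan.  `Nn.map`: write `c = ∑ c p • single p 1` (`Finsupp.sum`, `Finsupp.induction_linear` is not
enough because of the hypothesis on the support; use `c.sum_single`, `map_finsuppSum`), each
`p` of the support is `idl V`.  `Nn.map_ne`: the coefficient is a sum of non-negative terms.
`Nn.ip`: `ip_apply`, `Bij.ex_cS`, `gys_nat`, `I1_mem`, `Nn.map` for `push vl`, `push_cS`.
`Eff.mul`: `mul_mk` (`prp_iff`), `ip_mem'` or `Sp_map` with `ip_mem`, `Nn.map` twice; for the last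
part `exists_inter`, `ip_pos` and `Nn.map_ne` twice (first for `c ↦ ip n c c'`, which is
`(ip n).flip c'`, then for `ip n (cS V)`).
`Eff.pull`: `Mod.val_pull`, `Pd.pl_mk` for `M.pd_co M' f`, `Pd.F2_ex`, `Pd.F2_mem`, `Bij.ex_cS`,
`Bij.ex_apply`, `Bij.sdim_xp`, `Pd.dim`.
`Eff.dvc`: `exists_form_deg`, `finite_comp`, `dvc_mul`, `cut_mem`, `cut_nat`.
`Eff.dgr`: `dgr_eq`, `F1_pts`; a natural number which is not zero is at least one.
-/

open MvPolynomial Finsupp Function Function.Embedding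

namespace Pool.Agent.Work.MP_10f4af_ag

open MP_ffcd14_ag hiding len vl cyc pl Weil idl_hmg mem_idl idl_prime idl_le_iff lin

universe u

variable {k : Type u} [Field k] {P S : Amb}

/-- The coefficients are natural numbers. -/
def Nn (c : Cyc k P) : Prop := ∀ p, ∃ n : ℕ, c p = n

theorem UNA2_single (p : Ideal (MvPolynomial P.V k)) (n : ℕ) : Nn (single p (n : ℚ) : Cyc k P) := by
  classical
  intro q
  rw [single_apply]
  split_ifs
  · exact ⟨n, rfl⟩
  · exact ⟨0, Nat.cast_zero.symm⟩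

theorem UNA2_apply (φ : Cyc k P →ₗ[ℚ] Cyc k S) (c : Cyc k P) (q : Ideal (MvPolynomial S.V k)) :
    φ c q = ∑ p ∈ c.support, c p * φ (single p 1) q := by
  conv_lhs => rw [← c.sum_single, Finsupp.sum, map_sum, finsetSum_apply]
  refine Finset.sum_congr rfl fun p _ => ?_
  rw [← smul_single_one, map_smul, Finsupp.smul_apply, smul_eq_mul]

theorem UNA2_map {c : Cyc k P} (h : Nn c) (φ : Cyc k P →ₗ[ℚ] Cyc k S)
    (hφ : ∀ p ∈ c.support, Nn (φ (single p 1))) : Nn (φ c) := by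
  intro q
  rw [UNA2_apply]
  refine Finset.sum_induction _ (fun x : ℚ => ∃ n : ℕ, x = n) ?_ ⟨0, Nat.cast_zero.symm⟩
    fun p hp => ?_
  · rintro _ _ ⟨m, rfl⟩ ⟨n, rfl⟩
    exact ⟨m + n, (Nat.cast_add m n).symm⟩
  · obtain ⟨m, hm⟩ := h p
    obtain ⟨n, hn⟩ := hφ p hp q
    exact ⟨m * n, by rw [hm, hn, Nat.cast_mul]⟩

theorem UNA2_nonneg {c : Cyc k P} (h : Nn c) (p : Ideal (MvPolynomial P.V k)) : 0 ≤ c p := by
  obtain ⟨n, hn⟩ := h p
  rw [hn]
  exact Nat.cast_nonneg n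

theorem Nn.cS (V : Sub k P) : Nn (cS V) := by
  have := UNA2_single (idl (V : Set (P.Pt k))) 1
  rwa [Nat.cast_one] at this

theorem Nn.map {s : Sub k P → Prop} {c : Cyc k P} (hc : c ∈ Sp s) (h : Nn c)
    (φ : Cyc k P →ₗ[ℚ] Cyc k S) (hφ : ∀ V, s V → Nn (φ (MP_10f4af_ag.cS V))) : Nn (φ c) := by
  refine UNA2_map h φ fun p hp => ?_
  obtain ⟨V, hV, rfl⟩ := mem_Sp.1 hc p (mem_support_iff.1 hp)
  exact hφ V hV

theorem Nn.map_ne {s : Sub k P → Prop} {c : Cyc k P} (hc : c ∈ Sp s) (h : Nn c)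
    (φ : Cyc k P →ₗ[ℚ] Cyc k S) (hφ : ∀ V, s V → Nn (φ (MP_10f4af_ag.cS V))) {V : Sub k P}
    (hV : c (idl (V : Set (P.Pt k))) ≠ 0) {q : Ideal (MvPolynomial S.V k)}
    (hq : φ (MP_10f4af_ag.cS V) q ≠ 0) : φ c q ≠ 0 := by
  rw [UNA2_apply]
  refine (Finset.sum_pos' (fun p hp => ?_) ⟨_, mem_support_iff.2 hV, ?_⟩).ne'
  · obtain ⟨W, hW, rfl⟩ := mem_Sp.1 hc p (mem_support_iff.1 hp)
    exact mul_nonneg (UNA2_nonneg h _) (UNA2_nonneg (hφ W hW) q)
  · exact mul_pos ((UNA2_nonneg h _).lt_of_ne' hV)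
      ((UNA2_nonneg (hφ V (Sp_of hc hV)) q).lt_of_ne' hq)

variable [IsAlgClosed k]

theorem Nn.ip (Z : SV k P) {V W : Sub k P} (hV : (V : Set (P.Pt k)) ⊆ Z.pts)
    (hW : (W : Set (P.Pt k)) ⊆ Z.pts) :
    Nn (ip Z.dim (MP_10f4af_ag.cS V) (MP_10f4af_ag.cS W)) := by
  rw [ip_apply, MP_10f4af_ag.cS, MP_10f4af_ag.cS, ex_single]
  refine UNA2_map (fun p => gys_nat _ p) _ fun p _ => ?_
  rw [push, linearCombination_single, one_smul]
  exact UNA2_single _ _

/-- `u` is the class of an effective cycle of codimension `i` whose support lies between `I` and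
`O`. -/
def Eff (Z : SV k P) (u : CR Z) (i : ℕ) (I O : Set (P.Pt k)) : Prop :=
  ∃ c : Cyc k P, CR.val Z u = cls Z c ∧
    (c ∈ Sp fun V => (V : Set (P.Pt k)) ⊆ Z.pts ∧ (V : Set (P.Pt k)) ⊆ O ∧ sdim V + i = Z.dim) ∧
    Nn c ∧ ∀ z ∈ I, ∃ V : Sub k P, z ∈ V ∧ c (idl (V : Set (P.Pt k))) ≠ 0

variable {Z : SV k P} {u v : CR Z} {i j : ℕ} {I O I' O' : Set (P.Pt k)}

theorem Eff.mono (h : Eff Z u i I O) (hI : I' ⊆ I) (hO : ∀ z ∈ Z.pts, z ∈ O → z ∈ O') :
    Eff Z u i I' O' := by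
  obtain ⟨c, h1, h2, h3, h4⟩ := h
  exact ⟨c, h1, Sp_mono (fun V hV => ⟨hV.1, fun z hz => hO z (hV.1 hz) (hV.2.1 hz), hV.2.2⟩) h2, h3,
    fun z hz => h4 z (hI hz)⟩

theorem Eff.one (Z : SV k P) : Eff Z 1 0 Z.pts Set.univ := by
  refine ⟨cS Z.tp, rfl, cS_mem ⟨subset_rfl, Set.subset_univ _, Z.sdim_tp⟩, Nn.cS _, fun z hz =>
    ⟨Z.tp, hz, ?_⟩⟩
  rw [cS_self]
  exact one_ne_zero

theorem Eff.gr (h : Eff Z u i I O) : u ∈ CR.gr Z i := by
  obtain ⟨c, h1, h2, -⟩ := h
  exact (mem_CH Z).2 ⟨c, Sp_mono (fun V hV => ⟨hV.1, hV.2.2⟩) h2, h1.symm⟩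

theorem Eff.mul (h : Eff Z u i I O) (h' : Eff Z v j I' O')
    (hp : ∀ V : Sub k P, (V : Set (P.Pt k)) ⊆ Z.pts → (V : Set (P.Pt k)) ⊆ O →
      (V : Set (P.Pt k)) ⊆ O' → sdim V + (i + j) ≤ Z.dim) :
    Eff Z (u * v) (i + j) (I ∩ I') (O ∩ O') := by
  obtain ⟨c, h1, h2, h3, h4⟩ := h
  obtain ⟨c', h1', h2', h3', h4'⟩ := h'
  have z1 : c ∈ ZA Z.pts := Sp_mono (fun V hV => hV.1) h2
  have z2 : c' ∈ ZA Z.pts := Sp_mono (fun V hV => hV.1) h2'
  have pp : ∀ V W : Sub k P, c (idl (V : Set (P.Pt k))) ≠ 0 → c' (idl (W : Set (P.Pt k))) ≠ 0 →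
      Pp Z.dim V W := by
    intro V W hV hW U a b
    obtain ⟨a1, a2, a3⟩ := Sp_of h2 hV
    obtain ⟨-, b2, b3⟩ := Sp_of h2' hW
    have := hp U (fun z hz => a1 (a hz)) (fun z hz => a2 (a hz)) fun z hz => b2 (b hz)
    omega
  have nn : ∀ V : Sub k P, (V : Set (P.Pt k)) ⊆ Z.pts → Nn (ip Z.dim (cS V) c') := fun V hV =>
    Nn.map h2' h3' _ fun W hW => Nn.ip Z hV hW.1
  refine ⟨ip Z.dim c c', ?_, Sp_mono ?_ (ip_mem' Z z1 z2 h2 h2'),
    Nn.map h2 h3 ((ip Z.dim).flip c') fun V hV => nn V hV.1, fun z hz => ?_⟩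
  · rw [CR.val_mul, h1, h1']
    exact mul_mk Z z1 z2 (prp_iff.2 pp)
  · rintro U ⟨V, W, ⟨-, a2, a3⟩, ⟨-, b2, b3⟩, a, b, e, e'⟩
    exact ⟨e, fun z hz => ⟨a2 (a hz), b2 (b hz)⟩, by omega⟩
  · obtain ⟨V, hV, hV'⟩ := h4 z hz.1
    obtain ⟨W, hW, hW'⟩ := h4' z hz.2
    have a1 := (Sp_of h2 hV').1
    have b1 := (Sp_of h2' hW').1
    obtain ⟨U, u1, u2, u3, u4⟩ := exists_inter a1 b1 hV hW
    have u5 := pp V W hV' hW' U u2 u3
    refine ⟨U, u1, Nn.map_ne h2 h3 ((ip Z.dim).flip c') (fun V hV => nn V hV.1) hV' ?_⟩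
    exact Nn.map_ne h2' h3' (ip Z.dim (cS V)) (fun W hW => Nn.ip Z a1 hW.1) hW'
      (ip_pos Z a1 b1 (pp V W hV' hW') u2 u3 (by omega)).ne'

theorem Eff.dvc (h : Eff Z u i I O) (a : P.ι →₀ ℕ) : Eff Z (dvc Z a * u) (i + 1) ∅ O := by
  obtain ⟨c, h1, h2, h3, -⟩ := h
  obtain ⟨g, hg, hg'⟩ := exists_form_deg (finite_comp c) a
  refine ⟨cut [g] c, dvc_mul (Sp_mono (fun V hV => hV.1) h2) h1 hg hg',
    Sp_map (cut [g]) _ (fun V hV => Sp_mono ?_ (cut_mem (G3_fm hg) V)) h2,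
    Nn.map h2 h3 _ fun V _ => cut_nat _ V, fun z hz => hz.elim⟩
  rintro T ⟨a1, a2, -⟩
  have a3 := hV.2.2
  rw [List.length_singleton] at a2
  exact ⟨fun z hz => hV.1 (a1 hz), fun z hz => hV.2.1 (a1 hz), by omega⟩

theorem Eff.pow (h : Eff Z u i I O) (a : P.ι →₀ ℕ) (n : ℕ) :
    Eff Z (MP_10f4af_ag.dvc Z a ^ n * u) (i + n) ∅ O := by
  induction n with
  | zero =>
    rw [pow_zero, one_mul]
    exact h.mono (Set.empty_subset _) fun _ _ hz => hz
  | succ n ih =>
    rw [pow_succ', mul_assoc]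
    exact ih.dvc a

variable {X : SV k P} {T T' : Type} (M : Mod X T) (M' : Mod X T')

theorem Eff.pull (f : T ↪ T') {u : CR M.Z} {I O : Set (M.S.Pt k)} (h : Eff M.Z u i I O) :
    Eff M'.Z (M.pull M' f u) i {z | z ∈ M'.Z.pts ∧ (M.crd M' f).pr z ∈ I}
      {z | (M.crd M' f).pr z ∈ O} := by
  obtain ⟨c, h1, h2, h3, h4⟩ := h
  have H := M.pd_co M' f
  refine ⟨ex (M.crd M' f).ε ((M'.co f).crd M' Subtype.val).ε c (cS (M'.co f).Z.tp), ?_,
    Sp_mono ?_ (H.F2_ex h2),
    Nn.map h2 h3 ((ex (M.crd M' f).ε ((M'.co f).crd M' Subtype.val).ε).flip (cS (M'.co f).Z.tp))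
      fun V _ => ?_, fun z hz => ?_⟩
  · rw [Mod.val_pull, h1]
    exact H.pl_mk (Sp_mono (fun V hV => hV.1) h2)
  · rintro _ ⟨V, ⟨a1, a2, a3⟩, rfl⟩
    refine ⟨fun z hz => ((H.F2_mem a1).1 hz).1, fun z hz => a2 ((H.F2_mem a1).1 hz).2, ?_⟩
    have := H.dim
    rw [H.bij.sdim_xp, SV.sdim_tp]
    omega
  · rw [LinearMap.flip_apply, H.bij.ex_cS]
    exact Nn.cS _
  · obtain ⟨V, hV, hV'⟩ := h4 _ hz.2
    refine ⟨H.bij.xp V (M'.co f).Z.tp, (H.F2_mem (Sp_of h2 hV').1).2 ⟨hz.1, hV⟩, ?_⟩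
    rw [H.bij.ex_apply h2]
    exact hV'

theorem Eff.dgr {u : CR M.Z} {I O : Set (M.S.Pt k)} (h : Eff M.Z u M.Z.dim I O)
    (s : Finset (M.S.Pt k)) (hs : ∀ z ∈ s, z ∈ I) : (s.card : ℚ) ≤ M.dgr u := by
  obtain ⟨c, h1, h2, h3, h4⟩ := h
  have h5 : c ∈ Sp fun V => (V : Set (M.S.Pt k)) ⊆ M.Z.pts ∧ sdim V = 0 :=
    Sp_mono (fun V hV => ⟨hV.1, by have := hV.2.2; omega⟩) h2
  obtain ⟨s', e1, e2⟩ := F1_pts (Sp_mono (fun V hV => hV.2) h5)
  have h6 : s ⊆ s' := fun z hz => by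
    obtain ⟨V, hV, hV'⟩ := h4 z (hs z hz)
    rw [e1, ← eq_pt_of_sdim (Sp_of h5 hV').2 hV]
    exact hV'
  rw [dgr_eq M h5 h1, e2, map_sum]
  refine (Nat.cast_le.2 (Finset.card_le_card h6)).trans ?_
  rw [Finset.card_eq_sum_ones, Nat.cast_sum]
  refine Finset.sum_le_sum fun p hp => ?_
  rw [map_smul, smc, MP_10f4af_ag.cS, linearCombination_single, one_smul, smul_eq_mul, mul_one]
  obtain ⟨n, hn⟩ := h3 (idl (({p} : Sub k M.S) : Set (M.S.Pt k)))
  have := (e1 p).1 hp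
  rw [hn] at this ⊢
  exact Nat.cast_le.2 (Nat.one_le_iff_ne_zero.2 (Nat.cast_ne_zero.1 this))

end Pool.Agent.Work.MP_10f4af_ag
end

-- merged part: Pool.Agent.Work.MP_10f4af_ag.UN.E1
section
/-!
# The points where the polars meet

Plan.  `one_le`: take `s₀ : P.V`, `S = univ.erase s₀`, so `S.card = Y.dim` (`univ_dim`).  `dvc_fin`
with the coordinates and `u = 1`, `PL_fin`, `lin_dim`; the product is `hh Y ^ S.card`.  The class is
effective (`cut_mem`, `cut_nat`) with the coordinate point `s₀` (`exists_pt`) in its support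
(`cut_pos`, `sdim_pt`); `Eff.dgr` with a singleton.
`HS.loc`: by `HS.low` for `V = {x}`, `U = Sᶜ` there is `s₀ ∉ S` with `rp x s₀ ≠ 0`.  Let
`x' = hat (fun _ => ..) x` or `(rp x s₀)⁻¹ • rp x`, so that `x' s₀ = 1`; a form vanishes at `x` iff
it vanishes at `x'` (`IsForm.eval_scale`).  Apply `taylor` to the forms `F none = f`,
`F (some p) = pderiv p f`, `p ∈ S`, and `G5_lin` with `φ = aeval x'`, columns `{s // s ≠ s₀}`,
`u s = X s - C (x' s) * X s₀`, `H = idl X.pts ⊔ ofList ..`; the kernel is zero by `hess` (extend the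
vector by `0` at `s₀`).  The element `d` is not in `idl {x}` since this ideal is spanned by forms
which vanish at `x'`.  `taylor` for `g` finishes.
`HS.bez`: `dvc_fin` for the forms `pderiv p f` (`HS.pd`, `PL_fin`, `HS.low`), `dvc_single`,
`dgr_eq`, `cut_mem`, `F1_pts`; the coefficients are at most one by `cut_le_one`, `HS.loc`.
-/

open MvPolynomial Finsupp Function Function.Embedding

namespace Pool.Agent.Work.MP_10f4af_ag

open MP_ffcd14_ag hiding len vl cyc pl Weil idl_hmg mem_idl idl_prime idl_le_iff lin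

universe u

variable {k : Type u} [Field k] [IsAlgClosed k] {P : Amb} [Unique P.ι] {X Y : SV k P}
  {f : MvPolynomial P.V k} {e : ℕ}

theorem one_le (hY : Y.pts = Set.univ) : 1 ≤ (Mod.one Y).dgr (hh Y ^ Y.dim) := by
  classical
  let _ := Fintype.ofFinite P.V
  obtain ⟨y, -⟩ := Y.irr.nonempty
  obtain ⟨ς, -⟩ := exists_inCh y
  obtain ⟨s₀, hs₀⟩ : ∃ s₀ : P.V, s₀ = ⟨default, ς default⟩ := ⟨_, rfl⟩
  obtain ⟨S, hS'⟩ : ∃ S : Finset P.V, S = Finset.univ.erase s₀ := ⟨_, rfl⟩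
  have hd := univ_dim hY
  rw [Nat.card_unique] at hd
  have hS : S.card = Y.dim := by
    rw [hS', Finset.card_erase_of_mem (Finset.mem_univ _), Finset.card_univ,
      ← Nat.card_eq_fintype_card, ← hd]
    rfl
  have hPL : PL (S.toList.map fun s => (MvPolynomial.X s : MvPolynomial P.V k)) Y.tp :=
    PL_fin S _ fun s' _ T _ hT => by
      have := lin_dim s' hT
      rw [Nat.card_unique] at this
      rw [Y.sdim_tp]
      omega
  have hX : ∀ s : P.V, IsForm (MvPolynomial.X s : MvPolynomial P.V k) (single default 1) :=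
    fun s => by
      rw [← Unique.eq_default s.1]
      exact IsForm.X s
  have hF : Fm (S.toList.map fun s => (MvPolynomial.X s : MvPolynomial P.V k)) :=
    List.forall_mem_map.2 fun s _ => ⟨_, hX s⟩
  have hl : (S.toList.map fun s => (MvPolynomial.X s : MvPolynomial P.V k)).length = sdim Y.tp := by
    rw [List.length_map, Finset.length_toList, hS, Y.sdim_tp]
  have h1 := dvc_fin (Z := Y) S (a := fun _ => single default 1) (fun s _ => hX s) (V := Y.tp)
    subset_rfl hPL (u := 1) rfl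
  rw [Finset.prod_const, mul_one, hS] at h1
  obtain ⟨x, μ, -, hx⟩ := exists_pt (P := P) (k := k) (Pi.single s₀ 1) fun i => by
    rw [Unique.eq_default i]
    exact ⟨ς default, by rw [← hs₀, Pi.single_eq_same]; exact one_ne_zero⟩
  have hv : ∀ g ∈ S.toList.map fun s => (MvPolynomial.X s : MvPolynomial P.V k),
      Van (({x} : Sub k P) : Set (P.Pt k)) g := by
    intro g hg w hw
    obtain ⟨s, hs, rfl⟩ := List.mem_map.1 hg
    rw [show w = x from hw, ev_eq, eval_X, hx]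
    have : s ≠ s₀ := Finset.ne_of_mem_erase (hS' ▸ Finset.mem_toList.1 hs)
    simp only [Pi.single_eq_of_ne this, mul_zero]
  have hE : Eff Y (hh Y ^ Y.dim) Y.dim {x} Set.univ := by
    refine ⟨_, h1, Sp_mono (fun T hT => ⟨hT.1, Set.subset_univ _, ?_⟩) (cut_mem hF Y.tp),
      cut_nat _ _, fun z hz => ⟨{x}, hz, (cut_pos hF hPL
        (fun w _ => (hY ▸ Set.mem_univ w : w ∈ Y.pts)) hv (by rw [sdim_pt, zero_add, hl])).ne'⟩⟩
    have := hT.2.1
    rwa [hl, Y.sdim_tp] at this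
  exact Nat.cast_one.symm.trans_le (Eff.dgr (Mod.one Y) hE {x} fun z hz => Finset.mem_singleton.1 hz)

variable (h : HS X f e) (h2 : (2 : k) ≠ 0) {S : Finset P.V} (hS : S.card = X.dim)
include h h2 hS

theorem HS.loc {x : P.Pt k} (hx : x ∈ X.pts) (h0 : ∀ p ∈ S, ev x (pderiv p f) = 0)
    {g : MvPolynomial P.V k} {a : P.ι →₀ ℕ} (hg : IsForm g a) (h1 : ev x g = 0) :
    ∃ s ∉ idl (({x} : Sub k P) : Set (P.Pt k)),
      s * g ∈ idl X.pts ⊔ Ideal.ofList (S.toList.map fun p => pderiv p f) := by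
  classical
  let _ := Fintype.ofFinite P.V
  have hc : Fintype.card P.V = X.dim + 2 := by rw [← Nat.card_eq_fintype_card, h.card]
  obtain ⟨s₀, hs₀, hx₀⟩ : ∃ s₀ ∉ S, rp x s₀ ≠ 0 := by
    by_contra hn
    push Not at hn
    have := h.low S Sᶜ (V := {x}) (fun y hy => (show y = x from hy) ▸ hx)
      (fun s hs y hy => (show y = x from hy) ▸ h0 s hs) fun s hs y hy => by
        rw [show y = x from hy, ev_eq, eval_X]
        exact hn s (Finset.mem_compl.1 hs)
    rw [Finset.card_compl] at this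
    omega
  obtain ⟨x', hx'⟩ : ∃ x' : P.V → k, x' = fun s => (fun _ => (rp x s₀)⁻¹) s.1 * rp x s := ⟨_, rfl⟩
  have e1 : x' s₀ = 1 := by
    rw [hx']
    exact inv_mul_cancel₀ hx₀
  have key : ∀ {g a}, IsForm g a → ev x g = 0 → eval x' g = 0 := fun hg hv => by
    rw [hx', hg.eval_scale (fun _ => (rp x s₀)⁻¹), ← ev_eq, hv, mul_zero]
  have hu : (MvPolynomial.X s₀ - C (x' s₀) * MvPolynomial.X s₀ : MvPolynomial P.V k) = 0 := by
    rw [e1, C_1, one_mul, sub_self]
  obtain ⟨H, hH⟩ : ∃ H, H = idl X.pts ⊔ Ideal.ofList (S.toList.map fun p => pderiv p f) := ⟨_, rfl⟩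
  let F : Option S → MvPolynomial P.V k := fun o => o.elim f fun p => pderiv p.1 f
  have hF : ∀ o, (∃ m, (F o).IsHomogeneous m) ∧ eval x' (F o) = 0 ∧ F o ∈ H := by
    rintro (_ | p)
    · exact ⟨⟨_, h.gf.hom⟩, key h.form ((h.pts x).1 hx),
        hH ▸ Ideal.mem_sup_left ((mem_idl h.form).2 fun y hy => (h.pts y).1 hy)⟩
    · exact ⟨⟨_, form_iff.1 (h.pd p.1)⟩, key (h.pd p.1) (h0 p.1 p.2), hH ▸ Ideal.mem_sup_right
        (Ideal.subset_span (List.mem_map.2 ⟨p.1, Finset.mem_toList.2 p.2, rfl⟩))⟩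
  choose m hm using fun o => (hF o).1
  choose A hA1 hA2 using fun o => taylor (hm o) e1
  obtain ⟨d, hd, hdu⟩ := G5_lin (aeval x') H (Matrix.of fun o (s : {s // s ≠ s₀}) => A o s.1)
    (fun s => MvPolynomial.X s.1 - C (x' s.1) * MvPolynomial.X s₀) (fun o => by
      have := hA1 o
      rw [(hF o).2.1, C_0, zero_mul, zero_add, Fintype.sum_eq_add_sum_subtype_ne _ s₀, hu, mul_zero,
        zero_add] at this
      exact (this ▸ (hF o).2.2 :)) fun t ht => by
      let v : P.V → k := fun s => if hs : s = s₀ then 0 else t ⟨s, hs⟩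
      have hv : v s₀ = 0 := dif_pos rfl
      have hs : ∀ o, ∑ s, eval x' (pderiv s (F o)) * v s = 0 := fun o => by
        rw [Fintype.sum_eq_add_sum_subtype_ne _ s₀, hv, mul_zero, zero_add]
        refine Eq.trans (Finset.sum_congr rfl fun s _ => ?_) (congrFun ht o)
        rw [← hA2 o s.1 s.2, show v s.1 = t s from dif_neg s.2]
        rfl
      have := hess h.gf h.two h2 e1 hs₀ (by omega) (hF none).2.1
        (fun s hs => (hF (some ⟨s, hs⟩)).2.1) hv (hs none) fun s hs' => hs (some ⟨s, hs'⟩)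
      funext s
      exact (dif_neg s.2).symm.trans (congrFun this s.1)
  refine ⟨d, fun hm => hd ?_, ?_⟩
  · exact (Ideal.span_le (I := RingHom.ker (eval x'))).2
      (fun g hg => hg.1.elim fun a ha => key ha (hg.2 x rfl)) hm
  · obtain ⟨B, hB, -⟩ := taylor (form_iff.1 hg) e1
    rw [← hH, hB, key hg h1, C_0, zero_mul, zero_add, Finset.mul_sum]
    refine H.sum_mem fun s _ => ?_
    by_cases e : s = s₀
    · rw [e, hu, mul_zero, mul_zero]
      exact H.zero_mem
    · rw [mul_left_comm]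
      exact H.mul_mem_left _ (hdu ⟨s, e⟩)

theorem HS.bez : ∃ s : Finset (P.Pt k), (∀ x ∈ s, x ∈ X.pts ∧ ∀ p ∈ S, ev x (pderiv p f) = 0) ∧
    ((e : ℚ) - 1) ^ X.dim * (Mod.one X).dgr (hh X ^ X.dim) ≤ s.card := by
  have hF : Fm (S.toList.map fun p => pderiv p f) :=
    List.forall_mem_map.2 fun p _ => ⟨_, h.pd p⟩
  have hPL : PL (S.toList.map fun p => pderiv p f) X.tp :=
    PL_fin S _ fun s' _ T hT hv => by
      have := h.low s' ∅ hT hv fun s hs => absurd hs (Finset.notMem_empty s)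
      rw [X.sdim_tp]
      exact this
  have h1 := dvc_fin (Z := X) S (a := fun _ => single default (e - 1)) (fun p _ => h.pd p)
    (V := X.tp) subset_rfl hPL (u := 1) rfl
  rw [Finset.prod_const, mul_one, hS, dvc_single, smul_pow] at h1
  have hm : cut (S.toList.map fun p => pderiv p f) (cS X.tp) ∈ Sp fun T => T ≤ X.tp ∧ sdim T = 0 ∧
      ∀ g ∈ S.toList.map fun p => pderiv p f, Van (T : Set (P.Pt k)) g := by
    refine Sp_mono (fun T hT => ⟨hT.1, ?_, hT.2.2⟩) (cut_mem hF X.tp)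
    have := hT.2.1
    rw [List.length_map, Finset.length_toList, hS, X.sdim_tp] at this
    omega
  have h3 := dgr_eq (Mod.one X) (Sp_mono (fun T hT => ⟨hT.1, hT.2.1⟩) hm) h1
  obtain ⟨s, hs1, hs2⟩ := F1_pts (Sp_mono (fun T hT => hT.2.1) hm)
  have h4 : ∀ x ∈ s, x ∈ X.pts ∧ ∀ p ∈ S, ev x (pderiv p f) = 0 := fun x hx => by
    have := Sp_of hm ((hs1 x).1 hx)
    exact ⟨this.1 (show x ∈ ({x} : Sub k P) from rfl), fun p hp =>
      this.2.2 _ (List.mem_map.2 ⟨p, Finset.mem_toList.2 hp, rfl⟩) x rfl⟩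
  refine ⟨s, h4, ?_⟩
  have h6 : ((e - 1 : ℕ) : ℚ) ^ X.dim * (Mod.one X).dgr (hh X ^ X.dim) =
      smc (P := P) (cut (S.toList.map fun p => pderiv p f) (cS X.tp)) :=
    ((Mod.one X).dgL.map_smul (((e - 1 : ℕ) : ℚ) ^ X.dim) (hh X ^ X.dim)).symm.trans h3
  rw [Nat.cast_sub (one_le_two.trans h.two), Nat.cast_one, hs2, map_sum] at h6
  refine h6.le.trans ?_
  rw [Finset.card_eq_sum_ones, Nat.cast_sum]
  refine Finset.sum_le_sum fun x hx => ?_
  have h5 := Sp_of hm ((hs1 x).1 hx)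
  have h7 : smc (cS ({x} : Sub k P)) = 1 :=
    (Finsupp.linearCombination_single _ _ _).trans (one_smul _ _)
  rw [map_smul, h7, smul_eq_mul, mul_one, Nat.cast_one]
  exact cut_le_one hF h5.1 h5.2.2 fun g a hg hv =>
    h.loc h2 hS (h4 x hx).1 (h4 x hx).2 hg (hv x rfl)

end Pool.Agent.Work.MP_10f4af_ag
end

-- merged part: Pool.Agent.Work.MP_10f4af_ag.UN.C1
section
/-!
# The pairs of points on a line through a coordinate point

Plan.  `exists_col`: let `A = MvPolynomial (P.V ⊕ Fin 4) k` with variables `z s`, `a`, `b`, `c`, `d`,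
and let `w : (P.sum P).V → A` be `Amb.elim` of `s ↦ if s = p then b else a * z s` and
`s ↦ if s = p then d else c * z s`.  Apply `G3b_loc` with the prime `⊥`.  The minors `mn k s t`,
`s t ≠ p`, vanish at `w` (`ev_mn`, `mn_form`).  Conversely (`subset_of_van` or
`isClosed_iff_form`), if `Col p x y`, the two vectors restricted to `s ≠ p` are multiples of one
vector, so `rp z` is the image of `w` under an evaluation `A →ₐ[k] k` (`comp_aeval`).
`sg_col`: `mem_sg`, `D0_pt`, `ev_pt`, `ev_mn`, `mn_form`, `pt_pr`, `mp_X`.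
`exists_dh`: the image under the diagonal map `(Crd.refl k P).pair (Crd.refl k P)` (see
`exists_dia`) of the hyperplane `H`.  To get `H` take `krg` for the point `{x₀} ≤ Y.tp` (a point with
`rp x₀ p = 0`, `exists_pt`); to see that `H` is all the hyperplane use `exists_idl` for the prime
`span {X p}` as in `cut_line`, and `min_form` or `krg` with `eq_of_sdim_le` for the dimension.
`kill`: `g' = aeval (fun s => if s = vl p ∨ s = vr p then 0 else X s) g` (or keep the monomials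
without these variables); `g - g'` is in the ideal of the two variables, `g'` is a form of the same
degree `a`.  If `Col p x y`, write the vectors as `α * z s`, `γ * z s` for `s ≠ p` with `z p = 0`,
`z ≠ 0` (there is some `s ≠ p`); then `ev _ g'` is `chi * eval (elim z z) g`
(`IsForm.eval_scale`), which is zero since the point given by `elim z z` (`exists_pt`) is in `D`.
`col_dim`: `D < Δ < C` gives `≥` (`sdim_lt`; a pair `(p, x)` with `x ≠ p` is in `C`), or use
`Δ < C` and `exists_dia`; `krull_list` for `[X (vl p), X (vr p)]`, `D ≤ C` gives `≤`, because a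
point of `C` with `rp x p = rp y p = 0` is in `D` (`eq_iff_mn`).
`cut_col`: `cut_one`, `kill` with `s = 1`.  `cut_dia`: `cut_one`, `kill`, and `s = X (vl t)` for
`t ≠ p`, since `X (vl t) * X (vr p) = mn k t p + X (vl p) * X (vr t)` and `mn k t p` vanishes
on `Δ`; `s ∉ idl D` since the diagonal point over the coordinate point `t` is in `D`.
`cls_col`: `dvc_two`, `PL_two`, `dvc_mul`, `Mod.val_dl`, `cut_col`, `cut_dia`.
-/

open MvPolynomial Finsupp Function Function.Embedding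

namespace Pool.Agent.Work.MP_10f4af_ag

open MP_ffcd14_ag hiding len vl cyc pl Weil idl_hmg mem_idl idl_prime idl_le_iff lin

universe u

variable {k : Type u} [Field k] [IsAlgClosed k] {P : Amb} [Unique P.ι] {Y : SV k P} {p : P.V}

omit [IsAlgClosed k] [Unique P.ι] in
theorem UNC1_vec {x y : P.Pt k} (h : Col p x y) : ∃ (v : P.V → k) (α γ : k), v p = 0 ∧
    (∀ s ≠ p, rp x s = α * v s ∧ rp y s = γ * v s) ∧ ((∃ s, s ≠ p) → ∃ s, v s ≠ 0) := by
  classical
  by_cases hx : ∃ t ≠ p, rp x t ≠ 0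
  · obtain ⟨t, ht, h0⟩ := hx
    refine ⟨update (rp x) p 0, 1, rp y t / rp x t, update_self .., fun s hs => ?_,
      fun _ => ⟨t, by rwa [update_of_ne ht]⟩⟩
    rw [update_of_ne hs, one_mul, div_mul_eq_mul_div, eq_div_iff h0, mul_comm (rp y s),
      ← h s hs t ht, mul_comm]
    exact ⟨rfl, rfl⟩
  by_cases hy : ∃ t ≠ p, rp y t ≠ 0
  · obtain ⟨t, ht, h0⟩ := hy
    refine ⟨update (rp y) p 0, 0, 1, update_self .., fun s hs => ?_,
      fun _ => ⟨t, by rwa [update_of_ne ht]⟩⟩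
    rw [update_of_ne hs, one_mul, zero_mul]
    exact ⟨by_contra fun e => hx ⟨s, hs, e⟩, rfl⟩
  refine ⟨Function.update 1 p 0, 0, 0, update_self .., fun s hs => ?_,
    fun ⟨t, ht⟩ => ⟨t, by rw [update_of_ne ht]; exact one_ne_zero⟩⟩
  rw [zero_mul]
  exact ⟨by_contra fun e => hx ⟨s, hs, e⟩, by_contra fun e => hy ⟨s, hs, e⟩⟩

omit [IsAlgClosed k] in
theorem UNC1_blk {α : P.V → Prop} {t : P.V} (h : α t) (i : P.ι) : ∃ s, α ⟨i, s⟩ := by
  obtain ⟨j, s⟩ := t
  obtain rfl := Subsingleton.elim i j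
  exact ⟨s, h⟩

omit [IsAlgClosed k] in
theorem UNC1_cpt (t : P.V) : ∃ x : P.Pt k, rp x t ≠ 0 ∧ ∀ s ≠ t, rp x s = 0 := by
  classical
  obtain ⟨x, μ, h1, h2⟩ := MP_ffcd14_ag.exists_pt (k := k) (Pi.single t 1)
    (UNC1_blk (α := fun s => (Pi.single t 1 : P.V → k) s ≠ 0) (t := t) (by simp))
  exact ⟨x, by simpa [h2] using h1 _, fun s hs => by simp [h2, hs]⟩

omit [IsAlgClosed k] [Unique P.ι] in
theorem UNC1_col {z : (P.sum P).Pt k} :
    Col p (fst z) (snd z) ↔ ∀ s ≠ p, ∀ t ≠ p, ev z (mn k s t) = 0 := by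
  simp only [ev_mn, sub_eq_zero, Col]

omit [IsAlgClosed k] [Unique P.ι] in
theorem UNC1_dia {x y : P.Pt k} (h : x = y) : Col p x y := fun _ _ _ _ => by rw [h, mul_comm]

theorem UNC1_ne (hY : Y.pts = Set.univ) (hd : 0 < Y.dim) (p : P.V) : ∃ s, s ≠ p := by
  have h := univ_dim hY
  rw [Nat.card_unique] at h
  have : Nontrivial P.V := Finite.one_lt_card_iff_nontrivial.1 (by omega)
  exact exists_ne p

theorem exists_col (p : P.V) : ∃ C : Sub k (P.sum P), ∀ z, z ∈ C ↔ Col p (fst z) (snd z) := by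
  classical
  let w : (P.sum P).V → MvPolynomial (P.V ⊕ Fin 4) k :=
    Amb.elim (fun s => if s = p then X (.inr 1) else X (.inr 0) * X (.inl s))
      fun s => if s = p then X (.inr 3) else X (.inr 2) * X (.inl s)
  have wl : ∀ s, w (vl s) = if s = p then X (.inr 1) else X (.inr 0) * X (.inl s) := fun _ => rfl
  have wr : ∀ s, w (vr s) = if s = p then X (.inr 3) else X (.inr 2) * X (.inl s) := fun _ => rfl
  obtain ⟨U, hU⟩ := G3b_loc (k := k) w ⊥ (by
    rintro (i | i)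
    · exact UNC1_blk (α := fun s => w (vl s) ∉ (⊥ : Ideal _)) (t := p) (by simp [wl]) i
    · exact UNC1_blk (α := fun s => w (vr s) ∉ (⊥ : Ideal _)) (t := p) (by simp [wr]) i)
  refine ⟨U, fun z => ⟨fun hz => UNC1_col.2 fun s hs t ht => (hU _ _ (mn_form s t)).1 ?_ z hz,
    fun hz => subset_of_van (B := {z}) U.isClosed (fun f a hf hv y hy => ?_) rfl⟩⟩
  · simp only [mn, map_sub, map_mul, aeval_X, wl, wr, if_neg hs, if_neg ht, Ideal.mem_bot]
    ring
  obtain rfl : y = z := hy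
  obtain ⟨v, α, γ, -, h1, -⟩ := UNC1_vec hz
  have h2 := comp_aeval_apply w (aeval (Sum.elim v ![α, rp (fst y) p, γ, rp (snd y) p])) f
  rw [Ideal.mem_bot.1 ((hU f a hf).2 hv), map_zero] at h2
  rw [ev_eq, ← coe_aeval_eq_eval]
  refine Eq.trans (congrArg (fun u => aeval u f) (funext ?_)) h2.symm
  rintro ⟨i | i, s⟩
  · change rp (fst y) ⟨i, s⟩ = aeval _ (w (vl ⟨i, s⟩))
    rw [wl]
    split_ifs with e
    · simp [e]
    · simp [(h1 _ e).1]
  · change rp (snd y) ⟨i, s⟩ = aeval _ (w (vr ⟨i, s⟩))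
    rw [wr]
    split_ifs with e
    · simp [e]
    · simp [(h1 _ e).2]

variable (k) in
/-- The pairs of points on a line through the coordinate point `p`. -/
noncomputable def col (p : P.V) : Sub k (P.sum P) := (exists_col p).choose

theorem mem_col {z : (P.sum P).Pt k} : z ∈ col k p ↔ Col p (fst z) (snd z) :=
  (exists_col p).choose_spec z

theorem sg_col (σ : k ≃+* k) (p : P.V) : sg σ (col k p) = col k p := by
  ext z
  rw [← D0_pt σ z, SetLike.mem_coe, SetLike.mem_coe, mem_sg, mem_col, mem_col, UNC1_col, UNC1_col]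
  refine forall₄_congr fun s _ t _ => ?_
  rw [← ev_pt σ _ (mn_form s t), mn, map_sub, map_mul, map_mul, mp_X, mp_X, mp_X, mp_X]

theorem exists_dh (hY : Y.pts = Set.univ) (hd : 0 < Y.dim) (p : P.V) : ∃ D : Sub k (P.sum P),
    (∀ z, z ∈ D ↔ fst z = snd z ∧ rp (fst z) p = 0) ∧ sdim D + 1 = Y.dim := by
  obtain ⟨t, ht⟩ := UNC1_ne hY hd p
  have hf := IsForm.X (k := k) p
  have hp : (Ideal.span {X p} : Ideal (MvPolynomial P.V k)).IsPrime :=
    (Ideal.span_singleton_prime (X_ne_zero _)).2 X_prime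
  obtain ⟨T, hT⟩ := exists_idl (Gc_hmg hf) (UNC1_blk (α := fun s => X s ∉ Ideal.span {X p})
    (t := t) fun e => ht (X_dvd_X.1 (Ideal.mem_span_singleton.1 e)).symm)
  have h1 : Van (T : Set (P.Pt k)) (X p) := van_idl (hT ▸ Ideal.mem_span_singleton_self _)
  have h2 : ∀ x, x ∈ T ↔ ev x (X p) = 0 := fun x => ⟨h1 x, fun hx =>
    subset_of_van (B := {x}) T.isClosed (fun f a hf hv y hy => by
      obtain ⟨c, rfl⟩ := Ideal.mem_span_singleton.1 (hT ▸ (mem_idl hf).2 hv)
      rw [ev_mul, show y = x from hy, hx, zero_mul]) rfl⟩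
  have h3 : ∀ x, x ∈ Y.tp := fun x => show x ∈ Y.pts from hY ▸ Set.mem_univ x
  obtain ⟨x, hx, -⟩ := UNC1_cpt (k := k) p
  obtain ⟨U, h4, -, h5, h6⟩ := krg (show T ≤ Y.tp from fun x _ => h3 x) hf
    (fun e => hx ((ev_X x p).symm.trans (e x (h3 x)))) h1
  obtain rfl : T = U := le_antisymm h4 fun x hx => (h2 x).2 (h5 x hx)
  refine ⟨((Crd.refl k P).pair (Crd.refl k P)).img T, fun z => ?_, ?_⟩
  · rw [Crd.mem_img_iff]
    constructor
    · rintro ⟨y, hy, rfl⟩
      exact ⟨rfl, (ev_X y p).symm.trans (h1 y hy)⟩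
    · rintro ⟨h7, h8⟩
      exact ⟨fst z, (h2 _).2 ((ev_X _ p).trans h8), bij_sum.ext rfl h7⟩
  · rw [sdim_img_of_inj ((Crd.refl k P).pair (Crd.refl k P)) fun x _ y _ e => congrArg fst e, h6,
      Y.sdim_tp]

omit [IsAlgClosed k] in
theorem kill (hp : ∃ s, s ≠ p) {g : MvPolynomial (P.sum P).V k} {a : (P.sum P).ι →₀ ℕ}
    (hg : IsForm g a) (h : ∀ z, fst z = snd z → rp (fst z) p = 0 → ev z g = 0) :
    ∃ g', IsForm g' a ∧ (∀ z, Col p (fst z) (snd z) → ev z g' = 0) ∧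
      g - g' ∈ Ideal.ofList [X (vl p), X (vr p)] := by
  classical
  let F : (P.sum P).V → MvPolynomial (P.sum P).V k := fun s =>
    if s = vl p ∨ s = vr p then 0 else X s
  refine ⟨aeval F g, ?_, fun z hz => ?_, ?_⟩
  · have h1 := IsForm.aeval (F := F) (b := fun i => single i 1) (fun s => by
      by_cases e : s = vl p ∨ s = vr p
      · simp only [F, if_pos e]
        exact isWeightedHomogeneous_zero k _ _
      · simp only [F, if_neg e]
        exact IsForm.X s) hg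
    simpa using h1
  · obtain ⟨v, α, γ, h0, h1, h2⟩ := UNC1_vec hz
    obtain ⟨t, ht⟩ := h2 hp
    obtain ⟨x, μ, h3, h4⟩ := MP_ffcd14_ag.exists_pt v (UNC1_blk (α := fun s => v s ≠ 0) ht)
    have h5 : ∀ s, rp x s = μ s.1 * v s := congrFun h4
    have h6 := hg.eval_scale (Sum.elim (fun i => α / μ i) fun i => γ / μ i) (rp (mkPt x x))
    rw [← ev_eq, h (mkPt x x) rfl (by change rp x p = 0; rw [h5, h0, mul_zero]), mul_zero] at h6
    rw [ev_eq, ← coe_aeval_eq_eval]
    refine (comp_aeval_apply F (aeval (rp z)) g).trans (Eq.trans ?_ h6)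
    rw [← coe_aeval_eq_eval]
    refine congrArg (fun u => aeval u g) (funext ?_)
    have hl : ∀ s : P.V, (vl s = (vl p : (P.sum P).V) ∨ vl s = (vr p : (P.sum P).V)) ↔ s = p :=
      fun s => ⟨fun e => e.elim (fun e => (Blk.inl (k := k) P P).inj e)
        fun e => (Sum.inl_ne_inr (congrArg Sigma.fst e)).elim, fun e => Or.inl (e ▸ rfl)⟩
    have hr : ∀ s : P.V, (vr s = (vl p : (P.sum P).V) ∨ vr s = (vr p : (P.sum P).V)) ↔ s = p :=
      fun s => ⟨fun e => e.elim (fun e => (Sum.inr_ne_inl (congrArg Sigma.fst e)).elim)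
        fun e => (Blk.inr (k := k) P P).inj e, fun e => Or.inr (e ▸ rfl)⟩
    rintro ⟨i | i, s⟩
    · change aeval (rp z) (F (vl ⟨i, s⟩)) = α / μ i * rp x ⟨i, s⟩
      simp only [F, hl, h5]
      split_ifs with e
      · rw [e, h0, map_zero, mul_zero, mul_zero]
      · rw [aeval_X, ← mul_assoc, div_mul_cancel₀ _ (h3 i)]
        exact (h1 _ e).1
    · change aeval (rp z) (F (vr ⟨i, s⟩)) = γ / μ i * rp x ⟨i, s⟩
      simp only [F, hr, h5]
      split_ifs with e
      · rw [e, h0, map_zero, mul_zero, mul_zero]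
      · rw [aeval_X, ← mul_assoc, div_mul_cancel₀ _ (h3 i)]
        exact (h1 _ e).2
  · clear hg h
    induction g using MvPolynomial.induction_on with
    | C c => simp
    | add f g hf hg =>
      rw [map_add, add_sub_add_comm]
      exact add_mem hf hg
    | mul_X f s hf =>
      have h1 : X s - F s ∈ Ideal.ofList [(X (vl p) : MvPolynomial (P.sum P).V k), X (vr p)] := by
        by_cases e : s = vl p ∨ s = vr p
        · simp only [F, if_pos e, sub_zero]
          refine Ideal.subset_span ?_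
          obtain rfl | rfl := e <;> simp
        · simp only [F, if_neg e, sub_self, zero_mem]
      rw [map_mul, aeval_X, show f * X s - aeval F f * F s =
        (f - aeval F f) * F s + f * (X s - F s) by ring]
      exact add_mem (Ideal.mul_mem_right _ _ hf) (Ideal.mul_mem_left _ _ h1)

omit [IsAlgClosed k] [Unique P.ι] in
theorem UNC1_fm (p : P.V) : Fm [(X (vl p) : MvPolynomial (P.sum P).V k), X (vr p)] := by
  intro f hf
  obtain rfl | rfl : f = X (vl p) ∨ f = X (vr p) := by simpa using hf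
  all_goals exact ⟨_, IsForm.X _⟩

omit [IsAlgClosed k] [Unique P.ι] in
theorem UNC1_van {D : Sub k (P.sum P)} (hD : ∀ z, z ∈ D ↔ fst z = snd z ∧ rp (fst z) p = 0) :
    ∀ f ∈ [(X (vl p) : MvPolynomial (P.sum P).V k), X (vr p)],
      Van (D : Set ((P.sum P).Pt k)) f := by
  intro f hf z hz
  obtain ⟨h1, h2⟩ := (hD z).1 hz
  obtain rfl | rfl : f = X (vl p) ∨ f = X (vr p) := by simpa using hf
  · exact (ev_X _ _).trans h2
  · exact (ev_X _ _).trans (show rp (snd z) p = 0 from h1 ▸ h2)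

theorem UNC1_le {D U : Sub k (P.sum P)} (hD : ∀ z, z ∈ D ↔ fst z = snd z ∧ rp (fst z) p = 0)
    (hU : U ≤ col k p) (h1 : Van (U : Set ((P.sum P).Pt k)) (X (vl p)))
    (h2 : Van (U : Set ((P.sum P).Pt k)) (X (vr p))) : U ≤ D := by
  intro z hz
  have h3 : rp (fst z) p = 0 := (ev_X z (vl p)).symm.trans (h1 z hz)
  have h4 : rp (snd z) p = 0 := (ev_X z (vr p)).symm.trans (h2 z hz)
  refine (hD z).2 ⟨eq_iff_mn.2 fun s t => ?_, h3⟩
  by_cases hs : s = p
  · rw [hs, h3, h4, zero_mul, mul_zero]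
  by_cases ht : t = p
  · rw [ht, h3, h4, zero_mul, mul_zero]
  exact mem_col.1 (hU hz) s hs t ht

theorem col_dim (hY : Y.pts = Set.univ) (hd : 0 < Y.dim) (p : P.V) :
    sdim (col k p) = Y.dim + 1 := by
  obtain ⟨D, hD, h1⟩ := exists_dh hY hd p
  obtain ⟨E, hE, h2⟩ := exists_dia Y
  obtain ⟨t, ht⟩ := UNC1_ne hY hd p
  obtain ⟨x, hx, hx'⟩ := UNC1_cpt (k := k) p
  obtain ⟨y, -, hy⟩ := UNC1_cpt (k := k) t
  have h3 : ∀ z, z ∈ E → fst z = snd z := fun z hz => (hE.le hz).2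
  have h4 : E < col k p := lt_of_le_of_ne (fun z hz => mem_col.2 (UNC1_dia (h3 z hz))) fun e => by
    have h5 : x = y := h3 (mkPt x y) (e ▸ mem_col.2 fun s hs t ht => by
      change rp x s * _ = rp x t * _
      rw [hx' s hs, hx' t ht, zero_mul, zero_mul])
    exact hx (h5 ▸ hy p ht.symm)
  obtain ⟨U, -, h5, h6, h7⟩ := krull_list (UNC1_fm p) (V := col k p)
    (fun z hz => mem_col.2 (UNC1_dia ((hD z).1 hz).1)) (UNC1_van hD)
  have h8 := sdim_mono (UNC1_le hD h5 (h6 _ (by simp)) (h6 _ (by simp)))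
  have h9 := sdim_lt h4
  simp only [List.length_cons, List.length_nil] at h7
  omega

theorem cut_col (hY : Y.pts = Set.univ) (hd : 0 < Y.dim) {D : Sub k (P.sum P)}
    (hD : ∀ z, z ∈ D ↔ fst z = snd z ∧ rp (fst z) p = 0) (hD' : sdim D + 1 = Y.dim) :
    cut [X (vl p), X (vr p)] (cS (col k p)) = cS D := by
  refine cut_one (UNC1_fm p) (fun z hz => mem_col.2 (UNC1_dia ((hD z).1 hz).1)) (UNC1_van hD)
    (by rw [col_dim hY hd, ← hD']; rfl)
    (fun U hU h => UNC1_le hD hU (h _ (by simp)) (h _ (by simp))) fun g a hg hv => ?_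
  obtain ⟨g', h1, h2, h3⟩ := kill (UNC1_ne hY hd p) hg fun z h4 h5 => hv z ((hD z).2 ⟨h4, h5⟩)
  refine ⟨1, (Ideal.ne_top_iff_one _).1 (idl_prime _).ne_top, ?_⟩
  rw [one_mul, ← add_sub_cancel g' g]
  exact add_mem (Ideal.mem_sup_left ((mem_idl h1).2 fun z hz => h2 z (mem_col.1 hz)))
    (Ideal.mem_sup_right h3)

theorem cut_dia (hd : 0 < Y.dim) (hY : Y.pts = Set.univ) {D E : Sub k (P.sum P)}
    (hD : ∀ z, z ∈ D ↔ fst z = snd z ∧ rp (fst z) p = 0) (hD' : sdim D + 1 = Y.dim)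
    (hE : ∀ z, z ∈ E ↔ fst z = snd z) (hE' : sdim E = Y.dim) :
    cut [X (vl p)] (cS E) = cS D := by
  obtain ⟨t, ht⟩ := UNC1_ne hY hd p
  obtain ⟨y, hy, hy'⟩ := UNC1_cpt (k := k) t
  refine cut_one (fun f hf => UNC1_fm p f (by simp [List.mem_singleton.1 hf]))
    (fun z hz => (hE z).2 ((hD z).1 hz).1)
    (fun f hf => UNC1_van hD f (by simp [List.mem_singleton.1 hf])) (by rw [hE', ← hD']; rfl)
    (fun U hU h z hz => (hD z).2 ⟨(hE z).1 (hU hz),
      (ev_X z (vl p)).symm.trans (h _ (by simp) z hz)⟩)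
    fun g a hg hv => ?_
  obtain ⟨g', h1, h2, h3⟩ := kill ⟨t, ht⟩ hg fun z h4 h5 => hv z ((hD z).2 ⟨h4, h5⟩)
  refine ⟨X (vl t), fun e => hy ((ev_X (mkPt y y) (vl t)).symm.trans
    (van_idl e (mkPt y y) ((hD _).2 ⟨rfl, hy' p ht.symm⟩))), ?_⟩
  rw [Ideal.ofList_cons, Ideal.ofList_singleton, ← Ideal.span_insert, Ideal.mem_span_pair] at h3
  obtain ⟨b, c, h3⟩ := h3
  rw [show X (vl t) * g = X (vl t) * g' + c * mn k t p + (X (vl t) * b + c * X (vr t)) * X (vl p) by
    rw [mn]; linear_combination (-X (vl t)) * h3]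
  refine add_mem (Ideal.mem_sup_left (add_mem (Ideal.mul_mem_left _ _ ?_)
    (Ideal.mul_mem_left _ _ ?_))) (Ideal.mem_sup_right (Ideal.mul_mem_left _ _ ?_))
  · exact (mem_idl h1).2 fun z hz => h2 z (UNC1_dia ((hE z).1 hz))
  · exact (mem_idl (mn_form t p)).2 fun z hz => by
      rw [ev_mn, (hE z).1 hz, mul_comm, sub_self]
  · exact Ideal.subset_span (by simp)

theorem cls_col (hY : Y.pts = Set.univ) (hd : 0 < Y.dim) {u : CR (M2 Y).Z}
    (hu : CR.val _ u = cls (Y.prod Y) (cS (col k p))) :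
    hx Y * hy Y * u = hx Y * (Mod.one Y).dl := by
  obtain ⟨D, hD, h1⟩ := exists_dh hY hd p
  obtain ⟨E, hE, h2⟩ := exists_dia Y
  obtain ⟨x, hx, -⟩ := UNC1_cpt (k := k) p
  have h3 : ∀ z, z ∈ E ↔ fst z = snd z := fun z => by
    rw [← SetLike.mem_coe, hE, hY]
    simp
  have h4 : ∀ z, z ∈ (Y.prod Y).pts := fun z => mem_prod.2 (by simp [hY])
  have h5 : ¬ Van (E : Set ((P.sum P).Pt k)) (X (vl p)) := fun e =>
    hx ((ev_X (mkPt x x) (vl p)).symm.trans (e (mkPt x x) ((h3 _).2 rfl)))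
  have hl : IsForm (X (vl p) : MvPolynomial (P.sum P).V k) (single (Sum.inl default) 1) :=
    Unique.eq_default p.1 ▸ IsForm.X (vl p)
  have hr : IsForm (X (vr p) : MvPolynomial (P.sum P).V k) (single (Sum.inr default) 1) :=
    Unique.eq_default p.1 ▸ IsForm.X (vr p)
  have h6 := dvc_two (Z := Y.prod Y) hl hr (fun z _ => h4 z)
    (PL_two (V := col k p) (fun e => h5 fun z hz => e z (mem_col.2 (UNC1_dia ((h3 z).1 hz))))
      fun T hT a b => by
        have := sdim_mono (UNC1_le hD hT a b)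
        rw [col_dim hY hd]
        omega) hu
  have h7 := dvc_mul (Z := Y.prod Y) (u := (Mod.one Y).dl) (c := cS E) (cS_mem fun z _ => h4 z)
    ((Mod.one Y).val_dl.trans (by rw [cS, hE]; rfl)) hl fun V hV => by
      obtain rfl : E = V := by_contra fun e => hV (cS_ne e)
      exact h5
  rw [cut_col hY hd hD h1] at h6
  rw [cut_dia hd hY hD h1 h3 h2] at h7
  exact CR.ext (h6.trans h7.symm)

end Pool.Agent.Work.MP_10f4af_ag
end

-- merged part: Pool.Agent.Work.MP_10f4af_ag.UN.C2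
section
/-!
# The residual correspondence, as a cycle

Plan.  `tay2`: induction on `f` (`MvPolynomial.induction_on`), `pderiv_mul`.
`exists_G`: let `w = mn k t p`, `x s = X (vl s)`, `y s = X (vr s)`.  Modulo the minors `mn k t s`,
`s ≠ p`, which vanish on `col k p`, the vector `x t • y` is `y t • x + single p w`.  By `tay2` and
homogeneity, `x t ^ e * f y - y t ^ e * f x - w * y t ^ (e - 1) * (pderiv p f) x - w ^ 2 * R` is in
`idl (col k p)`.  Replace `R` by its component of degree `(e - 2, e - 2)` (`cpt`, `cpt_mul`,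
`cpt_self`, `idl_hmg`), and put `G = y t ^ (e - 1) * (pderiv p f) x + w * R`.  On the diagonal `w`
vanishes and the representatives `rp (fst z)`, `rp (snd z)` are equal.
`HS.pl`: `PL_two`; the pair of two coordinate points `p` is in `col k p` and not on `X`
(`HS.off`, `exists_pt`, `Bij.exists_pt`), `HS.col_dim`, `col_dim`, `univ_dim`.
`HS.out`: let `z ∈ T` with `fst z = snd z`, take `t ≠ p` with `rp (fst z) t ≠ 0` (`HS.off`) and `G`
from `exists_G`.  Then `mn k t p * G` vanishes on `T`.  If `mn k t p` vanishes on `T` then so does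
`X (vl t) * mn k s p = X (vl s) * mn k t p + X (vl p) * mn k s t` for `s ≠ p`, so all the minors
vanish on `T` (`Van.mul`, `eq_iff_mn`) and `T ≤ D`, `T = D` by `eq_of_sdim_le`.  So `G` vanishes
at `z`.
`HS.inn`: take `t`, `G` as above and `krull_list` for `[rename vl f, G]`, `{z} ≤ col k p`.  On the
subvariety `T` which is found `X (vl t) ^ e * rename vr f` vanishes and `X (vl t)` does not, so
`rename vr f` vanishes; `HS.col_dim` gives `sdim T = X.dim`.  If `T = D` then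
`X t ^ (e - 1) * pderiv p f` vanishes on `X`, against `HS.low` for `X.tp` with `S = {p}`, `U = ∅` or
`S = ∅`, `U = {t}` (`Van.mul`, `not_van_prod` or induction on the exponent).
-/

open MvPolynomial Finsupp Function Function.Embedding

namespace Pool.Agent.Work.MP_10f4af_ag

open MP_ffcd14_ag hiding len vl cyc pl Weil idl_hmg mem_idl idl_prime idl_le_iff lin

universe u

theorem tay2 {k A : Type u} [CommRing k] [CommRing A] [Algebra k A] {σ : Type} [DecidableEq σ]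
    (f : MvPolynomial σ k) (v : σ → A) (p : σ) (w : A) : ∃ R,
    aeval (v + Pi.single p w) f = aeval v f + w * aeval v (pderiv p f) + w ^ 2 * R := by
  induction f using MvPolynomial.induction_on with
  | C a => exact ⟨0, by simp⟩
  | add f g hf hg =>
    obtain ⟨R, hR⟩ := hf
    obtain ⟨S, hS⟩ := hg
    exact ⟨R + S, by simp only [map_add, hR, hS]; ring⟩
  | mul_X f s hf =>
    obtain ⟨R, hR⟩ := hf
    by_cases h : s = p
    · subst h
      refine ⟨aeval v (pderiv s f) + R * (v s + w), ?_⟩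
      simp only [map_mul, hR, aeval_X, pderiv_mul, pderiv_X_self, map_add, map_one, Pi.add_apply,
        Pi.single_eq_same]
      ring
    · refine ⟨R * v s, ?_⟩
      simp only [map_mul, hR, aeval_X, pderiv_mul, pderiv_X_of_ne h, map_add, map_zero,
        Pi.add_apply, Pi.single_eq_of_ne h]
      ring

theorem UNC2_aeval {k : Type u} [Field k] {P Q : Amb} (z : Q.Pt k) (v : P.V → MvPolynomial Q.V k)
    (g : MvPolynomial P.V k) : ev z (aeval v g) = eval (fun s => ev z (v s)) g := by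
  simp only [ev_eq]
  induction g using MvPolynomial.induction_on with
  | C a => simp
  | add p q hp hq => simp only [map_add, hp, hq]
  | mul_X p s h => simp only [map_mul, h, aeval_X, eval_X]

variable {k : Type u} [Field k] [IsAlgClosed k] {P : Amb} [Unique P.ι] {X Y : SV k P} {p : P.V}
  {f : MvPolynomial P.V k} {e : ℕ}

omit [IsAlgClosed k] in
theorem UNC2_scale (hf : IsForm f (single default e)) (c : k) (x : P.Pt k) :
    eval (fun s => c * rp x s) f = c ^ e * ev x f := by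
  have := hf.eval_scale (fun _ => c) (rp x)
  rwa [chi, prod_single_index (h := fun _ n => c ^ n) (pow_zero _)] at this

omit [IsAlgClosed k] [Unique P.ι] in
theorem UNC2_vl (z : (P.sum P).Pt k) (s : P.V) : ev z (MvPolynomial.X (vl s)) = rp (fst z) s :=
  eval_X _

omit [IsAlgClosed k] [Unique P.ι] in
theorem UNC2_vr (z : (P.sum P).Pt k) (s : P.V) : ev z (MvPolynomial.X (vr s)) = rp (snd z) s :=
  eval_X _

omit [IsAlgClosed k] [Unique P.ι] in
theorem UNC2_rl (z : (P.sum P).Pt k) (g : MvPolynomial P.V k) :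
    ev z (rename vl g) = ev (fst z) g := (Crd.inl k P P).ev_rename z g

omit [IsAlgClosed k] [Unique P.ι] in
theorem UNC2_rr (z : (P.sum P).Pt k) (g : MvPolynomial P.V k) :
    ev z (rename vr g) = ev (snd z) g := (Crd.inr k P P).ev_rename z g

omit [IsAlgClosed k] [Unique P.ι] in
theorem UNC2_pow {Q : Amb} (z : Q.Pt k) (g : MvPolynomial Q.V k) (n : ℕ) :
    ev z (g ^ n) = ev z g ^ n := map_pow (eval (rp z)) g n

theorem exists_G (hf : IsForm f (single default e)) (he : 2 ≤ e) {t : P.V} (ht : t ≠ p) :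
    ∃ G a, IsForm G a ∧ (∀ z ∈ col k p, rp (fst z) t ^ e * ev (snd z) f =
      rp (snd z) t ^ e * ev (fst z) f + ev z (mn k t p) * ev z G) ∧
      ∀ z, fst z = snd z → ev z G = rp (fst z) t ^ (e - 1) * ev (fst z) (pderiv p f) := by
  classical
  let v : P.V → MvPolynomial (P.sum P).V k := fun s => MvPolynomial.X (vr t) * MvPolynomial.X (vl s)
  let d : (P.sum P).ι →₀ ℕ := single (Sum.inl default) 1 + single (Sum.inr default) 1
  obtain ⟨R, hR⟩ := tay2 f v p (mn k t p)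
  have hv : ∀ s, IsForm (v s) d := fun s => by
    have := (IsForm.X (k := k) (vr (P := P) t)).mul (IsForm.X (vl s))
    rwa [add_comm, show (vl (Q := P) s).1 = Sum.inl default from
      congrArg Sum.inl (Unique.eq_default s.1), show (vr (P := P) t).1 = Sum.inr default from
      congrArg Sum.inr (Unique.eq_default t.1)] at this
  have hv' : ∀ s, IsForm ((v + Pi.single p (mn k t p) : P.V → _) s) d := fun s => by
    by_cases h : s = p
    · rw [h, Pi.add_apply, Pi.single_eq_same]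
      exact IsWeightedHomogeneous.add (hv p) (mn_form t p)
    · rw [Pi.add_apply, Pi.single_eq_of_ne h, add_zero]
      exact hv s
  have hw : mn k t p ≠ 0 := fun h => by
    have := congrArg (MvPolynomial.eval (Amb.elim (Pi.single t (1 : k)) (Pi.single p 1))) h
    simp [mn, vl, vr, Amb.elim, ht, ht.symm] at this
  have hd : ∀ u : P.V → MvPolynomial (P.sum P).V k, (∀ s, IsForm (u s) d) →
      IsForm (aeval u f) ((e - 1) • d + d) := fun u hu => by
    have := IsForm.aeval (b := fun _ => d) hu hf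
    rwa [sum_single_index (h := fun _ n => n • d) (zero_smul _ _),
      ← Nat.sub_add_cancel (by omega : 1 ≤ e), succ_nsmul]
      at this
  have h1 : (aeval v (pderiv p f) + mn k t p * R) * mn k t p =
      aeval (v + Pi.single p (mn k t p)) f - aeval v f := by
    rw [hR]
    ring
  have h2 : IsForm ((aeval v (pderiv p f) + mn k t p * R) * mn k t p) ((e - 1) • d + d) :=
    h1 ▸ (weightedHomogeneousSubmodule k _ _).sub_mem (hd _ hv') (hd _ hv)
  have h3 := cpt_self h2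
  rw [cpt_mul (mn_form t p)] at h3
  have ev1 : ∀ z : (P.sum P).Pt k, (fun s => ev z (v s)) = fun s => rp (snd z) t * rp (fst z) s :=
    fun z => funext fun s => by rw [ev_mul, UNC2_vl, UNC2_vr]
  refine ⟨_, _, mul_right_cancel₀ hw h3 ▸ cpt_form _ _, fun z hz => ?_, fun z hz => ?_⟩
  · have ev2 : (fun s => ev z ((v + Pi.single p (mn k t p) : P.V → _) s)) =
        fun s => rp (fst z) t * rp (snd z) s := funext fun s => by
      have h4 := congrFun (ev1 z) s
      by_cases h : s = p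
      · subst h
        rw [Pi.add_apply, Pi.single_eq_same, ev_eq, map_add, ← ev_eq, ← ev_eq, h4, ev_mn]
        ring
      · rw [Pi.add_apply, Pi.single_eq_of_ne h, add_zero, h4, mul_comm]
        exact mem_col.1 hz s h t ht
    rw [← UNC2_scale hf, ← UNC2_scale hf, ← ev1, ← ev2, ← UNC2_aeval, ← UNC2_aeval, mul_comm,
      ← ev_mul, h1, ev_eq, ev_eq, ev_eq, map_sub, add_sub_cancel]
  · have h4 : IsForm (pderiv p f) (single default (e - 1)) := by
      rw [form_iff, single_eq_same] at hf ⊢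
      exact hf.pderiv
    rw [ev_eq, map_add, map_mul, ← ev_eq, ← ev_eq, ev_mn, UNC2_aeval, ev1, UNC2_scale h4, hz]
    ring

theorem HS.pl (h : HS X f e) (hY : Y.pts = Set.univ) (p : P.V) :
    sdim (col k p) = X.dim + 2 ∧ PL [rename vl f, rename vr f] (col k p) := by
  classical
  have h1 := univ_dim hY
  rw [Nat.card_unique, h.card] at h1
  have h2 : sdim (col k p) = X.dim + 2 := by
    rw [MP_10f4af_ag.col_dim hY (by omega)]
    omega
  refine ⟨h2, PL_two (fun c => ?_) fun T hT a b => ?_⟩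
  · obtain ⟨x, μ, -, hx⟩ := exists_pt (Pi.single p (1 : k)) fun i =>
      G1_ex (p := fun s => (Pi.single p (1 : k) : P.V → k) s ≠ 0) (Subsingleton.elim p.1 i)
        (by simp)
    obtain ⟨z, z1, z2⟩ := bij_sum.exists_pt x x
    rw [← fst_eq] at z1
    rw [← snd_eq] at z2
    have h3 := c z (mem_col.2 fun s _ t _ => by rw [z1, z2, mul_comm])
    rw [UNC2_rl, z1] at h3
    obtain ⟨s, s1, s2⟩ := h.off ((h.pts x).2 h3) p
    exact s2 (by simp [hx, s1])
  · rw [h2]
    exact Nat.add_le_add_right (h.col_dim p fun z hz => ⟨(h.pts _).2 (UNC2_rl z f ▸ a z hz),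
      (h.pts _).2 (UNC2_rr z f ▸ b z hz), mem_col.1 (hT hz)⟩) 2

variable (h : HS X f e) {D T : Sub k (P.sum P)}
  (hD : (D : Set ((P.sum P).Pt k)) = {z | fst z ∈ X.pts ∧ fst z = snd z}) (hD' : sdim D = X.dim)
include h hD hD'

theorem HS.out (hT : T ≤ col k p) (h1 : Van (T : Set ((P.sum P).Pt k)) (rename vl f))
    (h2 : Van (T : Set ((P.sum P).Pt k)) (rename vr f)) (hd : sdim T = X.dim) (hn : T ≠ D)
    {z : (P.sum P).Pt k} (hz : z ∈ T) : Out X f p (fst z) (snd z) := by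
  have a1 : ∀ y ∈ T, ev (fst y) f = 0 := fun y hy => UNC2_rl y f ▸ h1 y hy
  have a2 : ∀ y ∈ T, ev (snd y) f = 0 := fun y hy => UNC2_rr y f ▸ h2 y hy
  refine ⟨(h.pts _).2 (a1 z hz), (h.pts _).2 (a2 z hz), mem_col.1 (hT hz), fun he => ?_⟩
  obtain ⟨t, ht, ht'⟩ := h.off ((h.pts _).2 (a1 z hz)) p
  obtain ⟨G, a, g1, g2, g3⟩ := exists_G h.form h.two ht
  rcases Van.mul (Z := T) (mn_form t p) g1 (fun y hy => by
    have := g2 y (hT hy)
    rw [a1 y hy, a2 y hy, mul_zero, mul_zero, zero_add] at this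
    rw [ev_mul, ← this]) with c | c
  · refine absurd (eq_of_sdim_le (fun y hy => ?_) (hD'.trans hd.symm).le) hn
    have c1 : ∀ y ∈ T, ∀ s, rp (fst y) t * rp (snd y) s = rp (fst y) s * rp (snd y) t := by
      intro y hy s
      by_cases hs : s = p
      · rw [hs, ← sub_eq_zero, ← ev_mn]
        exact c y hy
      · exact mem_col.1 (hT hy) t ht s hs
    rw [← SetLike.mem_coe, hD]
    refine ⟨(h.pts _).2 (a1 y hy), eq_iff_mn.2 fun s s' => ?_⟩
    rw [← sub_eq_zero, ← ev_mn]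
    refine (Van.mul (Z := T) (IsForm.X (vl t)) (mn_form s s') fun u hu => ?_).resolve_left
      (fun c2 => ht' (UNC2_vl z t ▸ c2 z hz)) y hy
    rw [ev_mul, UNC2_vl, ev_mn]
    linear_combination rp (fst u) s * c1 u hu s' - rp (fst u) s' * c1 u hu s
  · have := c z hz
    rw [g3 z he] at this
    exact (mul_eq_zero.1 this).resolve_left (pow_ne_zero _ ht')

omit hD' in
theorem HS.inn (hY : Y.pts = Set.univ) {z : (P.sum P).Pt k} (hz : fst z ∈ X.pts)
    (hz' : fst z = snd z) (h0 : ev (fst z) (pderiv p f) = 0) : ∃ T : Sub k (P.sum P), z ∈ T ∧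
      T ≤ col k p ∧ Van (T : Set ((P.sum P).Pt k)) (rename vl f) ∧
      Van (T : Set ((P.sum P).Pt k)) (rename vr f) ∧ sdim T = X.dim ∧ T ≠ D := by
  obtain ⟨t, ht, ht'⟩ := h.off hz p
  obtain ⟨G, a, g1, g2, g3⟩ := exists_G h.form h.two ht
  obtain ⟨U, u1, u2, u3, u4⟩ := krull_list (fs := [rename vl f, G]) (V := col k p) (T := {z})
    (by
      simp only [Fm, List.forall_mem_cons]
      exact ⟨⟨_, (Crd.inl k P P).form h.form⟩, ⟨a, g1⟩, by simp⟩)
    (Set.singleton_subset_iff.2 (mem_col.2 fun s _ t _ => by rw [hz', mul_comm]))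
    (by
      simp only [List.forall_mem_cons]
      refine ⟨?_, ?_, by simp⟩ <;> rintro y rfl
      · rw [UNC2_rl]
        exact (h.pts _).1 hz
      · rw [g3 y hz', h0, mul_zero])
  simp only [List.forall_mem_cons] at u3
  obtain ⟨v1, v2, -⟩ := u3
  have hzU : z ∈ U := u1 (Set.mem_singleton z)
  have v3 : Van (U : Set ((P.sum P).Pt k)) (rename vr f) := by
    refine (Van.mul (Z := U) (IsWeightedHomogeneous.pow (IsForm.X (vl t)) e)
      ((Crd.inr k P P).form h.form) fun y hy => ?_).resolve_left fun c => ?_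
    · have b1 := v1 y hy
      rw [UNC2_rl] at b1
      rw [ev_mul, UNC2_pow, UNC2_vl, ← vr_eq, UNC2_rr, g2 y (u2 hy), b1, v2 y hy, mul_zero,
        mul_zero, add_zero]
    · have := c z hzU
      rw [UNC2_pow, UNC2_vl] at this
      exact pow_ne_zero _ ht' this
  refine ⟨U, hzU, u2, v1, v3, le_antisymm (h.col_dim p fun y hy =>
    ⟨(h.pts _).2 (UNC2_rl y f ▸ v1 y hy), (h.pts _).2 (UNC2_rr y f ▸ v3 y hy),
      mem_col.1 (u2 hy)⟩) ?_, fun c => ?_⟩
  · rw [(h.pl hY p).1] at u4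
    exact Nat.le_of_add_le_add_right u4
  · rcases Van.mul (Z := X.tp) (IsWeightedHomogeneous.pow (IsForm.X t) (e - 1)) (h.pd p)
      (fun x hx => by
        obtain ⟨y, y1, y2⟩ := bij_sum.exists_pt x x
        rw [← fst_eq] at y1
        rw [← snd_eq] at y2
        have b1 := v2 y (by
          rw [c, hD]
          exact ⟨y1 ▸ hx, y1.trans y2.symm⟩)
        rw [g3 y (y1.trans y2.symm), y1] at b1
        rw [ev_mul, UNC2_pow, ev_X]
        exact b1) with c1 | c1
    · have := c1 _ hz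
      rw [UNC2_pow, ev_X] at this
      exact pow_ne_zero _ ht' this
    · have := h.low {p} ∅ (V := X.tp) subset_rfl (by simpa using c1) (by simp)
      rw [X.sdim_tp, Finset.card_singleton] at this
      omega

end Pool.Agent.Work.MP_10f4af_ag
end
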