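import Pool.Agent.Work.MP_10f4af_ag.UN.C2

/-!
# The residual correspondence

Plan.  `HS.inc_one`: `val_inc`, `CR.val_one`, `cyc_tp`, `val_dvc` (`f` does not vanish on `Y`,
otherwise the `cut` is zero by `cut_van`, but `cS_self`), `dvc_single`.
`HS.deg`: `dgr_inc`, `inc_pow` with `u = 1`, `HS.inc_one`, `dgr_linear`.
`exists_res`: `D` from `exists_dia X`, `A = cut [rename vl f, rename vr f] (cS (col k p))`,
`m = A (idl D)`, `c = A - m • cS D`.  By `cut_mem`, `HS.pl` the components of `A` are in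
`(X.prod X).pts` (`mem_prod`, `Crd.ev_rename`) and of dimension `X.dim`; `1 ≤ m` by `cut_pos`,
`cut_nat`.  Let `a : CR (M2 X).Z` be the class of `A` (`CR.mk`) and
`γ = (Cor.un _).symm (a - m • dl)`.  `Eff`: `c (idl D) = 0` and `c q = A q` otherwise (`cS_self`,
`cS_ne`, `idl_inj`, `Sp_to`), `HS.out`, `HS.inn`, `cut_pos`.
Invariance: `Cor.un_gal`, `gal_dg`, `CR.val_gal`, `tC_mk`, `tw_cut`, `tw_cS`, `sg_col`,
`mp_rename`.  Degrees: for `dl` use `dgr_xy`, `pull_hx`, `pull_hy`, `map_pow`, `pow_add`.  For `a`: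
`dgr_one`, `dgr_inc` for `(X.prod X).pts ⊆ (Y.prod Y).pts`, `inc_pow` twice; by `val_inc`, `dvc_two`
the image of `a` is `dvc _ (single (inl default) e) * dvc _ (single (inr default) e) * u` with `u`
the class of `col k p` (`Crd.form`, `mapDomain_single`); `dvc_single`, `cls_col`, `dgr_xy` on `Y`,
`HS.deg`.
-/

open MvPolynomial Finsupp Function Function.Embedding

namespace Pool.Agent.Work.MP_10f4af_ag

open MP_ffcd14_ag hiding len vl cyc pl Weil idl_hmg mem_idl idl_prime idl_le_iff lin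

universe u

variable {k : Type u} [Field k] [IsAlgClosed k] {P : Amb} [Unique P.ι] {X Y : SV k P}
  {f : MvPolynomial P.V k} {e : ℕ} (h : HS X f e) (hY : Y.pts = Set.univ)
  (hd : cut [f] (cS Y.tp) = cS X.tp)
include h hY hd

theorem HS.inc_one : CR.inc (A := X) (B := Y) (hY ▸ Set.subset_univ _) 1 = (e : ℚ) • hh Y := by
  have hn : ¬ Van Y.pts f := fun hv => by
    have h1 := cS_self X.tp
    rw [← hd, cut_van (V := Y.tp) h.form hv] at h1
    exact zero_ne_one h1
  have h2 : (e : ℚ) • hh Y = dvc Y (single default e) := (dvc_single Y default e).symm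
  rw [h2]
  refine CR.ext ?_
  rw [val_inc _ (c := cS X.tp) rfl, val_dvc h.form hn, hd]

theorem HS.deg :
    (Mod.one X).dgr (hh X ^ X.dim) = e * (Mod.one Y).dgr (hh Y ^ (X.dim + 1)) := by
  have h1 := inc_pow (A := X) (B := Y) (hY ▸ Set.subset_univ _) (single default 1) X.dim 1
  rw [h.inc_one hY hd, mul_one] at h1
  have h2 : hh Y ^ X.dim * ((e : ℚ) • hh Y) = (e : ℚ) • hh Y ^ (X.dim + 1) := by
    rw [pow_succ]
    exact mul_smul_comm _ _ _
  have h3 := dgr_inc (A := X) (B := Y) (hY ▸ Set.subset_univ _) (dvc X (single default 1) ^ X.dim)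
  exact (h3.symm.trans (congrArg (Mod.one Y).dgr (h1.trans h2))).trans
    ((dgr_linear (Mod.one Y)).map_smul _ _)

omit h hY hd in
theorem UNC3_dl (Z : SV k P) (i j : ℕ) :
    (M2 Z).dgr ((Mod.one Z).dl * (hx Z ^ i * hy Z ^ j)) = (Mod.one Z).dgr (hh Z ^ (i + j)) := by
  rw [← pull_hx, ← pull_hy, ← map_pow, ← map_pow, pow_add]
  exact dgr_xy (Mod.one Z) _ _

omit hY hd [IsAlgClosed k] in
theorem UNC3_fl : IsForm (rename (vl : P.V → (P.sum P).V) f) (single (Sum.inl default) e) := by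
  have := (Crd.inl k P P).form h.form
  rwa [mapDomain_single] at this

omit hY hd [IsAlgClosed k] in
theorem UNC3_fr : IsForm (rename (vr : P.V → (P.sum P).V) f) (single (Sum.inr default) e) := by
  have := (Crd.inr k P P).form h.form
  rwa [mapDomain_single] at this

theorem UNC3_a (p : P.V) {a : CR (M2 X).Z}
    (ha : CR.val _ a = cls (X.prod X) (cut [rename vl f, rename vr f] (cS (col k p)))) {i j : ℕ}
    (hij : i + j = X.dim) :
    (M2 X).dgr (a * (hx X ^ i * hy X ^ j)) = e * (Mod.one X).dgr (hh X ^ X.dim) := by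
  have hU : ∀ z, z ∈ (Y.prod Y).pts := fun z => mem_prod.2 ⟨hY ▸ trivial, hY ▸ trivial⟩
  have hs : (X.prod X).pts ⊆ (Y.prod Y).pts := fun z _ => hU z
  have hy0 : 0 < Y.dim := by
    have h1 := univ_dim hY
    rw [h.card, Nat.card_unique] at h1
    omega
  obtain ⟨u, hu⟩ : ∃ u : CR (Y.prod Y), CR.val _ u = cls (Y.prod Y) (cS (col k p)) :=
    ⟨CR.mk _ (G1_TC (V := col k p) fun z _ => hU z), rfl⟩
  have h1 : CR.inc hs a = ((e : ℚ) * e) • (hx Y * (Mod.one Y).dl) := by
    rw [← cls_col hY hy0 hu]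
    refine Eq.trans (CR.ext ((val_inc hs ha).trans (dvc_two (UNC3_fl h) (UNC3_fr h)
      (fun z _ => hU z) (h.pl hY p).2 hu).symm)) ?_
    rw [dvc_single, dvc_single _ _ e, smul_mul_smul_comm, smul_mul_assoc]
    rfl
  have h3 : hx Y ^ i * (hy Y ^ j * (((e : ℚ) * e) • (hx Y * (Mod.one Y).dl))) =
      ((e : ℚ) * e) • ((Mod.one Y).dl * (hx Y ^ (i + 1) * hy Y ^ j)) := by
    rw [mul_smul_comm, mul_smul_comm]
    exact congrArg (fun t => ((e : ℚ) * e) • t) (by ring)
  have h2 : CR.inc hs (hx X ^ i * (hy X ^ j * a)) =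
      ((e : ℚ) * e) • ((Mod.one Y).dl * (hx Y ^ (i + 1) * hy Y ^ j)) := by
    refine (inc_pow hs _ i _).trans (Eq.trans (congrArg _ ((inc_pow hs _ j a).trans ?_)) h3)
    exact congrArg _ h1
  have h4 := (congrArg (Mod.one (Y.prod Y)).dgr h2).symm.trans
    (dgr_inc hs (hx X ^ i * (hy X ^ j * a)))
  have h5 := (dgr_one (M2 Y) _).trans (h4.trans (dgr_one (M2 X) _).symm)
  rw [(dgr_linear (M2 Y)).map_smul, UNC3_dl, show i + 1 + j = X.dim + 1 by omega] at h5
  rw [h.deg hY hd, ← mul_assoc (e : ℚ), mul_comm a, mul_assoc (hx X ^ i)]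
  exact h5.symm

theorem HS.exists_res (p : P.V) : ∃ γ : Cor (Mod.one X), ∃ m : ℚ, 1 ≤ m ∧
    Eff (M2 X).Z (Cor.un _ γ) X.dim {z | Out X f p (fst z) (snd z)}
      {z | Out X f p (fst z) (snd z)} ∧
    (∀ (σ : k ≃+* k) (hσ : Stab σ X.pts), mp σ P f = f → Cor.gal (Mod.one X) hσ γ = γ) ∧
    ∀ i j, i + j = X.dim → (M2 X).dgr (Cor.un _ γ * (hx X ^ i * hy X ^ j)) =
      (e - m) * (Mod.one X).dgr (hh X ^ X.dim) := by
  obtain ⟨D, hD, hD'⟩ := exists_dia X
  obtain ⟨hc, hpl⟩ := h.pl hY p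
  have hf : Fm [rename (vl : P.V → (P.sum P).V) f, rename vr f] := by
    intro g hg
    rcases List.mem_pair.1 hg with rfl | rfl
    · exact ⟨_, UNC3_fl h⟩
    · exact ⟨_, UNC3_fr h⟩
  have el : ∀ z : (P.sum P).Pt k, ev z (rename vl f) = ev (fst z) f :=
    fun z => (Crd.inl k P P).ev_rename z f
  have er : ∀ z : (P.sum P).Pt k, ev z (rename vr f) = ev (snd z) f :=
    fun z => (Crd.inr k P P).ev_rename z f
  have mD : ∀ z, z ∈ D → fst z ∈ X.pts ∧ fst z = snd z := fun z hz => by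
    have : z ∈ (D : Set ((P.sum P).Pt k)) := hz
    rwa [hD] at this
  have hDc : D ≤ col k p := fun z hz => mem_col.2 fun s _ t _ => by
    rw [← (mD z hz).2, mul_comm]
  have hv : ∀ T : Sub k (P.sum P), Van (T : Set ((P.sum P).Pt k)) (rename vl f) →
      Van (T : Set ((P.sum P).Pt k)) (rename vr f) →
      ∀ g ∈ [rename (vl : P.V → (P.sum P).V) f, rename vr f],
        Van (T : Set ((P.sum P).Pt k)) g := fun T h1 h2 g hg => by
    rcases List.mem_pair.1 hg with rfl | rfl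
    exacts [h1, h2]
  have hDv := hv D (fun z hz => (el z).trans ((h.pts _).1 (mD z hz).1))
    fun z hz => (er z).trans ((h.pts _).1 ((mD z hz).2 ▸ (mD z hz).1))
  have hDd : sdim D + [rename (vl : P.V → (P.sum P).V) f, rename vr f].length =
      sdim (col k p) := by
    rw [hc, hD']
    rfl
  have hin : ∀ T : Sub k (P.sum P), (∀ g ∈ [rename (vl : P.V → (P.sum P).V) f, rename vr f],
      Van (T : Set ((P.sum P).Pt k)) g) → (T : Set ((P.sum P).Pt k)) ⊆ (X.prod X).pts :=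
    fun T hT z hz => mem_prod.2
      ⟨(h.pts _).2 ((el z).symm.trans (hT _ (List.mem_pair.2 (Or.inl rfl)) z hz)),
        (h.pts _).2 ((er z).symm.trans (hT _ (List.mem_pair.2 (Or.inr rfl)) z hz))⟩
  have hA := cut_mem hf (col k p)
  have hnat := cut_nat [rename (vl : P.V → (P.sum P).V) f, rename vr f] (col k p)
  have hpos := fun T : Sub k (P.sum P) => cut_pos (T := T) hf hpl
  have htw : ∀ σ : k ≃+* k, mp σ P f = f →
      tw σ (P.sum P) (cut [rename vl f, rename vr f] (cS (col k p))) =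
        cut [rename vl f, rename vr f] (cS (col k p)) := fun σ hσ => by
    rw [← tw_cut, tw_cS, sg_col, List.map_cons, List.map_cons, List.map_nil, mp_rename, mp_rename,
      hσ]
  have hdeg := fun a => UNC3_a h hY hd p (a := a)
  generalize cut [rename vl f, rename vr f] (cS (col k p)) = A at hA hnat hpos htw hdeg
  obtain ⟨a, ha⟩ : ∃ a : CR (M2 X).Z, CR.val _ a = cls (X.prod X) A :=
    ⟨CR.mk _ ⟨A, Sp_mono (fun T hT => hin T hT.2.2) hA, rfl⟩, rfl⟩
  have hm := hpos D hDc hDv hDd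
  have hdl : CR.val _ (Mod.one X).dl = cls (X.prod X) (cS D) := by
    rw [Mod.val_dl]
    exact congrArg (cyc (X.prod X)) hD.symm
  have hz : (A - A (idl (D : Set ((P.sum P).Pt k))) • cS D)
      (idl (D : Set ((P.sum P).Pt k))) = 0 := by
    rw [Finsupp.sub_apply, Finsupp.smul_apply, cS_self, smul_eq_mul, mul_one, sub_self]
  have hnz : ∀ q, q ≠ idl (D : Set ((P.sum P).Pt k)) →
      (A - A (idl (D : Set ((P.sum P).Pt k))) • cS D) q = A q := fun q hq => by
    rw [Finsupp.sub_apply, Finsupp.smul_apply, cS, single_eq_of_ne hq, smul_zero, sub_zero]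
  refine ⟨(Cor.un _).symm (a - A (idl (D : Set ((P.sum P).Pt k))) • (Mod.one X).dl),
    A (idl (D : Set ((P.sum P).Pt k))), ?_, ?_, fun σ hσ hf' => ?_, fun i j hij => ?_⟩
  · obtain ⟨n, hn⟩ := hnat (idl (D : Set ((P.sum P).Pt k)))
    rw [hn] at hm ⊢
    exact_mod_cast hm
  · rw [LinearEquiv.apply_symm_apply]
    refine ⟨A - A (idl (D : Set ((P.sum P).Pt k))) • cS D, ?_, ?_, fun q => ?_, fun z hz' => ?_⟩
    · rw [map_sub, map_smul, ha, hdl]
      exact ((map_sub (Rt (X.prod X).pts).mkQ _ _).trans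
        (congrArg _ (map_smul (Rt (X.prod X).pts).mkQ _ _))).symm
    · refine Sp_to (sub_mem hA (Submodule.smul_mem _ _ (cS_mem ⟨hDc, hDd, hDv⟩)))
        fun T hT hT' => ?_
      have d : sdim T = X.dim := by
        have := hT.2.1
        rw [hc] at this
        exact Nat.add_right_cancel this
      refine ⟨hin T hT.2.2, fun z hz' => h.out hD hD' hT.1
        (hT.2.2 _ (List.mem_pair.2 (Or.inl rfl))) (hT.2.2 _ (List.mem_pair.2 (Or.inr rfl))) d
        (fun e => hT' (e ▸ hz)) hz', ?_⟩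
      rw [d]
      exact (prod_dim X X).symm
    · by_cases hq : q = idl (D : Set ((P.sum P).Pt k))
      · exact ⟨0, hq ▸ hz.trans Nat.cast_zero.symm⟩
      · exact (hnat q).imp fun n hn => (hnz q hq).trans hn
    · obtain ⟨T, h1, h2, h3, h4, h5, h6⟩ : ∃ T : Sub k (P.sum P), z ∈ T ∧ T ≤ col k p ∧
          Van (T : Set ((P.sum P).Pt k)) (rename vl f) ∧
          Van (T : Set ((P.sum P).Pt k)) (rename vr f) ∧ sdim T = X.dim ∧ T ≠ D := by
        by_cases hxy : fst z = snd z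
        · exact h.inn hD hY hz'.1 hxy (hz'.2.2.2 hxy)
        obtain ⟨U, u1, u2, u3, u4⟩ := krull_list hf (V := col k p) (T := {z})
          (Set.singleton_subset_iff.2 (mem_col.2 hz'.2.2.1)) (hv _
            (fun y hy => (show y = z from hy) ▸ (el z).trans ((h.pts _).1 hz'.1))
            fun y hy => (show y = z from hy) ▸ (er z).trans ((h.pts _).1 hz'.2.1))
        have hzU : z ∈ U := u1 (Set.mem_singleton z)
        refine ⟨U, hzU, u2, u3 _ (List.mem_pair.2 (Or.inl rfl)), u3 _ (List.mem_pair.2 (Or.inr rfl)),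
          le_antisymm (h.col_dim p fun y hy => ⟨(mem_prod.1 (hin U u3 hy)).1,
            (mem_prod.1 (hin U u3 hy)).2, mem_col.1 (u2 hy)⟩) ?_,
          fun c => hxy (mD z (c ▸ hzU)).2⟩
        rw [hc] at u4
        exact Nat.le_of_add_le_add_right u4
      exact ⟨T, h1, fun e => (hpos T h2 (hv T h3 h4) (by rw [hc, h5]; rfl)).ne'
        ((hnz _ fun e' => h6 (idl_inj e')).symm.trans e)⟩
  · refine (Cor.un _).injective ?_
    rw [Cor.un_gal, LinearEquiv.apply_symm_apply, map_sub, map_smul]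
    refine congrArg₂ _ (CR.ext ?_) (congrArg _ (gal_dg _ hσ _))
    rw [CR.val_gal, ha]
    exact (tC_mk _ A).trans (congrArg _ (htw σ hf'))
  · rw [LinearEquiv.apply_symm_apply, sub_mul, smul_mul_assoc, (dgr_linear (M2 X)).map_sub,
      (dgr_linear (M2 X)).map_smul, hdeg a ha hij, UNC3_dl, hij, smul_eq_mul, sub_mul]

end Pool.Agent.Work.MP_10f4af_ag
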