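import Pool.Agent.Work.MP_10f4af_ag.UN.E3
import Pool.Agent.Work.MP_10f4af_ag.UN.E1
import Pool.Agent.Work.MP_10f4af_ag.UN.C3

/-!
# Very general hypersurfaces of large degree
-/

open MvPolynomial Finsupp Function Function.Embedding

namespace Pool.Agent.Work.MP_10f4af_ag

open MP_ffcd14_ag hiding len vl cyc pl Weil idl_hmg mem_idl idl_prime idl_le_iff lin

universe u v w

variable {k : Type u} [Field k] [IsAlgClosed k] {P : Amb} {X Y : SV k P}
  {f : MvPolynomial P.V k}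

theorem HS.cp [Unique P.ι] {e : ℕ} (h : HS X f e) : CP X := fun U V hV hU => by
  simpa using h.low ∅ U hV (by simp) hU

theorem HS.not_num [Unique P.ι] {e : ℕ} (h : HS X f e) (h2 : (2 : k) ≠ 0)
    (hY : Y.pts = Set.univ) (hd : cut [f] (cS Y.tp) = cS X.tp) (hX : 2 ≤ X.dim)
    (he : X.dim + 2 ≤ e)
    (inv : ∀ t ∈ Cor.R0 (Mod.one X), (∀ (σ : k ≃+* k) (hσ : Stab σ X.pts), mp σ P f = f →
      Cor.gal (Mod.one X) hσ t = t) → ∃ δ ∈ RS X, ∃ c : ℚ, t = δ + c • 1)
    {a : Cor (Mod.one X)} (ha : a ∈ RS X) : 1 - a ∉ Cor.NJ (Mod.one X) := by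
  classical
  intro h1
  obtain ⟨n, hn⟩ := Nat.exists_eq_add_of_le' hX
  let _ := Fintype.ofFinite P.V
  obtain ⟨p⟩ : Nonempty (Fin (n + 2) ↪ P.V) := Embedding.nonempty_of_card_le (by
    rw [Fintype.card_fin, ← Nat.card_eq_fintype_card, h.card]
    omega)
  have hYd : Y.dim = X.dim + 1 := by
    have := univ_dim hY
    rw [Nat.card_unique, h.card] at this
    omega
  have he' : (X.dim : ℚ) + 2 ≤ e := by exact_mod_cast he
  have hd0 : (0 : ℚ) ≤ X.dim := Nat.cast_nonneg _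
  have hE : (e : ℚ) ≤ (Mod.one X).dgr (hh X ^ X.dim) := by
    rw [h.deg hY hd, ← hYd]
    exact le_mul_of_one_le_right (Nat.cast_nonneg _) (one_le hY)
  have hE0 : 0 < (Mod.one X).dgr (hh X ^ X.dim) := by linarith
  choose γ m hm hγ hi hq using fun i => h.exists_res hY hd (p i)
  have hR : ∀ i, γ i ∈ Cor.R0 (Mod.one X) := fun i => (hγ i).gr
  have hN : ∀ i, γ i - ((e - m i) / (Mod.one X).dgr (hh X ^ X.dim)) • SS X ∈
      Cor.NJ (Mod.one X) := fun i => by
    obtain ⟨δ, hδ, c, e1⟩ := inv _ (hR i) (hi i)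
    rw [e1]
    exact num_res ha h1 hE0.ne' hδ (e1 ▸ hq i)
  have hm' : ∀ i, 0 ≤ e - m i := fun i => by
    have e1 := ((hγ i).pow (single (Sum.inl (default : P.ι)) 1) X.dim)
    have e2 : (M2 X).Z.dim = X.dim + X.dim := prod_dim X X
    have e3 := Eff.dgr (M2 X) (e2 ▸ e1) ∅ (by simp)
    have e4 := hq i X.dim 0 rfl
    rw [pow_zero, mul_one, mul_comm] at e4
    rw [Finset.card_empty, Nat.cast_zero] at e3
    exact nonneg_of_mul_nonneg_left (e4 ▸ e3) hE0
  let M := Mod.pow X (Fin (n + 2))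
  obtain ⟨s, hs, hb⟩ := h.bez h2 (S := Finset.univ.map p) (by simp [hn])
  choose dz hdz using fun x : P.Pt k => M.exists_pt' fun _ => x
  have hinj : Injective dz := fun x y e1 => by rw [← hdz x 0, e1, hdz]
  have key := cyc_eff M (O := fun i => Out X f (p i))
    (I := fun i => Out X f (p i))
    (fun i x => by
      by_cases hx : x ∈ X.pts
      · exact (h.fib hx (p i)).subset fun y hy => ⟨hy.2.1, hy.2.2.1⟩
      · exact Set.finite_empty.subset fun y hy => hx hy.1)
    hγ (fun V hV => h.poly (n := n + 1) hn p.injective M hV) (s.map ⟨dz, hinj⟩) (by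
      intro z hz
      obtain ⟨x, hx, rfl⟩ := Finset.mem_map.1 hz
      refine ⟨(M.mem _).2 fun t => ?_, fun i => ?_⟩
      · exact (hdz x t).symm ▸ (hs x hx).1
      · change Out X f (p i) ((M.β i).pr (dz x)) ((M.β (i + 1)).pr (dz x))
        rw [hdz, hdz]
        exact ⟨(hs x hx).1, (hs x hx).1, fun s _ t _ => mul_comm _ _,
          fun _ => (hs x hx).2 _ (Finset.mem_map_of_mem p (Finset.mem_univ i))⟩)
  rw [cyc_congr M hR hN, Finset.card_map] at key
  simp only [map_smul] at key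
  rw [Finset.prod_smul, ← Mod.dgL_apply, map_smul, Mod.dgL_apply, cyc_SS, Finset.prod_div_distrib,
    Finset.prod_const, Finset.card_univ, Fintype.card_fin, smul_eq_mul, mul_left_comm,
    div_mul_cancel₀ _ (pow_ne_zero _ hE0.ne')] at key
  have h3 : ∏ i, (e - m i) ≤ ((e : ℚ) - 1) ^ X.dim := by
    have := Finset.prod_le_prod (s := Finset.univ) (fun i _ => hm' i)
      (g := fun _ => (e : ℚ) - 1) fun i _ => by linarith [hm i]
    rw [Finset.prod_const, Finset.card_univ, Fintype.card_fin] at this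
    exact this.trans_eq (by rw [hn])
  have h4 : 0 < ((e : ℚ) - 1) ^ X.dim := pow_pos (by linarith) _
  nlinarith

variable {a : P.ι →₀ ℕ} (hP : Nat.card P.ι = 1) (h2 : (2 : k) ≠ 0) (hY : Y.pts = Set.univ)
  (h : Sec Y X f a) (hf : AlgebraicIndependent (⊥ : Subfield k) fun m : Mon a => coeff m.1 f)
  (hX : 2 ≤ X.dim) (he : ∀ i, X.dim + 2 ≤ a i)

omit [IsAlgClosed k] in
include hY h hf in
theorem vg_of : VG X := by
  refine ⟨1, fun j => if j = 0 then Y else X, fun _ => f, fun _ => a, hY, rfl, fun j hj => ?_, ?_⟩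
  · obtain rfl : j = 0 := by omega
    exact h
  · exact hf.comp (fun p : Σ _ : Fin 1, Mon a => p.2) fun p q e =>
      Sigma.ext (Subsingleton.elim _ _) (heq_of_eq e)

include hP h2 hY h hf hX he

theorem nil_hyp {γ : Cor (Mod.one X)} (hγ : γ ∈ Cor.NJ (Mod.one X)) : IsNilpotent γ := by
  obtain ⟨h1, ⟨i₀⟩⟩ := Nat.card_eq_one_iff_unique.1 hP
  have : Unique P.ι := uniqueOfSubsingleton i₀
  have H := HS.of hY h hf (by have := he default; omega)
  obtain ⟨k₀, _, _, _, hd⟩ := exists_dat (Z := X) (r := 1) (f := fun _ => f) (a := fun _ => a)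
    (fun _ => h.form) (fun _ => h.pos) (fun x => by simpa using H.pts x)
    (hf.comp (fun p : Σ _ : Fin 1, Mon a => p.2) fun p q e =>
      Sigma.ext (Subsingleton.elim _ _) (heq_of_eq e))
  refine hd.nil' H.cp (fun δ hδ => H.not_num h2 hY ?_ hX (he default) (fun t ht hi => ?_) hδ) hγ
  · exact (gys_single h.form Y.tp).symm.trans h.div
  · exact hd.inv' H.cp ht fun σ => hi _ _ (hd.fix σ 0)

theorem HNU {γ : Cl (X.prod X)} (hγ : Num X γ) : ∃ n, (comp X γ)^[n] γ = 0 := by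
  obtain ⟨α, -, rfl⟩ := exists_vv (Mod.one X) hγ.1
  obtain ⟨n, hn⟩ := nil_hyp hP h2 hY h hf hX he ((num_iff (M := Mod.one X)).1 hγ)
  refine ⟨n, ?_⟩
  have h3 := H2_iter (Mod.one X) α n
  rw [pow_succ, hn, zero_mul, map_zero] at h3
  exact h3

theorem HU {K : Type v} [Field K] [CharZero K] {W : Weil.{u, v, w} k K} (hW : W.Lef) :
    (∀ i m, Indep W X (Fil X i m)) ↔
      ∀ i, 1 < i → 2 * i < X.dim → Set.InjOn (W.cl X) (CH X i) := by
  obtain ⟨h1, ⟨i₀⟩⟩ := Nat.card_eq_one_iff_unique.1 hP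
  have : Unique P.ι := uniqueOfSubsingleton i₀
  have hv := vg_of hY h hf
  have e := main_iff (M := Mod.one X) (H2_al hW hv) fun p hp hpp h0 =>
    IsIdempotentElem.eq_zero_of_isNilpotent hpp (nil_hyp hP h2 hY h hf hX he (hom_NJ hp h0))
  refine e.trans ⟨fun H i hi => H i (by omega), fun H i hi h3 => ?_⟩
  obtain rfl | hi' : i = 1 ∨ 1 < i := by omega
  · refine inj_one (X := X) hW hv (fun e => ?_) (by change 2 * 1 < X.dim at h3; omega)
    have e1 := univ_dim e
    have e2 := univ_dim hY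
    have e3 := h.dim
    omega
  · exact H i hi' h3

end Pool.Agent.Work.MP_10f4af_ag
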